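import Mathlib

/-! Cliques in graphs in which every large set of vertices spans a positive proportion of its pairs. -/

set_option autoImplicit false

open Finset

namespace Pool.Agent.T9h56.HL

/-- the power mean inequality -/
lemma inner_le_aux (A : Finset ℕ) (f : ℕ → ℝ) (hf : ∀ a ∈ A, 0 ≤ f a) (m : ℕ) :
    (∑ a ∈ A, f a) ^ (m + 1) / (A.card : ℝ) ^ m ≤ ∑ a ∈ A, f a ^ (m + 1) :=
  pow_sum_div_card_le_sum_pow hf m

open Classical in
/-- the vectors of `m` elements of `A`, any two of which are related by `G` -/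
noncomputable def cliques (G : ℕ → ℕ → Prop) (A : Finset ℕ) (m : ℕ) : Finset (Fin m → ℕ) :=
  (Fintype.piFinset (fun _ : Fin m => A)).filter (fun v => ∀ i j, i ≠ j → G (v i) (v j))

lemma mem_cliques (G : ℕ → ℕ → Prop) (A : Finset ℕ) (m : ℕ) (v : Fin m → ℕ) :
    v ∈ cliques G A m ↔ (∀ i, v i ∈ A) ∧ ∀ i j, i ≠ j → G (v i) (v j) := by
  classical
  unfold cliques
  rw [mem_filter, Fintype.mem_piFinset]

open Classical in
/-- the neighbours of `a` in `A` -/
noncomputable def nbr (G : ℕ → ℕ → Prop) (A : Finset ℕ) (a : ℕ) : Finset ℕ := A.filter (fun b => G a b)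

lemma cliques_one (G : ℕ → ℕ → Prop) (A : Finset ℕ) : (cliques G A 1).card = A.card := by
  classical
  have h : cliques G A 1 = Fintype.piFinset (fun _ : Fin 1 => A) := by
    unfold cliques
    apply filter_true_of_mem
    intro v _ i j hij
    exact absurd (Subsingleton.elim i j) hij
  rw [h, Fintype.card_piFinset]
  simp

/-- recursion -/
lemma cliques_succ (G : ℕ → ℕ → Prop) (hG : ∀ a b, G a b → G b a) (A A' : Finset ℕ) (hA : A' ⊆ A) (m : ℕ) :
    ∑ a ∈ A', (cliques G (nbr G A a) m).card ≤ (cliques G A (m + 1)).card := by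
  classical
  rw [← card_sigma]
  apply card_le_card_of_injOn (fun s => Fin.cons s.1 s.2)
  · intro s hs
    rw [mem_coe, mem_sigma, mem_cliques] at hs
    obtain ⟨h1, h2, h3⟩ := hs
    rw [mem_coe, mem_cliques]
    have h4 : ∀ i, s.2 i ∈ A ∧ G s.1 (s.2 i) := fun i => by
      have := h2 i
      unfold nbr at this
      rwa [mem_filter] at this
    constructor
    · intro i
      refine Fin.cases ?_ (fun i => ?_) i
      · simpa using hA h1
      · simpa using (h4 i).1
    · intro i j
      refine Fin.cases ?_ (fun i => ?_) i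
      · refine Fin.cases ?_ (fun j => ?_) j
        · intro h
          exact absurd rfl h
        · intro _
          simpa using (h4 j).2
      · refine Fin.cases ?_ (fun j => ?_) j
        · intro _
          simpa using hG _ _ (h4 i).2
        · intro h
          simpa using h3 i j (fun h5 => h (by rw [h5]))
  · intro s _ t _ h
    have h' : (Fin.cons s.1 s.2 : Fin (m + 1) → ℕ) = Fin.cons t.1 t.2 := h
    have h1 : s.1 = t.1 := by
      have := congrFun h' 0
      simpa using this
    have h2 : s.2 = t.2 := by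
      funext i
      have := congrFun h' i.succ
      simpa using this
    exact Sigma.ext h1 (heq_of_eq h2)

/-- If every `A ⊆ U` with at least `t` elements spans at least `2 ρ |A|²` related pairs, a subset `A` of `U` of at least
`t ρ ^ (-(m - 2))` elements has at least `ρ ^ (m (m - 1) / 2) |A| ^ m` cliques of `m` elements (here `m + 1` for `m`). -/
theorem many_cliques (G : ℕ → ℕ → Prop) (hG : ∀ a b, G a b → G b a) (ρ t : ℝ) (hρ : 0 < ρ) (hρ1 : ρ ≤ 1)
    (U : Finset ℕ) (hU : ∀ A ⊆ U, t ≤ A.card → 2 * ρ * (A.card : ℝ) ^ 2 ≤ ∑ a ∈ A, ((nbr G A a).card : ℝ)) :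
    ∀ m : ℕ, ∀ A ⊆ U, (m = 0 ∨ t ≤ ρ ^ (m - 1) * A.card) →
      ρ ^ (m * (m + 1) / 2) * (A.card : ℝ) ^ (m + 1) ≤ ((cliques G A (m + 1)).card : ℝ) := by
  classical
  intro m
  induction m with
  | zero =>
    intro A _ _
    have h1 : ((cliques G A (0 + 1)).card : ℝ) = A.card := by
      have := cliques_one G A
      exact_mod_cast this
    rw [h1]
    simp
  | succ m ih =>
    intro A hA ht
    set n : ℝ := (A.card : ℝ) with hn
    have hn0 : 0 ≤ n := Nat.cast_nonneg _
    have ht : t ≤ ρ ^ m * n := by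
      rcases ht with h | h
      · omega
      · simpa using h
    rcases hn0.eq_or_lt with hn1 | hn1
    · rw [← hn1]
      have : (0 : ℝ) ^ (m + 1 + 1) = 0 := by simp
      rw [this, mul_zero]
      exact Nat.cast_nonneg _
    have htn : t ≤ n := by
      refine ht.trans ?_
      have : ρ ^ m ≤ 1 := pow_le_one₀ hρ.le hρ1
      calc ρ ^ m * n ≤ 1 * n := mul_le_mul_of_nonneg_right this hn0
        _ = n := one_mul n
    have hedge := hU A hA htn
    -- the elements of large degree
    set A' : Finset ℕ := A.filter (fun a => ρ * n ≤ ((nbr G A a).card : ℝ)) with hA'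
    have hA'A : A' ⊆ A := filter_subset _ _
    -- the power mean
    have hmean : (∑ a ∈ A, ((nbr G A a).card : ℝ)) ^ (m + 1) / n ^ m ≤
        ∑ a ∈ A, ((nbr G A a).card : ℝ) ^ (m + 1) :=
      inner_le_aux A (fun a => ((nbr G A a).card : ℝ)) (fun a _ => Nat.cast_nonneg _) m
    have hlow : (2 * ρ) ^ (m + 1) * n ^ (m + 2) ≤ ∑ a ∈ A, ((nbr G A a).card : ℝ) ^ (m + 1) := by
      refine le_trans ?_ hmean
      rw [le_div_iff₀ (by positivity)]
      calc (2 * ρ) ^ (m + 1) * n ^ (m + 2) * n ^ m = (2 * ρ * n ^ 2) ^ (m + 1) := by ring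
        _ ≤ _ := pow_le_pow_left₀ (by positivity) hedge _
    have hsmall : ∑ a ∈ A.filter (fun a => ¬ ρ * n ≤ ((nbr G A a).card : ℝ)), ((nbr G A a).card : ℝ) ^ (m + 1) ≤
        n * (ρ * n) ^ (m + 1) := by
      have h2 : ∑ a ∈ A.filter (fun a => ¬ ρ * n ≤ ((nbr G A a).card : ℝ)), ((nbr G A a).card : ℝ) ^ (m + 1) ≤
          (A.filter (fun a => ¬ ρ * n ≤ ((nbr G A a).card : ℝ))).card • ((ρ * n) ^ (m + 1)) := by
        apply sum_le_card_nsmul
        intro a ha
        rw [mem_filter, not_le] at ha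
        exact pow_le_pow_left₀ (Nat.cast_nonneg _) ha.2.le _
      rw [nsmul_eq_mul] at h2
      refine h2.trans ?_
      apply mul_le_mul_of_nonneg_right _ (by positivity)
      rw [hn]
      exact_mod_cast card_le_card (filter_subset _ _)
    have hbig : ρ ^ (m + 1) * n ^ (m + 2) ≤ ∑ a ∈ A', ((nbr G A a).card : ℝ) ^ (m + 1) := by
      have h1 := sum_filter_add_sum_filter_not A (fun a => ρ * n ≤ ((nbr G A a).card : ℝ))
        (fun a => ((nbr G A a).card : ℝ) ^ (m + 1))
      rw [← hA'] at h1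
      have h2 : (2 : ℝ) ≤ 2 ^ (m + 1) := by
        calc (2 : ℝ) = 2 ^ 1 := by norm_num
          _ ≤ 2 ^ (m + 1) := pow_le_pow_right₀ (by norm_num) (by omega)
      have h3 : 2 * (ρ ^ (m + 1) * n ^ (m + 2)) ≤ (2 * ρ) ^ (m + 1) * n ^ (m + 2) := by
        rw [mul_pow, mul_assoc]
        exact mul_le_mul_of_nonneg_right h2 (by positivity)
      have h4 : n * (ρ * n) ^ (m + 1) = ρ ^ (m + 1) * n ^ (m + 2) := by ring
      linarith
    have h3 : ∀ a ∈ A', ρ ^ (m * (m + 1) / 2) * ((nbr G A a).card : ℝ) ^ (m + 1) ≤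
        ((cliques G (nbr G A a) (m + 1)).card : ℝ) := by
      intro a ha
      rw [hA', mem_filter] at ha
      have hsub : nbr G A a ⊆ U := (filter_subset _ _).trans hA
      apply ih _ hsub
      rcases Nat.eq_zero_or_pos m with hm | hm
      · exact Or.inl hm
      · right
        refine ht.trans ?_
        obtain ⟨k, rfl⟩ : ∃ k, m = k + 1 := ⟨m - 1, by omega⟩
        rw [Nat.add_sub_cancel]
        calc ρ ^ (k + 1) * n = ρ ^ k * (ρ * n) := by ring
          _ ≤ _ := mul_le_mul_of_nonneg_left ha.2 (by positivity)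
    have h5 : ((∑ a ∈ A', (cliques G (nbr G A a) (m + 1)).card : ℕ) : ℝ) ≤
        ((cliques G A (m + 1 + 1)).card : ℝ) := by
      exact_mod_cast cliques_succ G hG A A' hA'A (m + 1)
    refine le_trans ?_ h5
    rw [Nat.cast_sum]
    refine le_trans ?_ (sum_le_sum h3)
    rw [← mul_sum]
    have e1 : (m + 1) * (m + 1 + 1) / 2 = m * (m + 1) / 2 + (m + 1) := by
      have : (m + 1) * (m + 1 + 1) = m * (m + 1) + (m + 1) * 2 := by ring
      rw [this, Nat.add_mul_div_right _ _ (by norm_num)]
    rw [e1, pow_add, mul_assoc]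
    exact mul_le_mul_of_nonneg_left hbig (by positivity)

/-- If every `A ⊆ U` with at least `t` elements spans at least `κ |A|⁴ / H²` related pairs, then a set `A` of `β H`
elements has at least `((κ/2) β) ^ E(m) H ^ m` cliques of `m` elements (here `m + 1` for `m`). -/
theorem dense_cliques (G : ℕ → ℕ → Prop) (hG : ∀ a b, G a b → G b a) (κ t H : ℝ) (hκ : 0 < κ) (hκ1 : κ ≤ 1)
    (hH : 0 < H) (E : ℕ → ℕ) (hE0 : 1 ≤ E 0) (hE : ∀ m, 3 + 3 * E m ≤ E (m + 1)) (U : Finset ℕ) (hUH : (U.card : ℝ) ≤ H)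
    (hU : ∀ A ⊆ U, t ≤ A.card → κ * (A.card : ℝ) ^ 4 / H ^ 2 ≤ ∑ a ∈ A, ((nbr G A a).card : ℝ)) :
    ∀ m : ℕ, ∀ A ⊆ U, t ≤ (κ / 2 * (A.card / H)) ^ E m * H →
      (κ / 2 * (A.card / H)) ^ E m * H ^ (m + 1) ≤ ((cliques G A (m + 1)).card : ℝ) := by
  classical
  intro m
  induction m with
  | zero =>
    intro A hA _
    have h1 : ((cliques G A (0 + 1)).card : ℝ) = A.card := by
      have := cliques_one G A
      exact_mod_cast this
    rw [h1]
    set β : ℝ := A.card / H with hβ
    have hβ0 : 0 ≤ β := by positivity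
    have hβ1 : β ≤ 1 := by
      rw [hβ, div_le_one hH]
      exact le_trans (by exact_mod_cast card_le_card hA) hUH
    have hA : (A.card : ℝ) = β * H := (div_mul_cancel₀ _ hH.ne').symm
    clear_value β
    clear hβ
    rw [hA]
    have h2 : (κ / 2 * β) ^ E 0 ≤ β := by
      have h3 : κ / 2 * β ≤ β := by nlinarith
      have h4 : 0 ≤ κ / 2 * β := by positivity
      calc (κ / 2 * β) ^ E 0 ≤ (κ / 2 * β) ^ 1 :=
            pow_le_pow_of_le_one h4 (h3.trans hβ1) hE0
        _ = κ / 2 * β := pow_one _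
        _ ≤ β := h3
    calc (κ / 2 * β) ^ E 0 * H ^ (0 + 1) = (κ / 2 * β) ^ E 0 * H := by ring
      _ ≤ β * H := mul_le_mul_of_nonneg_right h2 hH.le
  | succ m ih =>
    intro A hA ht
    set n : ℝ := (A.card : ℝ) with hn
    have hn0 : 0 ≤ n := Nat.cast_nonneg _
    set β : ℝ := n / H with hβ
    have hβ0 : 0 ≤ β := by positivity
    have hnH : n ≤ H := le_trans (by rw [hn]; exact_mod_cast card_le_card hA) hUH
    have hβ1 : β ≤ 1 := by
      rw [hβ, div_le_one hH]
      exact hnH
    have hnβ : n = β * H := (div_mul_cancel₀ n hH.ne').symm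
    have hβz' : n = 0 → β = 0 := fun h => by rw [hβ, h, zero_div]
    clear_value β
    clear hβ
    rcases hn0.eq_or_lt with hn1 | hn1
    · have hβz : β = 0 := hβz' hn1.symm
      have := hE m
      rw [hβz, mul_zero, zero_pow (by omega), zero_mul]
      exact Nat.cast_nonneg _
    have hβpos : 0 < β := by
      rcases hβ0.eq_or_lt with h | h
      · rw [← h, zero_mul] at hnβ
        linarith
      · exact h
    set θ : ℝ := κ / 2 * β with hθ
    have hθ0 : 0 < θ := by positivity
    have hθ1 : θ ≤ 1 := by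
      rw [hθ]
      nlinarith
    have hθβ : θ ≤ β := by
      rw [hθ]
      nlinarith
    have htn : t ≤ n := by
      refine ht.trans ?_
      rw [hnβ]
      apply mul_le_mul_of_nonneg_right _ hH.le
      calc θ ^ E (m + 1) ≤ θ ^ 1 := pow_le_pow_of_le_one hθ0.le hθ1 (by have := hE m; omega)
        _ = θ := pow_one _
        _ ≤ β := hθβ
    have hedge := hU A hA htn
    -- the mean degree is at least `2 g`
    set g : ℝ := κ / 2 * β ^ 3 * H with hg
    have hg0 : 0 < g := by positivity
    have hedge' : 2 * g * n ≤ ∑ a ∈ A, ((nbr G A a).card : ℝ) := by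
      refine le_trans (le_of_eq ?_) hedge
      rw [hg, ← hn]
      have hH' : H ≠ 0 := hH.ne'
      rw [hnβ]
      field_simp
    set A' : Finset ℕ := A.filter (fun a => g ≤ ((nbr G A a).card : ℝ)) with hA'
    have hA'A : A' ⊆ A := filter_subset _ _
    have h1 : ∑ a ∈ A, ((nbr G A a).card : ℝ) ≤ A'.card * n + n * g := by
      rw [← sum_filter_add_sum_filter_not A (fun a => g ≤ ((nbr G A a).card : ℝ))]
      apply add_le_add
      · rw [← nsmul_eq_mul]
        apply sum_le_card_nsmul
        intro a _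
        rw [hn]
        exact_mod_cast card_le_card (filter_subset _ _)
      · have h2 : ∑ a ∈ A.filter (fun a => ¬ g ≤ ((nbr G A a).card : ℝ)), ((nbr G A a).card : ℝ) ≤
            (A.filter (fun a => ¬ g ≤ ((nbr G A a).card : ℝ))).card • g := by
          apply sum_le_card_nsmul
          intro a ha
          rw [mem_filter, not_le] at ha
          exact ha.2.le
        rw [nsmul_eq_mul] at h2
        refine h2.trans ?_
        apply mul_le_mul_of_nonneg_right _ hg0.le
        rw [hn]
        exact_mod_cast card_le_card (filter_subset _ _)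
    have h2 : g ≤ A'.card := by
      have h3 : g * n ≤ A'.card * n := by linarith
      exact le_of_mul_le_mul_right h3 hn1
    -- `θ' ≥ θ³`
    have hθ' : ∀ a ∈ A', θ ^ 3 ≤ κ / 2 * (((nbr G A a).card : ℝ) / H) := by
      intro a ha
      rw [hA', mem_filter] at ha
      have h3 : κ / 2 * β ^ 3 ≤ ((nbr G A a).card : ℝ) / H := by
        rw [le_div_iff₀ hH]
        exact ha.2
      calc θ ^ 3 = (κ / 2) * ((κ / 2) * (κ / 2 * β ^ 3)) := by rw [hθ]; ring
        _ ≤ (κ / 2) * (1 * (κ / 2 * β ^ 3)) := by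
            apply mul_le_mul_of_nonneg_left _ (by positivity)
            exact mul_le_mul_of_nonneg_right (by linarith) (by positivity)
        _ ≤ κ / 2 * (((nbr G A a).card : ℝ) / H) := by
            apply mul_le_mul_of_nonneg_left _ (by positivity)
            linarith
    have hpow : θ ^ E (m + 1) ≤ (θ ^ 3) * (θ ^ 3) ^ E m := by
      rw [← pow_mul, ← pow_add]
      apply pow_le_pow_of_le_one hθ0.le hθ1
      exact hE m
    have h3 : ∀ a ∈ A', (θ ^ 3) ^ E m * H ^ (m + 1) ≤
        ((cliques G (nbr G A a) (m + 1)).card : ℝ) := by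
      intro a ha
      have hle := hθ' a ha
      have hsub : nbr G A a ⊆ U := (filter_subset _ _).trans hA
      have h4 : (θ ^ 3) ^ E m ≤ (κ / 2 * (((nbr G A a).card : ℝ) / H)) ^ E m :=
        pow_le_pow_left₀ (by positivity) hle _
      refine le_trans ?_ (ih _ hsub ?_)
      · exact mul_le_mul_of_nonneg_right h4 (by positivity)
      · refine ht.trans ?_
        apply mul_le_mul_of_nonneg_right _ hH.le
        refine hpow.trans (le_trans ?_ h4)
        have : θ ^ 3 ≤ 1 := pow_le_one₀ hθ0.le hθ1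
        calc θ ^ 3 * (θ ^ 3) ^ E m ≤ 1 * (θ ^ 3) ^ E m :=
              mul_le_mul_of_nonneg_right this (by positivity)
          _ = _ := one_mul _
    have h4 : (A'.card : ℝ) * ((θ ^ 3) ^ E m * H ^ (m + 1)) ≤
        ((cliques G A (m + 1 + 1)).card : ℝ) := by
      have h5 : ((∑ a ∈ A', (cliques G (nbr G A a) (m + 1)).card : ℕ) : ℝ) ≤
          ((cliques G A (m + 1 + 1)).card : ℝ) := by
        exact_mod_cast cliques_succ G hG A A' hA'A (m + 1)
      refine le_trans ?_ h5
      rw [Nat.cast_sum, ← nsmul_eq_mul]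
      exact card_nsmul_le_sum _ _ _ h3
    refine le_trans ?_ h4
    have h5 : θ ^ 3 * H ≤ A'.card := by
      refine le_trans ?_ h2
      rw [hg]
      apply mul_le_mul_of_nonneg_right _ hH.le
      calc θ ^ 3 = ((κ / 2) * (κ / 2)) * (κ / 2 * β ^ 3) := by rw [hθ]; ring
        _ ≤ 1 * (κ / 2 * β ^ 3) := by
            apply mul_le_mul_of_nonneg_right _ (by positivity)
            nlinarith
        _ = _ := one_mul _
    calc θ ^ E (m + 1) * H ^ (m + 1 + 1) ≤ (θ ^ 3 * (θ ^ 3) ^ E m) * H ^ (m + 1 + 1) :=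
          mul_le_mul_of_nonneg_right hpow (by positivity)
      _ = (θ ^ 3 * H) * ((θ ^ 3) ^ E m * H ^ (m + 1)) := by ring
      _ ≤ _ := mul_le_mul_of_nonneg_right h5 (by positivity)

end Pool.Agent.T9h56.HL
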