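import Mathlib
import Pool.Agent.H442R2.KF.Hat
import Pool.Agent.H442R2.KF.Bil
import Pool.Agent.H343R2.PhiSum

/-! Sums over sets of shifts: the model of the primes (truncated Ramanujan expansion). -/

set_option autoImplicit false

open Finset

namespace Pool.Agent.T9h56.HL

open Pool.Agent.H442R2.KF

/-- `μ(q) / φ(q)` -/
noncomputable def mf (q : ℕ) : ℝ := (ArithmeticFunction.moebius q : ℝ) / (Nat.totient q : ℝ)

/-- the weights of the model -/
noncomputable def wt (R e : ℕ) : ℝ :=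
  (e : ℝ) * ∑ q ∈ (Icc 1 R).filter (fun q => e ∣ q), (ArithmeticFunction.moebius (q / e) : ℝ) * mf q

/-- the truncated singular series -/
noncomputable def SR (R : ℕ) (h : ℤ) : ℝ := ∑ q ∈ Icc 1 R, ram q h * mf q ^ 2

lemma uh_wt (R q : ℕ) (hq : q ∈ Icc 1 R) : uh (wt R) R q = mf q := by
  rw [mem_Icc] at hq
  unfold uh wt
  have h1 : ∀ d ∈ (Icc 1 R).filter (fun d => q ∣ d),
      ((d : ℝ) * ∑ q' ∈ (Icc 1 R).filter (fun q' => d ∣ q'),
        (ArithmeticFunction.moebius (q' / d) : ℝ) * mf q') / d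
      = ∑ q' ∈ Icc 1 R, if d ∣ q' then (ArithmeticFunction.moebius (q' / d) : ℝ) * mf q' else 0 := by
    intro d hd
    rw [mem_filter, mem_Icc] at hd
    have hd0 : (d : ℝ) ≠ 0 := by
      have : 0 < d := by omega
      positivity
    rw [mul_div_cancel_left₀ _ hd0, sum_filter]
  rw [sum_congr rfl h1, sum_comm]
  have h2 : ∀ q' ∈ Icc 1 R, ∑ d ∈ (Icc 1 R).filter (fun d => q ∣ d),
      (if d ∣ q' then (ArithmeticFunction.moebius (q' / d) : ℝ) * mf q' else 0) =
      if q' = q then mf q' else 0 := by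
    intro q' hq'
    rw [mem_Icc] at hq'
    rw [← sum_filter, filter_filter, TaskN2.filter_eq q q' R hq'.1 hq'.2, ← sum_mul,
      TaskN2.sum_inner q q' hq.1 hq'.1]
    split_ifs <;> simp
  rw [sum_congr rfl h2, sum_ite_eq', if_pos (mem_Icc.2 hq)]

lemma gram (R : ℕ) (h : ℤ) : ∑ d ∈ Icc 1 R, ∑ d' ∈ Icc 1 R,
    wt R d * wt R d' * Fh h (Nat.gcd d d') / (d * d') = SR R h := by
  rw [bilinear]
  unfold SR
  refine sum_congr rfl fun q hq => ?_
  rw [uh_wt R q hq]
  ring

/-- sums of multiplicative functions over the divisors of a squarefree number -/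
lemma prod_sqf (g : ℕ → ℝ) (h1 : g 1 = 1) (hm : ∀ a b : ℕ, Nat.Coprime a b → g (a * b) = g a * g b)
    (q : ℕ) (hq : Squarefree q) : ∑ d ∈ q.divisors, g d = ∏ p ∈ q.primeFactors, (1 + g p) := by
  set G : ArithmeticFunction ℝ := ⟨fun n => if n = 0 then 0 else g n, by simp⟩ with hG
  have hGa : ∀ n : ℕ, n ≠ 0 → G n = g n := fun n hn => by
    rw [hG, ArithmeticFunction.coe_mk, if_neg hn]
  have hGm : G.IsMultiplicative := by
    refine ⟨by rw [hGa 1 one_ne_zero, h1], fun {m n} h => ?_⟩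
    rcases eq_or_ne m 0 with rfl | hm0
    · rw [zero_mul, ArithmeticFunction.map_zero, zero_mul]
    rcases eq_or_ne n 0 with rfl | hn0
    · rw [mul_zero, ArithmeticFunction.map_zero, mul_zero]
    rw [hGa _ (mul_ne_zero hm0 hn0), hGa _ hm0, hGa _ hn0, hm _ _ h]
  have h2 := hGm.prodPrimeFactors_one_add_of_squarefree hq
  rw [sum_congr rfl (g := fun d => G d) (fun d hd => (hGa d (by
    rintro rfl
    simp at hd)).symm), ← h2]
  exact prod_congr rfl fun p hp => by rw [hGa p (Nat.prime_of_mem_primeFactors hp).ne_zero]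

lemma map_sqf (g : ℕ → ℝ) (h1 : g 1 = 1) (hm : ∀ a b : ℕ, Nat.Coprime a b → g (a * b) = g a * g b)
    (q : ℕ) (hq : Squarefree q) : g q = ∏ p ∈ q.primeFactors, g p := by
  set G : ArithmeticFunction ℝ := ⟨fun n => if n = 0 then 0 else g n, by simp⟩ with hG
  have hGa : ∀ n : ℕ, n ≠ 0 → G n = g n := fun n hn => by
    rw [hG, ArithmeticFunction.coe_mk, if_neg hn]
  have hGm : G.IsMultiplicative := by
    refine ⟨by rw [hGa 1 one_ne_zero, h1], fun {m n} h => ?_⟩
    rcases eq_or_ne m 0 with rfl | hm0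
    · rw [zero_mul, ArithmeticFunction.map_zero, zero_mul]
    rcases eq_or_ne n 0 with rfl | hn0
    · rw [mul_zero, ArithmeticFunction.map_zero, mul_zero]
    rw [hGa _ (mul_ne_zero hm0 hn0), hGa _ hm0, hGa _ hn0, hm _ _ h]
  have h2 := hGm.map_prod_of_prime q.primeFactors (fun p hp => Nat.prime_of_mem_primeFactors hp)
  rw [Nat.prod_primeFactors_of_squarefree hq, hGa q hq.ne_zero] at h2
  rw [h2]
  exact prod_congr rfl fun p hp => by rw [hGa p (Nat.prime_of_mem_primeFactors hp).ne_zero]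

lemma moebius_sqf (q : ℕ) (hq : Squarefree q) :
    (ArithmeticFunction.moebius q : ℝ) ^ 2 = 1 := by
  have h := ArithmeticFunction.moebius_sq_eq_one_of_squarefree hq
  exact_mod_cast h

lemma moebius_div (q e : ℕ) (hq : Squarefree q) (he : e ∣ q) :
    (ArithmeticFunction.moebius (q / e) : ℝ) =
      (ArithmeticFunction.moebius q : ℝ) * ArithmeticFunction.moebius e := by
  obtain ⟨f, rfl⟩ := he
  have he0 : 0 < e := Nat.pos_of_ne_zero (by rintro rfl; simp at hq)
  rw [Nat.mul_div_cancel_left _ he0]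
  have hc : Nat.Coprime e f := Nat.coprime_of_squarefree_mul hq
  rw [ArithmeticFunction.isMultiplicative_moebius.map_mul_of_coprime hc]
  have h1 := moebius_sqf e (hq.squarefree_of_dvd (dvd_mul_right _ _))
  push_cast
  linear_combination (-(ArithmeticFunction.moebius f : ℝ)) * h1

lemma moebius_mul (a b : ℕ) (h : Nat.Coprime a b) : (ArithmeticFunction.moebius (a * b) : ℝ) =
    (ArithmeticFunction.moebius a : ℝ) * ArithmeticFunction.moebius b := by
  rw [ArithmeticFunction.isMultiplicative_moebius.map_mul_of_coprime h]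
  push_cast
  ring

lemma gcd_mul_one (a b : ℕ) (k : ℤ) : Int.gcd ((a * b : ℕ) : ℤ) k = 1 ↔
    Int.gcd (a : ℤ) k = 1 ∧ Int.gcd (b : ℤ) k = 1 := by
  rw [← Int.isCoprime_iff_gcd_eq_one, ← Int.isCoprime_iff_gcd_eq_one,
    ← Int.isCoprime_iff_gcd_eq_one]
  push_cast
  exact IsCoprime.mul_left_iff

lemma dvd_mul_iff (a b : ℕ) (k : ℤ) (h : Nat.Coprime a b) : ((a * b : ℕ) : ℤ) ∣ k ↔
    (a : ℤ) ∣ k ∧ (b : ℤ) ∣ k := by
  constructor
  · intro h1
    push_cast at h1
    exact ⟨(dvd_mul_right _ _).trans h1, (dvd_mul_left _ _).trans h1⟩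
  · rintro ⟨h1, h2⟩
    push_cast
    exact (Nat.isCoprime_iff_coprime.2 h).mul_dvd h1 h2

/-- the local identity behind the mixed sum -/
lemma local_sqf (q : ℕ) (hq : Squarefree q) (k : ℤ) :
    ∑ e ∈ q.divisors.filter (fun e : ℕ => Int.gcd (e : ℤ) k = 1),
      ((e : ℝ) / Nat.totient e) * (ArithmeticFunction.moebius (q / e) : ℝ) = mf q * ram q k := by
  set f : ℕ → ℝ := fun e => if Int.gcd (e : ℤ) k = 1 then
    (ArithmeticFunction.moebius e : ℝ) * ((e : ℝ) / Nat.totient e) else 0 with hf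
  set g : ℕ → ℝ := fun d => if (d : ℤ) ∣ k then (ArithmeticFunction.moebius d : ℝ) * d else 0
    with hg
  have hf1 : f 1 = 1 := by simp [hf]
  have hg1 : g 1 = 1 := by simp [hg]
  have hfm : ∀ a b : ℕ, Nat.Coprime a b → f (a * b) = f a * f b := by
    intro a b hab
    simp only [hf, gcd_mul_one]
    by_cases h1 : Int.gcd (a : ℤ) k = 1
    · by_cases h2 : Int.gcd (b : ℤ) k = 1
      · rw [if_pos ⟨h1, h2⟩, if_pos h1, if_pos h2, moebius_mul a b hab, Nat.totient_mul hab]
        push_cast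
        rw [mul_div_mul_comm]
        ring
      · rw [if_neg (fun h => h2 h.2), if_neg h2, mul_zero]
    · rw [if_neg (fun h => h1 h.1), if_neg h1, zero_mul]
  have hgm : ∀ a b : ℕ, Nat.Coprime a b → g (a * b) = g a * g b := by
    intro a b hab
    simp only [hg, dvd_mul_iff a b k hab]
    by_cases h1 : (a : ℤ) ∣ k
    · by_cases h2 : (b : ℤ) ∣ k
      · rw [if_pos ⟨h1, h2⟩, if_pos h1, if_pos h2, moebius_mul a b hab]
        push_cast
        ring
      · rw [if_neg (fun h => h2 h.2), if_neg h2, mul_zero]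
    · rw [if_neg (fun h => h1 h.1), if_neg h1, zero_mul]
  have hμ := moebius_sqf q hq
  have hl : ∑ e ∈ q.divisors.filter (fun e : ℕ => Int.gcd (e : ℤ) k = 1),
      ((e : ℝ) / Nat.totient e) * (ArithmeticFunction.moebius (q / e) : ℝ) =
      (ArithmeticFunction.moebius q : ℝ) * ∏ p ∈ q.primeFactors, (1 + f p) := by
    rw [← prod_sqf f hf1 hfm q hq, mul_sum, sum_filter]
    refine sum_congr rfl fun e he => ?_
    simp only [hf]
    split_ifs with h1
    · rw [moebius_div q e hq (Nat.dvd_of_mem_divisors he)]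
      ring
    · rw [mul_zero]
  have hr : ram q k = (ArithmeticFunction.moebius q : ℝ) * ∏ p ∈ q.primeFactors, (1 + g p) := by
    rw [← prod_sqf g hg1 hgm q hq, mul_sum]
    unfold ram
    rw [sum_filter]
    refine sum_congr rfl fun e he => ?_
    simp only [hg]
    split_ifs with h1
    · rw [moebius_div q e hq (Nat.dvd_of_mem_divisors he)]
      ring
    · rw [mul_zero]
  have hmf : mf q = ∏ p ∈ q.primeFactors, mf p := by
    refine map_sqf mf (by simp [mf]) (fun a b hab => ?_) q hq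
    unfold mf
    rw [moebius_mul a b hab, Nat.totient_mul hab]
    push_cast
    rw [mul_div_mul_comm]
  have hprod : ∏ p ∈ q.primeFactors, (1 + f p) = mf q * ∏ p ∈ q.primeFactors, (1 + g p) := by
    rw [hmf, ← prod_mul_distrib]
    refine prod_congr rfl fun p hp => ?_
    have hpp := Nat.prime_of_mem_primeFactors hp
    have hp1 : ((p - 1 : ℕ) : ℝ) = (p : ℝ) - 1 := by
      rw [Nat.cast_sub hpp.one_le, Nat.cast_one]
    have hp2 : (p : ℝ) - 1 ≠ 0 := by
      have : (2 : ℝ) ≤ p := by exact_mod_cast hpp.two_le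
      linarith
    simp only [hf, hg, mf, ArithmeticFunction.moebius_apply_prime hpp, Nat.totient_prime hpp, hp1]
    have hgp : Int.gcd (p : ℤ) k = 1 ↔ ¬ (p : ℤ) ∣ k := by
      rw [← Int.isCoprime_iff_gcd_eq_one]
      exact (Nat.prime_iff_prime_int.1 hpp).irreducible.coprime_iff_not_dvd
    by_cases h1 : (p : ℤ) ∣ k
    · rw [if_neg (fun h => (hgp.1 h) h1), if_pos h1]
      push_cast
      field_simp
      ring
    · rw [if_pos (hgp.2 h1), if_neg h1]
      push_cast
      field_simp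
      ring
  rw [hl, hr, hprod]
  ring

lemma mixed (R : ℕ) (k : ℤ) :
    ∑ e ∈ (Icc 1 R).filter (fun e : ℕ => Int.gcd (e : ℤ) k = 1), wt R e / Nat.totient e = SR R k := by
  have h1 : ∀ e ∈ (Icc 1 R).filter (fun e : ℕ => Int.gcd (e : ℤ) k = 1),
      wt R e / Nat.totient e = ∑ q ∈ Icc 1 R, if e ∣ q then
        (((e : ℝ) / Nat.totient e) * (ArithmeticFunction.moebius (q / e) : ℝ)) * mf q else 0 := by
    intro e _
    unfold wt
    rw [← sum_filter, mul_sum, sum_div]
    refine sum_congr rfl fun q _ => ?_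
    ring
  rw [sum_congr rfl h1, sum_comm]
  unfold SR
  refine sum_congr rfl fun q hq => ?_
  rw [mem_Icc] at hq
  rw [← sum_filter, filter_filter, ← sum_mul]
  have hset : (Icc 1 R).filter (fun e : ℕ => Int.gcd (e : ℤ) k = 1 ∧ e ∣ q) =
      q.divisors.filter (fun e : ℕ => Int.gcd (e : ℤ) k = 1) := by
    ext e
    simp only [mem_filter, mem_Icc, Nat.mem_divisors]
    constructor
    · rintro ⟨⟨h3, h4⟩, h5, h6⟩
      exact ⟨⟨h6, by omega⟩, h5⟩
    · rintro ⟨⟨h3, h4⟩, h5⟩
      exact ⟨⟨Nat.pos_of_dvd_of_pos h3 hq.1, (Nat.le_of_dvd hq.1 h3).trans hq.2⟩, h5, h3⟩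
  rw [hset]
  by_cases hs : Squarefree q
  · rw [local_sqf q hs k]
    ring
  · have : mf q = 0 := by
      unfold mf
      rw [ArithmeticFunction.moebius_eq_zero_of_not_squarefree hs]
      simp
    rw [this]
    ring

lemma ram_zero (q : ℕ) (hq : 1 ≤ q) : ram q 0 = Nat.totient q := by
  have h := Nat.sum_totient q
  unfold ram
  rw [filter_true_of_mem (fun d _ => dvd_zero _)]
  have key : ∀ n : ℕ, n > 0 → ∑ i ∈ n.divisors, ((Nat.totient i : ℕ) : ℝ) = (n : ℝ) := by
    intro n _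
    exact_mod_cast Nat.sum_totient n
  rw [ArithmeticFunction.sum_eq_iff_sum_mul_moebius_eq] at key
  have h1 := key q hq
  rw [Nat.sum_divisorsAntidiagonal' (fun a b => ((ArithmeticFunction.moebius a : ℤ) : ℝ) * (b : ℝ))]
    at h1
  rw [← h1]

lemma SR_zero (R : ℕ) (hR : 1 ≤ R) : Real.log R ≤ SR R 0 := by
  refine (H343.PhiSum.totient_lower R hR).trans (le_of_eq ?_)
  unfold SR H343.LL H343.Mod
  rw [sum_filter]
  have hI : Ioc 0 R = Icc 1 R := by
    ext i
    simp only [mem_Ioc, mem_Icc]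
    omega
  rw [hI]
  refine sum_congr rfl fun q hq => ?_
  rw [mem_Icc] at hq
  have ht : (0 : ℝ) < Nat.totient q := by exact_mod_cast Nat.totient_pos.2 hq.1
  rw [ram_zero q hq.1]
  unfold mf
  split_ifs with hs
  · rw [div_pow, moebius_sqf q hs]
    field_simp
  · rw [ArithmeticFunction.moebius_eq_zero_of_not_squarefree hs]
    simp

end Pool.Agent.T9h56.HL
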