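import Mathlib
import Pool.Agent.T9h56.HL.Model

/-! Sums over sets of shifts: the two mean values in a block. -/

set_option autoImplicit false

open Finset

namespace Pool.Agent.T9h56.HL

open Pool.Agent.H442R2.KF

/-- the model at `m` -/
noncomputable def GR (R m : ℕ) : ℝ := ∑ e ∈ Icc 1 R, if e ∣ m then wt R e else 0

/-- the quadratic form of the truncated singular series -/
noncomputable def QF (R H : ℕ) (c : ℕ → ℝ) : ℝ :=
  ∑ a ∈ Icc 1 H, ∑ b ∈ Icc 1 H, c a * c b * SR R ((a : ℤ) - b)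

/-- the indicator function of the primes -/
def pr (m : ℕ) : ℝ := if m.Prime then 1 else 0

lemma card_class (y N m r : ℕ) (hm : 0 < m) :
    |(((Ioc y (y + N)).filter (fun n => n ≡ r [MOD m])).card : ℝ) - (N : ℝ) / m| ≤ 1 := by
  have h := Nat.Ioc_filter_modEq_card y (y + N) hm r
  have hm0 : (0 : ℚ) < m := by exact_mod_cast hm
  set u : ℚ := (((y + N : ℕ) : ℚ) - r) / m with hu
  set v : ℚ := ((y : ℚ) - r) / m with hv
  have huv : u = v + N / m := by
    rw [hu, hv]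
    push_cast
    field_simp
    ring
  have h0 : ⌊v⌋ ≤ ⌊u⌋ := Int.floor_le_floor (by
    rw [huv]
    have : (0 : ℚ) ≤ N / m := by positivity
    linarith)
  rw [max_eq_left (by linarith)] at h
  have h1 : (((Ioc y (y + N)).filter (fun n => n ≡ r [MOD m])).card : ℚ) = ⌊u⌋ - ⌊v⌋ := by
    exact_mod_cast h
  have h2 : |(((Ioc y (y + N)).filter (fun n => n ≡ r [MOD m])).card : ℚ) - (N : ℚ) / m| ≤ 1 := by
    rw [h1, abs_le]
    have a1 := Int.floor_le u
    have a2 := Int.lt_floor_add_one u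
    have a3 := Int.floor_le v
    have a4 := Int.lt_floor_add_one v
    constructor <;> linarith
  have h3 := (Rat.cast_le (K := ℝ)).2 h2
  push_cast at h3
  exact h3

/-- the number of `n` in a block with two divisibility conditions -/
lemma count2 (y N a b e e' : ℕ) (he : 1 ≤ e) (he' : 1 ≤ e') :
    |(((Ioc y (y + N)).filter (fun n => e ∣ n + a ∧ e' ∣ n + b)).card : ℝ) -
      N * (Fh ((a : ℤ) - b) (Nat.gcd e e') / (e * e'))| ≤ 1 := by
  set g := Nat.gcd e e' with hg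
  have hg0 : 0 < g := Nat.gcd_pos_of_pos_left _ he
  by_cases h : (g : ℤ) ∣ (a : ℤ) - b
  · -- a common solution
    have hge : g ∣ e := Nat.gcd_dvd_left _ _
    have hge' : g ∣ e' := Nat.gcd_dvd_right _ _
    have hab : (e - 1) * a ≡ (e' - 1) * b [MOD g] := by
      rw [Nat.modEq_iff_dvd]
      push_cast [Nat.cast_sub he, Nat.cast_sub he']
      have h1 : (g : ℤ) ∣ e := by exact_mod_cast hge
      have h2 : (g : ℤ) ∣ e' := by exact_mod_cast hge'
      have h3 : ((e' : ℤ) - 1) * b - ((e : ℤ) - 1) * a = e' * b - e * a + (a - b) := by ring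
      rw [h3]
      exact dvd_add (dvd_sub (h2.mul_right _) (h1.mul_right _)) h
    obtain ⟨r, hr1, hr2⟩ := Nat.chineseRemainder' hab
    have hset : (Ioc y (y + N)).filter (fun n => e ∣ n + a ∧ e' ∣ n + b) =
        (Ioc y (y + N)).filter (fun n => n ≡ r [MOD Nat.lcm e e']) := by
      refine filter_congr fun n _ => ?_
      have key : ∀ (m s k : ℕ), 1 ≤ m → k ≡ (m - 1) * s [MOD m] →
          (m ∣ n + s ↔ (m : ℤ) ∣ (k : ℤ) - n) := by
        intro m s k hm hk
        rw [Nat.modEq_iff_dvd] at hk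
        push_cast [Nat.cast_sub hm] at hk
        have e1 : ((m : ℤ) - 1) * s - k = m * s - (s + k) := by ring
        rw [e1] at hk
        have e2 : (m : ℤ) ∣ s + k := (dvd_sub_right (dvd_mul_right _ _)).1 hk
        have e3 : (m ∣ n + s) ↔ (m : ℤ) ∣ (n : ℤ) + s := by exact_mod_cast Iff.rfl
        rw [e3]
        constructor
        · intro h5
          have := dvd_sub e2 h5
          have e4 : ((s : ℤ) + k) - (n + s) = k - n := by ring
          rwa [e4] at this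
        · intro h5
          have := dvd_sub e2 h5
          have e4 : ((s : ℤ) + k) - (k - n) = n + s := by ring
          rwa [e4] at this
      rw [key e a r he hr1, key e' b r he' hr2, Nat.modEq_iff_dvd]
      constructor
      · rintro ⟨h1, h2⟩
        exact Int.natCast_dvd.2 (Nat.lcm_dvd (Int.natCast_dvd.1 h1) (Int.natCast_dvd.1 h2))
      · intro h1
        have h2 : ((e : ℕ) : ℤ) ∣ ((Nat.lcm e e' : ℕ) : ℤ) := by
          exact_mod_cast Nat.dvd_lcm_left e e'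
        have h3 : ((e' : ℕ) : ℤ) ∣ ((Nat.lcm e e' : ℕ) : ℤ) := by
          exact_mod_cast Nat.dvd_lcm_right e e'
        exact ⟨h2.trans h1, h3.trans h1⟩
    have hval : (N : ℝ) * (Fh ((a : ℤ) - b) g / (e * e')) = (N : ℝ) / (Nat.lcm e e' : ℕ) := by
      unfold Fh
      rw [if_pos h]
      have h1 : (g : ℝ) * (Nat.lcm e e' : ℕ) = e * e' := by
        exact_mod_cast Nat.gcd_mul_lcm e e'
      have h2 : (0 : ℝ) < g := by exact_mod_cast hg0
      have h3 : (0 : ℝ) < (Nat.lcm e e' : ℕ) := by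
        exact_mod_cast Nat.lcm_pos he he'
      rw [← h1]
      field_simp
    rw [hset, hval]
    exact card_class y N _ r (Nat.lcm_pos he he')
  · have hset : (Ioc y (y + N)).filter (fun n => e ∣ n + a ∧ e' ∣ n + b) = ∅ := by
      refine filter_eq_empty_iff.2 fun n _ hn => h ?_
      have h1 : (g : ℤ) ∣ (n : ℤ) + a := by exact_mod_cast (Nat.gcd_dvd_left e e').trans hn.1
      have h2 : (g : ℤ) ∣ (n : ℤ) + b := by exact_mod_cast (Nat.gcd_dvd_right e e').trans hn.2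
      have h3 := dvd_sub h1 h2
      have e4 : ((n : ℤ) + a) - (n + b) = a - b := by ring
      rwa [e4] at h3
    unfold Fh
    rw [hset, if_neg h]
    simp

/-- the mean square of the model -/
theorem S2_bound (R H y N : ℕ) (c : ℕ → ℝ) (W : ℝ) (hW : ∀ e ∈ Icc 1 R, |wt R e| ≤ W) :
    |∑ n ∈ Ioc y (y + N), (∑ b ∈ Icc 1 H, c b * GR R (n + b)) ^ 2 - N * QF R H c| ≤
      (∑ b ∈ Icc 1 H, |c b|) ^ 2 * (W * R) ^ 2 := by
  set K : ℕ → ℕ → ℕ → ℕ → ℝ := fun a b e e' =>
    (((Ioc y (y + N)).filter (fun n => e ∣ n + a ∧ e' ∣ n + b)).card : ℝ) with hK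
  have h1 : ∑ n ∈ Ioc y (y + N), (∑ b ∈ Icc 1 H, c b * GR R (n + b)) ^ 2 =
      ∑ a ∈ Icc 1 H, ∑ b ∈ Icc 1 H, ∑ e ∈ Icc 1 R, ∑ e' ∈ Icc 1 R,
        c a * c b * (wt R e * wt R e') * K a b e e' := by
    have e1 : ∀ n ∈ Ioc y (y + N), (∑ b ∈ Icc 1 H, c b * GR R (n + b)) ^ 2 =
        ∑ a ∈ Icc 1 H, ∑ b ∈ Icc 1 H, ∑ e ∈ Icc 1 R, ∑ e' ∈ Icc 1 R,
          c a * c b * (wt R e * wt R e') * (if e ∣ n + a ∧ e' ∣ n + b then 1 else 0) := by
      intro n _
      rw [sq, sum_mul_sum]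
      refine sum_congr rfl fun a _ => sum_congr rfl fun b _ => ?_
      unfold GR
      rw [mul_mul_mul_comm, sum_mul_sum, mul_sum]
      refine sum_congr rfl fun e _ => ?_
      rw [mul_sum]
      refine sum_congr rfl fun e' _ => ?_
      by_cases h1 : e ∣ n + a
      · by_cases h2 : e' ∣ n + b
        · rw [if_pos h1, if_pos h2, if_pos ⟨h1, h2⟩]; ring
        · rw [if_pos h1, if_neg h2, if_neg (fun h => h2 h.2)]; ring
      · rw [if_neg h1, if_neg (show ¬ (e ∣ n + a ∧ e' ∣ n + b) from fun h => h1 h.1)]; ring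
    rw [sum_congr rfl e1, sum_comm]
    refine sum_congr rfl fun a _ => ?_
    rw [sum_comm]
    refine sum_congr rfl fun b _ => ?_
    rw [sum_comm]
    refine sum_congr rfl fun e _ => ?_
    rw [sum_comm]
    refine sum_congr rfl fun e' _ => ?_
    rw [← mul_sum]
    congr 1
    rw [hK, ← sum_filter, sum_const, nsmul_eq_mul, mul_one]
  have h2 : (N : ℝ) * QF R H c = ∑ a ∈ Icc 1 H, ∑ b ∈ Icc 1 H, ∑ e ∈ Icc 1 R, ∑ e' ∈ Icc 1 R,
      c a * c b * (wt R e * wt R e') * (N * (Fh ((a : ℤ) - b) (Nat.gcd e e') / (e * e'))) := by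
    unfold QF
    rw [mul_sum]
    refine sum_congr rfl fun a _ => ?_
    rw [mul_sum]
    refine sum_congr rfl fun b _ => ?_
    rw [← gram, mul_sum, mul_sum]
    refine sum_congr rfl fun e _ => ?_
    rw [mul_sum, mul_sum]
    refine sum_congr rfl fun e' _ => ?_
    ring
  rw [h1, h2, ← sum_sub_distrib]
  have h3 : (∑ b ∈ Icc 1 H, |c b|) ^ 2 * (W * R) ^ 2 = ∑ a ∈ Icc 1 H, ∑ b ∈ Icc 1 H,
      ∑ _e ∈ Icc 1 R, ∑ _e' ∈ Icc 1 R, |c a| * |c b| * (W * W) := by
    simp only [sum_const, Nat.card_Icc, add_tsub_cancel_right, nsmul_eq_mul]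
    rw [sq, sum_mul_sum, sum_mul]
    refine sum_congr rfl fun a _ => ?_
    rw [sum_mul]
    refine sum_congr rfl fun b _ => ?_
    ring
  rw [h3]
  refine (abs_sum_le_sum_abs _ _).trans (sum_le_sum fun a _ => ?_)
  rw [← sum_sub_distrib]
  refine (abs_sum_le_sum_abs _ _).trans (sum_le_sum fun b _ => ?_)
  rw [← sum_sub_distrib]
  refine (abs_sum_le_sum_abs _ _).trans (sum_le_sum fun e he => ?_)
  rw [← sum_sub_distrib]
  refine (abs_sum_le_sum_abs _ _).trans (sum_le_sum fun e' he' => ?_)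
  rw [← mul_sub, abs_mul, abs_mul, abs_mul, abs_mul]
  have hc := count2 y N a b e e' (mem_Icc.1 he).1 (mem_Icc.1 he').1
  have hW0 : 0 ≤ W := (abs_nonneg _).trans (hW e he)
  have hw : |wt R e| * |wt R e'| ≤ W * W :=
    mul_le_mul (hW e he) (hW e' he') (abs_nonneg _) hW0
  calc |c a| * |c b| * (|wt R e| * |wt R e'|) *
        |K a b e e' - N * (Fh ((a : ℤ) - b) (Nat.gcd e e') / (e * e'))|
      ≤ |c a| * |c b| * (|wt R e| * |wt R e'|) * 1 :=
        mul_le_mul_of_nonneg_left hc (by positivity)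
    _ ≤ |c a| * |c b| * (W * W) := by
        rw [mul_one]
        exact mul_le_mul_of_nonneg_left hw (by positivity)

/-- the quadratic form is nonnegative -/
theorem QF_nonneg (R H : ℕ) (c : ℕ → ℝ) : 0 ≤ QF R H c := by
  by_contra hneg
  rw [not_le] at hneg
  set W : ℝ := ∑ e ∈ Icc 1 R, |wt R e| with hWdef
  have hW : ∀ e ∈ Icc 1 R, |wt R e| ≤ W := fun e he =>
    single_le_sum (f := fun e => |wt R e|) (fun _ _ => abs_nonneg _) he
  set E : ℝ := (∑ b ∈ Icc 1 H, |c b|) ^ 2 * (W * R) ^ 2 with hE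
  obtain ⟨N, hN⟩ := exists_nat_gt (E / (-QF R H c))
  have h1 := S2_bound R H 0 N c W hW
  have h2 : 0 ≤ ∑ n ∈ Ioc 0 (0 + N), (∑ b ∈ Icc 1 H, c b * GR R (n + b)) ^ 2 :=
    sum_nonneg fun _ _ => sq_nonneg _
  have h3 := (abs_le.1 h1).2
  have h4 : -((N : ℝ) * QF R H c) ≤ E := by linarith
  rw [div_lt_iff₀ (by linarith)] at hN
  linarith

/-- the number of the primes in a class, in a shifted block -/
lemma count1 (H y N a b e : ℕ) (he : 1 ≤ e) (ha : a ≤ H) :
    ∃ ρ : ℕ, Nat.Coprime ρ e ∧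
      |(((Ioc y (y + N)).filter (fun n => (n + a).Prime ∧ e ∣ n + b)).card : ℝ) -
        (if Int.gcd (e : ℤ) ((a : ℤ) - b) = 1 then ((piN (y + N) : ℝ) - piN y) / Nat.totient e
          else 0)| ≤ |Er (y + N) e ρ| + |Er y e ρ| + (H + 1) := by
  by_cases hg : Int.gcd (e : ℤ) ((a : ℤ) - b) = 1
  · set ρ : ℕ := a + (e - 1) * b with hρ
    have hρe : ((ρ : ℤ)) = (a - b) + e * b := by
      rw [hρ]
      push_cast [Nat.cast_sub he]
      ring
    have hcop : Nat.Coprime ρ e := by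
      rw [← Nat.isCoprime_iff_coprime, hρe]
      rw [← Int.isCoprime_iff_gcd_eq_one] at hg
      have := hg.symm
      exact (IsCoprime.add_mul_left_left_iff).2 this
    refine ⟨ρ, hcop, ?_⟩
    rw [if_pos hg]
    -- the set in terms of the primes
    set cnt : ℕ → ℕ := fun u => ((Icc 1 u).filter (fun p : ℕ => p.Prime ∧ p ≡ ρ [MOD e])).card
      with hcnt
    have hmono : ∀ u v : ℕ, u ≤ v → cnt u ≤ cnt v ∧ cnt v ≤ cnt u + (v - u) := by
      intro u v huv
      constructor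
      · exact card_le_card (filter_subset_filter _ (Icc_subset_Icc_right huv))
      · have h1 : (Icc 1 v).filter (fun p : ℕ => p.Prime ∧ p ≡ ρ [MOD e]) ⊆
            (Icc 1 u).filter (fun p : ℕ => p.Prime ∧ p ≡ ρ [MOD e]) ∪ Ioc u v := by
          intro p hp
          rw [mem_filter, mem_Icc] at hp
          rw [mem_union, mem_filter, mem_Icc, mem_Ioc]
          by_cases h2 : p ≤ u
          · exact Or.inl ⟨⟨hp.1.1, h2⟩, hp.2⟩
          · exact Or.inr ⟨by omega, hp.1.2⟩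
        have h2 := (card_le_card h1).trans (card_union_le _ _)
        rwa [Nat.card_Ioc] at h2
    have hK : (((Ioc y (y + N)).filter (fun n => (n + a).Prime ∧ e ∣ n + b)).card : ℝ) =
        (cnt (y + N + a) : ℝ) - cnt (y + a) := by
      have h1 : ((Ioc y (y + N)).filter (fun n => (n + a).Prime ∧ e ∣ n + b)).card + cnt (y + a) =
          cnt (y + N + a) := by
        have h2 : ((Ioc y (y + N)).filter (fun n => (n + a).Prime ∧ e ∣ n + b)).card =
            ((Ioc (y + a) (y + N + a)).filter (fun p : ℕ => p.Prime ∧ p ≡ ρ [MOD e])).card := by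
          refine card_bij (fun n _ => n + a) ?_ ?_ ?_
          · intro n hn
            rw [mem_filter, mem_Ioc] at hn
            rw [mem_filter, mem_Ioc]
            refine ⟨⟨by omega, by omega⟩, hn.2.1, ?_⟩
            rw [Nat.modEq_iff_dvd, hρe]
            push_cast
            have h3 : (e : ℤ) ∣ (n : ℤ) + b := by exact_mod_cast hn.2.2
            have e4 : ((a : ℤ) - b + e * b) - (n + a) = e * b - (n + b) := by ring
            rw [e4]
            exact dvd_sub (dvd_mul_right _ _) h3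
          · intro n _ m _ h
            omega
          · intro p hp
            rw [mem_filter, mem_Ioc] at hp
            refine ⟨p - a, ?_, by omega⟩
            have hpa : p - a + a = p := by omega
            rw [mem_filter, mem_Ioc, hpa]
            refine ⟨⟨by omega, by omega⟩, hp.2.1, ?_⟩
            have h3 := hp.2.2
            rw [Nat.modEq_iff_dvd, hρe] at h3
            have h4 : (e : ℤ) ∣ ((p - a : ℕ) : ℤ) + b := by
              rw [Nat.cast_sub (by omega : a ≤ p)]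
              have e4 : ((p : ℤ) - a) + b = e * b - ((a : ℤ) - b + e * b - p) := by ring
              rw [e4]
              exact dvd_sub (dvd_mul_right _ _) h3
            exact_mod_cast h4
        rw [h2, hcnt]
        rw [← card_union_of_disjoint]
        · congr 1
          ext p
          simp only [mem_union, mem_filter, mem_Ioc, mem_Icc]
          constructor
          · rintro (⟨⟨h3, h4⟩, h5⟩ | ⟨⟨h3, h4⟩, h5⟩)
            · exact ⟨⟨by omega, h4⟩, h5⟩
            · exact ⟨⟨h3, by omega⟩, h5⟩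
          · rintro ⟨⟨h3, h4⟩, h5⟩
            by_cases h6 : p ≤ y + a
            · exact Or.inr ⟨⟨h3, h6⟩, h5⟩
            · exact Or.inl ⟨⟨by omega, h4⟩, h5⟩
        · rw [disjoint_left]
          intro p hp hp'
          rw [mem_filter, mem_Ioc] at hp
          rw [mem_filter, mem_Icc] at hp'
          omega
      have h3 : ((((Ioc y (y + N)).filter (fun n => (n + a).Prime ∧ e ∣ n + b)).card + cnt (y + a) :
          ℕ) : ℝ) = (cnt (y + N + a) : ℝ) := by rw [h1]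
      push_cast at h3
      linarith
    have hA := hmono (y + N) (y + N + a) (by omega)
    have hB := hmono y (y + a) (by omega)
    have hA1 : (cnt (y + N) : ℝ) ≤ cnt (y + N + a) := by exact_mod_cast hA.1
    have hA2 : (cnt (y + N + a) : ℝ) ≤ cnt (y + N) + H := by
      have : cnt (y + N + a) ≤ cnt (y + N) + H := by omega
      exact_mod_cast this
    have hB1 : (cnt y : ℝ) ≤ cnt (y + a) := by exact_mod_cast hB.1
    have hB2 : (cnt (y + a) : ℝ) ≤ cnt y + H := by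
      have : cnt (y + a) ≤ cnt y + H := by omega
      exact_mod_cast this
    have hE1 : Er (y + N) e ρ = (cnt (y + N) : ℝ) - piN (y + N) / Nat.totient e := rfl
    have hE2 : Er y e ρ = (cnt y : ℝ) - piN y / Nat.totient e := rfl
    rw [hK, sub_div]
    have h5 := abs_le.1 (le_refl |Er (y + N) e ρ|)
    have h6 := abs_le.1 (le_refl |Er y e ρ|)
    rw [abs_le]
    constructor
    · linarith [h5.1, h6.2]
    · linarith [h5.2, h6.1]
  · refine ⟨1, Nat.coprime_one_left _, ?_⟩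
    rw [if_neg hg, sub_zero, Nat.abs_cast]
    have hle : ((Ioc y (y + N)).filter (fun n => (n + a).Prime ∧ e ∣ n + b)).card ≤ 1 := by
      rw [card_le_one]
      have key : ∀ n ∈ (Ioc y (y + N)).filter (fun n => (n + a).Prime ∧ e ∣ n + b),
          n + a = Int.gcd (e : ℤ) ((a : ℤ) - b) := by
        intro n hn
        rw [mem_filter] at hn
        have h1 : ((Int.gcd (e : ℤ) ((a : ℤ) - b) : ℕ) : ℤ) ∣ ((n + a : ℕ) : ℤ) := by
          have h2 : ((Int.gcd (e : ℤ) ((a : ℤ) - b) : ℕ) : ℤ) ∣ e := Int.gcd_dvd_left _ _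
          have h3 : ((Int.gcd (e : ℤ) ((a : ℤ) - b) : ℕ) : ℤ) ∣ (a : ℤ) - b := Int.gcd_dvd_right _ _
          have h4 : (e : ℤ) ∣ (n : ℤ) + b := by exact_mod_cast hn.2.2
          have e4 : ((n + a : ℕ) : ℤ) = (n + b) + (a - b) := by push_cast; ring
          rw [e4]
          exact dvd_add (h2.trans h4) h3
        have h5 : Int.gcd (e : ℤ) ((a : ℤ) - b) ∣ n + a := by exact_mod_cast h1
        rcases (Nat.dvd_prime hn.2.1).1 h5 with h6 | h6
        · exact absurd h6 hg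
        · exact h6.symm
      intro n hn m hm
      have h1 := key n hn
      have h2 := key m hm
      omega
    have h1 : (((Ioc y (y + N)).filter (fun n => (n + a).Prime ∧ e ∣ n + b)).card : ℝ) ≤ 1 := by
      exact_mod_cast hle
    have h2 : (0 : ℝ) ≤ H := Nat.cast_nonneg _
    linarith [abs_nonneg (Er (y + N) e 1), abs_nonneg (Er y e 1)]

/-- the mixed mean value -/
theorem S1_bound (R H y N : ℕ) (c : ℕ → ℝ) (W B : ℝ) (hW : ∀ e ∈ Icc 1 R, |wt R e| ≤ W)
    (hW0 : 0 ≤ W)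
    (hB : ∀ ρ : ℕ → ℕ, (∀ e, 1 ≤ e → Nat.Coprime (ρ e) e) →
      ∑ e ∈ Icc 1 R, |Er (y + N) e (ρ e)| ≤ B ∧ ∑ e ∈ Icc 1 R, |Er y e (ρ e)| ≤ B) :
    |∑ n ∈ Ioc y (y + N), (∑ a ∈ Icc 1 H, c a * pr (n + a)) * (∑ b ∈ Icc 1 H, c b * GR R (n + b)) -
      ((piN (y + N) : ℝ) - piN y) * QF R H c| ≤
      (∑ b ∈ Icc 1 H, |c b|) ^ 2 * (W * (2 * B + (H + 1) * R)) := by
  set K : ℕ → ℕ → ℕ → ℝ := fun a b e =>
    (((Ioc y (y + N)).filter (fun n => (n + a).Prime ∧ e ∣ n + b)).card : ℝ) with hK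
  set D : ℝ := (piN (y + N) : ℝ) - piN y with hD
  have h1 : ∑ n ∈ Ioc y (y + N), (∑ a ∈ Icc 1 H, c a * pr (n + a)) *
      (∑ b ∈ Icc 1 H, c b * GR R (n + b)) =
      ∑ a ∈ Icc 1 H, ∑ b ∈ Icc 1 H, ∑ e ∈ Icc 1 R, c a * c b * wt R e * K a b e := by
    have e1 : ∀ n ∈ Ioc y (y + N), (∑ a ∈ Icc 1 H, c a * pr (n + a)) *
        (∑ b ∈ Icc 1 H, c b * GR R (n + b)) =
        ∑ a ∈ Icc 1 H, ∑ b ∈ Icc 1 H, ∑ e ∈ Icc 1 R,
          c a * c b * wt R e * (if (n + a).Prime ∧ e ∣ n + b then 1 else 0) := by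
      intro n _
      rw [sum_mul_sum]
      refine sum_congr rfl fun a _ => sum_congr rfl fun b _ => ?_
      unfold GR
      rw [mul_mul_mul_comm, mul_sum, mul_sum]
      refine sum_congr rfl fun e _ => ?_
      unfold pr
      by_cases h1 : (n + a).Prime
      · by_cases h2 : e ∣ n + b
        · rw [if_pos h1, if_pos h2, if_pos ⟨h1, h2⟩]; ring
        · rw [if_pos h1, if_neg h2, if_neg (fun h => h2 h.2)]; ring
      · rw [if_neg h1, if_neg (show ¬ ((n + a).Prime ∧ e ∣ n + b) from fun h => h1 h.1)]; ring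
    rw [sum_congr rfl e1, sum_comm]
    refine sum_congr rfl fun a _ => ?_
    rw [sum_comm]
    refine sum_congr rfl fun b _ => ?_
    rw [sum_comm]
    refine sum_congr rfl fun e _ => ?_
    rw [← mul_sum]
    congr 1
    rw [hK, ← sum_filter, sum_const, nsmul_eq_mul, mul_one]
  have h2 : D * QF R H c = ∑ a ∈ Icc 1 H, ∑ b ∈ Icc 1 H, ∑ e ∈ Icc 1 R,
      c a * c b * wt R e * (if Int.gcd (e : ℤ) ((a : ℤ) - b) = 1 then D / Nat.totient e else 0) := by
    unfold QF
    rw [mul_sum]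
    refine sum_congr rfl fun a _ => ?_
    rw [mul_sum]
    refine sum_congr rfl fun b _ => ?_
    rw [← mixed, sum_filter, mul_sum, mul_sum]
    refine sum_congr rfl fun e _ => ?_
    split_ifs <;> ring
  rw [h1, h2, ← sum_sub_distrib]
  have h3 : (∑ b ∈ Icc 1 H, |c b|) ^ 2 * (W * (2 * B + (H + 1) * R)) =
      ∑ a ∈ Icc 1 H, ∑ b ∈ Icc 1 H, |c a| * |c b| * (W * (2 * B + (H + 1) * R)) := by
    rw [sq, sum_mul_sum, sum_mul]
    refine sum_congr rfl fun a _ => ?_
    rw [sum_mul]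
  rw [h3]
  refine (abs_sum_le_sum_abs _ _).trans (sum_le_sum fun a ha => ?_)
  rw [← sum_sub_distrib]
  refine (abs_sum_le_sum_abs _ _).trans (sum_le_sum fun b _ => ?_)
  rw [← sum_sub_distrib]
  have hex : ∀ e : ℕ, ∃ ρ : ℕ, 1 ≤ e → (Nat.Coprime ρ e ∧
      |K a b e - (if Int.gcd (e : ℤ) ((a : ℤ) - b) = 1 then D / Nat.totient e else 0)| ≤
        |Er (y + N) e ρ| + |Er y e ρ| + (H + 1)) := by
    intro e
    by_cases he : 1 ≤ e
    · obtain ⟨ρ, h4, h5⟩ := count1 H y N a b e he (mem_Icc.1 ha).2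
      exact ⟨ρ, fun _ => ⟨h4, h5⟩⟩
    · exact ⟨0, fun h => absurd h he⟩
  choose ρ hρ using hex
  obtain ⟨hB1, hB2⟩ := hB ρ (fun e he => (hρ e he).1)
  refine (abs_sum_le_sum_abs _ _).trans ?_
  calc ∑ e ∈ Icc 1 R, |c a * c b * wt R e * K a b e - c a * c b * wt R e *
        (if Int.gcd (e : ℤ) ((a : ℤ) - b) = 1 then D / Nat.totient e else 0)|
      ≤ ∑ e ∈ Icc 1 R, |c a| * |c b| * (W * (|Er (y + N) e (ρ e)| + |Er y e (ρ e)| + (H + 1))) := by
        refine sum_le_sum fun e he => ?_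
        rw [← mul_sub, abs_mul, abs_mul, abs_mul, mul_assoc (|c a| * |c b|)]
        refine mul_le_mul_of_nonneg_left ?_ (by positivity)
        exact mul_le_mul (hW e he) (hρ e (mem_Icc.1 he).1).2 (abs_nonneg _) hW0
    _ = |c a| * |c b| * (W * (∑ e ∈ Icc 1 R, |Er (y + N) e (ρ e)| + ∑ e ∈ Icc 1 R, |Er y e (ρ e)| +
          (H + 1) * R)) := by
        rw [← mul_sum, ← mul_sum, sum_add_distrib, sum_add_distrib, sum_const, Nat.card_Icc,
          nsmul_eq_mul, add_tsub_cancel_right, mul_comm (R : ℝ)]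
    _ ≤ |c a| * |c b| * (W * (2 * B + (H + 1) * R)) := by
        refine mul_le_mul_of_nonneg_left ?_ (by positivity)
        refine mul_le_mul_of_nonneg_left ?_ hW0
        linarith

/-- the inequality in a block -/
theorem block (R H y N : ℕ) (c : ℕ → ℝ) (W B lam : ℝ) (hW : ∀ e ∈ Icc 1 R, |wt R e| ≤ W)
    (hW0 : 0 ≤ W) (hlam : 0 ≤ lam)
    (hB : ∀ ρ : ℕ → ℕ, (∀ e, 1 ≤ e → Nat.Coprime (ρ e) e) →
      ∑ e ∈ Icc 1 R, |Er (y + N) e (ρ e)| ≤ B ∧ ∑ e ∈ Icc 1 R, |Er y e (ρ e)| ≤ B) :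
    (2 * lam * ((piN (y + N) : ℝ) - piN y) - lam ^ 2 * N) * QF R H c -
      (∑ b ∈ Icc 1 H, |c b|) ^ 2 * (2 * lam * (W * (2 * B + (H + 1) * R)) + lam ^ 2 * (W * R) ^ 2) ≤
    ∑ n ∈ Ioc y (y + N), (∑ a ∈ Icc 1 H, c a * pr (n + a)) ^ 2 := by
  have h1 := (abs_le.1 (S1_bound R H y N c W B hW hW0 hB)).1
  have h2 := (abs_le.1 (S2_bound R H y N c W hW)).2
  set S1 := ∑ n ∈ Ioc y (y + N), (∑ a ∈ Icc 1 H, c a * pr (n + a)) *
    (∑ b ∈ Icc 1 H, c b * GR R (n + b)) with hS1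
  set S2 := ∑ n ∈ Ioc y (y + N), (∑ b ∈ Icc 1 H, c b * GR R (n + b)) ^ 2 with hS2
  have h3 : 0 ≤ ∑ n ∈ Ioc y (y + N), ((∑ a ∈ Icc 1 H, c a * pr (n + a)) -
      lam * (∑ b ∈ Icc 1 H, c b * GR R (n + b))) ^ 2 := sum_nonneg fun _ _ => sq_nonneg _
  have h4 : ∑ n ∈ Ioc y (y + N), ((∑ a ∈ Icc 1 H, c a * pr (n + a)) -
      lam * (∑ b ∈ Icc 1 H, c b * GR R (n + b))) ^ 2 =
      ∑ n ∈ Ioc y (y + N), (∑ a ∈ Icc 1 H, c a * pr (n + a)) ^ 2 - 2 * lam * S1 + lam ^ 2 * S2 := by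
    rw [hS1, hS2, mul_sum, mul_sum, ← sum_sub_distrib, ← sum_add_distrib]
    refine sum_congr rfl fun n _ => ?_
    ring
  rw [h4] at h3
  have h5 : lam ^ 2 * S2 ≤ lam ^ 2 * (N * QF R H c + (∑ b ∈ Icc 1 H, |c b|) ^ 2 * (W * R) ^ 2) :=
    mul_le_mul_of_nonneg_left (by linarith) (sq_nonneg _)
  have h6 : 2 * lam * (((piN (y + N) : ℝ) - piN y) * QF R H c -
      (∑ b ∈ Icc 1 H, |c b|) ^ 2 * (W * (2 * B + (H + 1) * R))) ≤ 2 * lam * S1 :=
    mul_le_mul_of_nonneg_left (by linarith) (by positivity)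
  nlinarith [h3, h5, h6]

end Pool.Agent.T9h56.HL
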