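import Mathlib
import Pool.Agent.T9h56.HL.Model
import Pool.Agent.H442R2.KF.Pri
import Pool.Agent.TH891.SG.Pr2

/-! The singular series as a sum of Ramanujan sums. -/

set_option autoImplicit false

open Finset Filter Topology

namespace Pool.Agent.T9h56.HL

open Pool.Agent.H442R2.KF

open Classical in
/-- the singular series of the pair `(0, k)` -/
noncomputable def Sing (k : ℕ) : ℝ := if Even k then Pool.Agent.TH891.SG.SP k else 0

/-- the terms of the singular series -/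
noncomputable def sterm (k : ℤ) (q : ℕ) : ℝ := ram q k * mf q ^ 2

lemma ram_mul (k : ℤ) (a b : ℕ) (h : Nat.Coprime a b) : ram (a * b) k = ram a k * ram b k := by
  set I : ArithmeticFunction ℝ := ⟨fun n => if (n : ℤ) ∣ k then (n : ℝ) else 0, by simp⟩ with hI
  have hIa : ∀ n : ℕ, I n = if (n : ℤ) ∣ k then (n : ℝ) else 0 := fun n => rfl
  have hIm : I.IsMultiplicative := by
    refine ⟨by rw [hIa]; simp, fun {m n} h => ?_⟩
    rw [hIa, hIa, hIa]
    simp only [dvd_mul_iff m n k h]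
    by_cases h1 : (m : ℤ) ∣ k
    · by_cases h2 : (n : ℤ) ∣ k
      · rw [if_pos ⟨h1, h2⟩, if_pos h1, if_pos h2]
        push_cast
        ring
      · rw [if_neg (fun h => h2 h.2), if_neg h2, mul_zero]
    · rw [if_neg (fun h => h1 h.1), if_neg h1, zero_mul]
  have hμ : ((ArithmeticFunction.moebius : ArithmeticFunction ℤ) : ArithmeticFunction ℝ).IsMultiplicative :=
    ArithmeticFunction.isMultiplicative_moebius.intCast
  have hr : ∀ n : ℕ, ram n k =
      (((ArithmeticFunction.moebius : ArithmeticFunction ℤ) : ArithmeticFunction ℝ) * I) n := by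
    intro n
    rw [ArithmeticFunction.mul_apply, Nat.sum_divisorsAntidiagonal'
      (fun a b => ((ArithmeticFunction.moebius : ArithmeticFunction ℤ) : ArithmeticFunction ℝ) a * I b)]
    unfold ram
    rw [sum_filter]
    refine sum_congr rfl fun d _ => ?_
    rw [hIa]
    split_ifs <;> simp
  rw [hr, hr, hr]
  exact (hμ.mul hIm).map_mul_of_coprime h

lemma ram_prime (k : ℤ) (p : ℕ) (hp : p.Prime) :
    ram p k = -1 + if (p : ℤ) ∣ k then (p : ℝ) else 0 := by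
  unfold ram
  rw [sum_filter, Nat.Prime.sum_divisors hp]
  simp only [Nat.div_one, Nat.div_self hp.pos, ArithmeticFunction.moebius_apply_prime hp,
    ArithmeticFunction.moebius_apply_one]
  rw [if_pos (by simp : ((1 : ℕ) : ℤ) ∣ k)]
  split_ifs <;> push_cast <;> ring

lemma abs_ram_le (q k : ℕ) (hk : 1 ≤ k) : |ram q k| ≤ (k : ℝ) ^ 2 := by
  refine (TaskN4.abs_ram_le q k).trans ?_
  have h1 : q.divisors.filter (fun d : ℕ => (d : ℤ) ∣ (k : ℤ)) ⊆ Icc 1 k := by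
    intro d hd
    rw [mem_filter, Nat.mem_divisors] at hd
    have h2 : d ∣ k := by exact_mod_cast hd.2
    exact mem_Icc.2 ⟨Nat.pos_of_dvd_of_pos h2 hk, Nat.le_of_dvd hk h2⟩
  calc ∑ d ∈ q.divisors.filter (fun d : ℕ => (d : ℤ) ∣ (k : ℤ)), (d : ℝ)
      ≤ ∑ d ∈ Icc 1 k, (d : ℝ) :=
        sum_le_sum_of_subset_of_nonneg h1 fun _ _ _ => Nat.cast_nonneg _
    _ ≤ ∑ _d ∈ Icc 1 k, (k : ℝ) := sum_le_sum fun d hd => by exact_mod_cast (mem_Icc.1 hd).2
    _ = (k : ℝ) ^ 2 := by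
        rw [sum_const, Nat.card_Icc, nsmul_eq_mul]
        simp
        ring

lemma mf_sq_le : ∃ C : ℝ, 0 < C ∧ ∀ q : ℕ, 1 ≤ q → mf q ^ 2 ≤ C * (q : ℝ) ^ (-(3 / 2) : ℝ) := by
  obtain ⟨C, hC, h⟩ := TaskQ.inv_totient_le
  refine ⟨C ^ 2, by positivity, fun q hq => ?_⟩
  have hq0 : (0 : ℝ) < q := by exact_mod_cast hq
  have h1 := h q hq
  have h2 : |mf q| ≤ 1 / Nat.totient q := by
    unfold mf
    rw [abs_div, Nat.abs_cast]
    refine div_le_div_of_nonneg_right ?_ (Nat.cast_nonneg _)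
    exact_mod_cast ArithmeticFunction.abs_moebius_le_one (n := q)
  rw [← sq_abs]
  calc |mf q| ^ 2 ≤ (C * (q : ℝ) ^ (1 / 4 : ℝ) / q) ^ 2 := by
        refine pow_le_pow_left₀ (abs_nonneg _) (h2.trans h1) 2
    _ = C ^ 2 * (((q : ℝ) ^ (1 / 4 : ℝ)) ^ 2 / q ^ 2) := by ring
    _ = C ^ 2 * (q : ℝ) ^ (-(3 / 2) : ℝ) := by
        congr 1
        rw [← Real.rpow_natCast, ← Real.rpow_mul hq0.le, ← Real.rpow_natCast, ← Real.rpow_sub hq0]
        congr 1
        norm_num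

/-- the terms decay -/
lemma sterm_le : ∃ C : ℝ, 0 < C ∧ ∀ k q : ℕ, 1 ≤ k → 1 ≤ q →
    |sterm k q| ≤ C * (k : ℝ) ^ 2 * (q : ℝ) ^ (-(3 / 2) : ℝ) := by
  obtain ⟨C, hC, h⟩ := mf_sq_le
  refine ⟨C, hC, fun k q hk hq => ?_⟩
  unfold sterm
  rw [abs_mul, abs_of_nonneg (sq_nonneg (mf q))]
  calc |ram q k| * mf q ^ 2 ≤ (k : ℝ) ^ 2 * (C * (q : ℝ) ^ (-(3 / 2) : ℝ)) :=
        mul_le_mul (abs_ram_le q k hk) (h q hq) (sq_nonneg _) (by positivity)
    _ = _ := by ring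

lemma sterm_zero (k : ℤ) : sterm k 0 = 0 := by
  unfold sterm mf
  simp

lemma sterm_one (k : ℤ) : sterm k 1 = 1 := by
  unfold sterm mf ram
  rw [Nat.divisors_one, filter_singleton, if_pos (by simp : ((1 : ℕ) : ℤ) ∣ k)]
  simp

lemma sterm_summable (k : ℕ) (hk : 1 ≤ k) : Summable (fun q => ‖sterm k q‖) := by
  obtain ⟨C, hC, h⟩ := sterm_le
  have hs : Summable (fun q : ℕ => C * (k : ℝ) ^ 2 * (q : ℝ) ^ (-(3 / 2) : ℝ)) :=
    (Real.summable_nat_rpow.2 (by norm_num)).mul_left _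
  refine Summable.of_nonneg_of_le (fun _ => norm_nonneg _) (fun q => ?_) hs
  rcases Nat.eq_zero_or_pos q with rfl | hq
  · rw [sterm_zero, norm_zero]
    positivity
  · exact h k q hk hq

lemma sterm_pow (k : ℤ) (p : Nat.Primes) : ∑' e : ℕ, sterm k ((p : ℕ) ^ e) = 1 + sterm k p := by
  have h0 : ∀ e : ℕ, e ∉ range 2 → sterm k ((p : ℕ) ^ e) = 0 := by
    intro e he
    rw [mem_range, not_lt] at he
    unfold sterm mf
    have : ¬ Squarefree ((p : ℕ) ^ e) := by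
      intro hs
      have h1 := (Nat.squarefree_pow_iff p.2.ne_one (by omega)).1 hs
      omega
    rw [ArithmeticFunction.moebius_eq_zero_of_not_squarefree this]
    simp
  rw [tsum_eq_sum h0, sum_range_succ, sum_range_one, pow_zero, pow_one, sterm_one]

lemma sterm_prod (k : ℕ) (hk : 1 ≤ k) :
    HasProd (fun p : Nat.Primes => 1 + sterm k p) (∑' q, sterm k q) := by
  have h := EulerProduct.eulerProduct_hasProd (f := sterm k) (sterm_one _) (fun {m n} hmn => by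
      unfold sterm mf
      rw [ram_mul _ m n hmn, moebius_mul m n hmn, Nat.totient_mul hmn]
      push_cast
      rw [mul_div_mul_comm]
      ring) (sterm_summable k hk) (sterm_zero _)
  simpa only [sterm_pow] using h

lemma sterm_prime (k : ℕ) (p : ℕ) (hp : p.Prime) : sterm k p =
    (-1 + if p ∣ k then (p : ℝ) else 0) * (1 / ((p : ℝ) - 1)) ^ 2 := by
  unfold sterm mf
  rw [ram_prime _ p hp, ArithmeticFunction.moebius_apply_prime hp, Nat.totient_prime hp,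
    Nat.cast_sub hp.one_le]
  simp only [Int.natCast_dvd_natCast]
  push_cast
  ring

theorem tsum_sterm (k : ℕ) (hk : 1 ≤ k) : ∑' q, sterm k q = Sing k := by
  have h := sterm_prod k hk
  unfold Sing
  split_ifs with he
  · have hk2 : 2 ≤ k := by
      obtain ⟨j, rfl⟩ := he
      omega
    rw [← Pool.Agent.TH891.SG.CT_pair hk2 he]
    have h2 := Pool.Agent.H387R2.Uni.CT_hasProd {0, k}
    have hfun : (fun p : Nat.Primes => 1 + sterm k p) =
        fun p : Nat.Primes => Pool.Agent.H387R2.Uni.locT {0, k} p := by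
      funext p
      have hp := p.2
      have hcard : ({0, k} : Finset ℕ).card = 2 := card_pair (by omega)
      unfold Pool.Agent.H387R2.Uni.locT
      rw [hcard, Pool.Agent.TH891.SG.nuT_pair hp, sterm_prime k p hp]
      have hp2 : (2 : ℝ) ≤ (p : ℕ) := by exact_mod_cast hp.two_le
      have a0 : ((p : ℕ) : ℝ) ≠ 0 := by linarith
      have a1 : ((p : ℕ) : ℝ) - 1 ≠ 0 := by linarith
      have a3 : (1 - 1 / ((p : ℕ) : ℝ)) = (((p : ℕ) : ℝ) - 1) / (p : ℕ) := by field_simp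
      split_ifs with hd
      · rw [a3]
        push_cast
        rw [a3]
        field_simp
        ring
      · rw [a3]
        push_cast
        field_simp
        ring
    rw [hfun] at h
    exact h.unique h2
  · have h2 : (fun p : Nat.Primes => 1 + sterm k p) ⟨2, Nat.prime_two⟩ = 0 := by
      show 1 + sterm k 2 = 0
      rw [sterm_prime k 2 Nat.prime_two, if_neg (fun hd => he (even_iff_two_dvd.2 hd))]
      norm_num
    have h3 : Tendsto (fun s : Finset Nat.Primes => ∏ p ∈ s, (1 + sterm k p)) atTop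
        (𝓝 (∑' q, sterm k q)) := by
      simpa [HasProd] using h
    refine tendsto_nhds_unique h3 (tendsto_const_nhds.congr' ?_)
    filter_upwards [eventually_ge_atTop ({⟨2, Nat.prime_two⟩} : Finset Nat.Primes)] with s hs
    exact (prod_eq_zero (hs (mem_singleton_self _)) h2).symm

/-- the truncated singular series is close to the singular series -/
theorem SR_sub : ∃ C : ℝ, 0 < C ∧ ∀ R k : ℕ, 1 ≤ R → 1 ≤ k →
    |SR R k - Sing k| ≤ C * (k : ℝ) ^ 2 * (R : ℝ) ^ (-(1 / 4) : ℝ) := by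
  obtain ⟨C, hC, h⟩ := sterm_le
  have hz : Summable (fun q : ℕ => (q : ℝ) ^ (-(5 / 4) : ℝ)) :=
    Real.summable_nat_rpow.2 (by norm_num)
  set Z : ℝ := ∑' q : ℕ, (q : ℝ) ^ (-(5 / 4) : ℝ) with hZ
  have hZ0 : 0 ≤ Z := tsum_nonneg fun q => Real.rpow_nonneg (Nat.cast_nonneg q) _
  refine ⟨C * (Z + 1), by positivity, fun R k hR hk => ?_⟩
  have hs := sterm_summable k hk
  have hR0 : (0 : ℝ) < R := by exact_mod_cast hR
  have h1 : SR R k = ∑ q ∈ range (R + 1), sterm k q := by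
    unfold SR
    have : range (R + 1) = insert 0 (Icc 1 R) := by
      ext i
      simp only [mem_range, mem_insert, mem_Icc]
      omega
    rw [this, sum_insert (by simp), sterm_zero, zero_add]
    rfl
  have h2 : ∑ q ∈ range (R + 1), sterm k q + ∑' q, sterm k (q + (R + 1)) = ∑' q, sterm k q :=
    (hs.of_norm).sum_add_tsum_nat_add (R + 1)
  rw [← tsum_sterm k hk, ← h2, h1]
  have h3 : ∀ q : ℕ, ‖sterm k (q + (R + 1))‖ ≤
      C * (k : ℝ) ^ 2 * (R : ℝ) ^ (-(1 / 4) : ℝ) * ((q + (R + 1) : ℕ) : ℝ) ^ (-(5 / 4) : ℝ) := by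
    intro q
    have hq1 : 1 ≤ q + (R + 1) := by omega
    have hq0 : (0 : ℝ) < ((q + (R + 1) : ℕ) : ℝ) := by exact_mod_cast hq1
    refine (h k _ hk hq1).trans ?_
    have e1 : ((q + (R + 1) : ℕ) : ℝ) ^ (-(3 / 2) : ℝ) =
        ((q + (R + 1) : ℕ) : ℝ) ^ (-(1 / 4) : ℝ) * ((q + (R + 1) : ℕ) : ℝ) ^ (-(5 / 4) : ℝ) := by
      rw [← Real.rpow_add hq0]
      congr 1
      norm_num
    have e2 : ((q + (R + 1) : ℕ) : ℝ) ^ (-(1 / 4) : ℝ) ≤ (R : ℝ) ^ (-(1 / 4) : ℝ) := by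
      refine Real.rpow_le_rpow_of_nonpos hR0 ?_ (by norm_num)
      exact_mod_cast (by omega : R ≤ q + (R + 1))
    rw [e1]
    have e3 : 0 ≤ ((q + (R + 1) : ℕ) : ℝ) ^ (-(5 / 4) : ℝ) := Real.rpow_nonneg hq0.le _
    calc C * (k : ℝ) ^ 2 * (((q + (R + 1) : ℕ) : ℝ) ^ (-(1 / 4) : ℝ) *
          ((q + (R + 1) : ℕ) : ℝ) ^ (-(5 / 4) : ℝ))
        ≤ C * (k : ℝ) ^ 2 * ((R : ℝ) ^ (-(1 / 4) : ℝ) *
          ((q + (R + 1) : ℕ) : ℝ) ^ (-(5 / 4) : ℝ)) :=
          mul_le_mul_of_nonneg_left (mul_le_mul_of_nonneg_right e2 e3) (by positivity)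
      _ = _ := by ring
  have hz2 : Summable (fun q : ℕ => ((q + (R + 1) : ℕ) : ℝ) ^ (-(5 / 4) : ℝ)) :=
    (summable_nat_add_iff (f := fun q : ℕ => (q : ℝ) ^ (-(5 / 4) : ℝ)) (R + 1)).2 hz
  have hz3 : ∑' q : ℕ, ((q + (R + 1) : ℕ) : ℝ) ^ (-(5 / 4) : ℝ) ≤ Z := by
    rw [hZ, ← hz.sum_add_tsum_nat_add (R + 1)]
    have : 0 ≤ ∑ q ∈ range (R + 1), (q : ℝ) ^ (-(5 / 4) : ℝ) :=
      sum_nonneg fun q _ => Real.rpow_nonneg (Nat.cast_nonneg q) _
    linarith
  have h4 := tsum_of_norm_bounded ((hz2.mul_left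
    (C * (k : ℝ) ^ 2 * (R : ℝ) ^ (-(1 / 4) : ℝ))).hasSum) h3
  rw [tsum_mul_left] at h4
  have h5 : |∑ q ∈ range (R + 1), sterm k q - (∑ q ∈ range (R + 1), sterm k q +
      ∑' q, sterm k (q + (R + 1)))| = ‖∑' q, sterm k (q + (R + 1))‖ := by
    rw [Real.norm_eq_abs, ← abs_neg]
    congr 1
    ring
  rw [h5]
  refine h4.trans ?_
  have h6 : 0 ≤ C * (k : ℝ) ^ 2 * (R : ℝ) ^ (-(1 / 4) : ℝ) := by positivity
  calc C * (k : ℝ) ^ 2 * (R : ℝ) ^ (-(1 / 4) : ℝ) * ∑' q : ℕ, ((q + (R + 1) : ℕ) : ℝ) ^ (-(5 / 4) : ℝ)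
      ≤ C * (k : ℝ) ^ 2 * (R : ℝ) ^ (-(1 / 4) : ℝ) * (Z + 1) :=
        mul_le_mul_of_nonneg_left (by linarith) h6
    _ = _ := by ring

end Pool.Agent.T9h56.HL
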