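import Mathlib
import Pool.Agent.T9h56.HL.Sing
import Pool.Agent.T9h56.HL.Block
import Pool.Agent.H336R2.V.TotLog
import Pool.Agent.H442R2.KF.Bv
import Pool.Agent.H442R2.EHI.PntErr
import Pool.Agent.H357R2.SI.Common

/-! Sums over sets of shifts: the bounds for large `x`. -/

set_option autoImplicit false

open Finset Filter Topology

namespace Pool.Agent.T9h56.HL

open Pool.Agent.H442R2.KF

lemma LL_mono {N R : ℕ} (h : N ≤ R) : H343.LL 0 N ≤ H343.LL 0 R := by
  unfold H343.LL H343.Mod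
  refine sum_le_sum_of_subset_of_nonneg ?_ fun _ _ _ => by positivity
  exact filter_subset_filter _ (Ioc_subset_Ioc_right h)

lemma LL_nonneg (R : ℕ) : 0 ≤ H343.LL 0 R := by
  unfold H343.LL
  exact sum_nonneg fun _ _ => by positivity

/-- the weights are small -/
lemma wt_le (R e : ℕ) (he : e ∈ Icc 1 R) : |wt R e| ≤ H343.LL 0 R ^ 2 := by
  rw [mem_Icc] at he
  have he0 : (0 : ℝ) < e := by exact_mod_cast he.1
  have ht0 : (0 : ℝ) < Nat.totient e := by exact_mod_cast Nat.totient_pos.2 he.1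
  have hmf : ∀ q ∈ (Icc 1 R).filter (fun q => e ∣ q),
      |(ArithmeticFunction.moebius (q / e) : ℝ) * mf q| ≤
        if Squarefree q then 1 / (Nat.totient e : ℝ) * (1 / Nat.totient (q / e)) else 0 := by
    intro q hq
    rw [mem_filter, mem_Icc] at hq
    split_ifs with hs
    · obtain ⟨f, rfl⟩ := hq.2
      have hc : Nat.Coprime e f := Nat.coprime_of_squarefree_mul hs
      rw [Nat.mul_div_cancel_left _ he.1, abs_mul]
      unfold mf
      rw [abs_div, Nat.abs_cast, Nat.totient_mul hc]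
      have h1 : |(ArithmeticFunction.moebius f : ℝ)| ≤ 1 := by
        exact_mod_cast ArithmeticFunction.abs_moebius_le_one (n := f)
      have h2 : |(ArithmeticFunction.moebius (e * f) : ℝ)| ≤ 1 := by
        exact_mod_cast ArithmeticFunction.abs_moebius_le_one (n := e * f)
      have h3 : |(ArithmeticFunction.moebius (e * f) : ℝ)| / ((Nat.totient e * Nat.totient f : ℕ) : ℝ) ≤
          1 / (Nat.totient e : ℝ) * (1 / Nat.totient f) := by
        rw [div_mul_div_comm, one_mul]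
        push_cast
        exact div_le_div_of_nonneg_right h2 (by positivity)
      calc |(ArithmeticFunction.moebius f : ℝ)| * (|(ArithmeticFunction.moebius (e * f) : ℝ)| /
            ((Nat.totient e * Nat.totient f : ℕ) : ℝ))
          ≤ 1 * (1 / (Nat.totient e : ℝ) * (1 / Nat.totient f)) :=
            mul_le_mul h1 h3 (by positivity) zero_le_one
        _ = _ := one_mul _
    · unfold mf
      rw [ArithmeticFunction.moebius_eq_zero_of_not_squarefree hs]
      simp
  have h1 : |wt R e| ≤ (e : ℝ) * ∑ q ∈ (Icc 1 R).filter (fun q => e ∣ q),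
      (if Squarefree q then 1 / (Nat.totient e : ℝ) * (1 / Nat.totient (q / e)) else 0) := by
    unfold wt
    rw [abs_mul, Nat.abs_cast]
    refine mul_le_mul_of_nonneg_left ?_ he0.le
    exact (abs_sum_le_sum_abs _ _).trans (sum_le_sum hmf)
  have h2 : ∑ q ∈ (Icc 1 R).filter (fun q => e ∣ q),
      (if Squarefree q then 1 / (Nat.totient e : ℝ) * (1 / Nat.totient (q / e)) else 0) ≤
      1 / (Nat.totient e : ℝ) * H343.LL 0 R := by
    rw [← sum_filter, ← mul_sum]
    refine mul_le_mul_of_nonneg_left ?_ (by positivity)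
    have e1 : ∑ q ∈ ((Icc 1 R).filter (fun q => e ∣ q)).filter Squarefree,
        (1 : ℝ) / Nat.totient (q / e) =
        ∑ k ∈ (((Icc 1 R).filter (fun q => e ∣ q)).filter Squarefree).image (fun q => q / e),
        (1 : ℝ) / Nat.totient k := by
      rw [sum_image]
      intro q hq q' hq' h
      rw [mem_coe, mem_filter, mem_filter] at hq hq'
      have h3 := Nat.div_mul_cancel hq.1.2
      have h4 := Nat.div_mul_cancel hq'.1.2
      simp only at h
      rw [← h3, ← h4, h]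
    rw [e1]
    unfold H343.LL H343.Mod
    refine sum_le_sum_of_subset_of_nonneg ?_ fun _ _ _ => by positivity
    intro k hk
    rw [mem_image] at hk
    obtain ⟨q, hq, rfl⟩ := hk
    rw [mem_filter, mem_filter, mem_Icc] at hq
    rw [mem_filter, mem_Ioc]
    refine ⟨⟨Nat.div_pos (Nat.le_of_dvd hq.1.1.1 hq.1.2) he.1, (Nat.div_le_self _ _).trans hq.1.1.2⟩,
      hq.2.squarefree_of_dvd (Nat.div_dvd_of_dvd hq.1.2)⟩
  have h3 : (e : ℝ) / Nat.totient e ≤ H343.LL 0 R := by
    rw [H336V.TotLog.div_totient e he.1]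
    unfold H343.LL H343.Mod
    refine sum_le_sum_of_subset_of_nonneg ?_ fun _ _ _ => by positivity
    intro d hd
    rw [mem_filter, Nat.mem_divisors] at hd
    rw [mem_filter, mem_Ioc]
    exact ⟨⟨Nat.pos_of_dvd_of_pos hd.1.1 he.1, (Nat.le_of_dvd he.1 hd.1.1).trans he.2⟩, hd.2⟩
  calc |wt R e| ≤ (e : ℝ) * (1 / (Nat.totient e : ℝ) * H343.LL 0 R) :=
        h1.trans (mul_le_mul_of_nonneg_left h2 he0.le)
    _ = (e : ℝ) / Nat.totient e * H343.LL 0 R := by ring
    _ ≤ H343.LL 0 R * H343.LL 0 R := mul_le_mul_of_nonneg_right h3 (LL_nonneg R)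
    _ = _ := by ring

lemma SR_zero_eq (R : ℕ) : SR R 0 = H343.LL 0 R := by
  unfold SR H343.LL H343.Mod
  rw [sum_filter]
  have hI : Ioc 0 R = Icc 1 R := by
    ext i
    simp only [mem_Ioc, mem_Icc]
    omega
  rw [hI]
  refine sum_congr rfl fun q hq => ?_
  rw [mem_Icc] at hq
  have ht : (0 : ℝ) < Nat.totient q := by exact_mod_cast Nat.totient_pos.2 hq.1
  rw [ram_zero q hq.1]
  unfold mf
  split_ifs with hs
  · rw [div_pow, moebius_sqf q hs]
    field_simp
  · rw [ArithmeticFunction.moebius_eq_zero_of_not_squarefree hs]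
    simp

lemma SR_neg (R : ℕ) (h : ℤ) : SR R (-h) = SR R h := by
  unfold SR ram
  simp only [dvd_neg]

lemma SR_natAbs (R : ℕ) (h : ℤ) : SR R h = SR R (h.natAbs : ℤ) := by
  rcases Int.natAbs_eq h with h1 | h1
  · rw [← h1]
  · conv_lhs => rw [h1]
    rw [SR_neg]

/-- the truncated singular series is bounded -/
lemma SR_le : ∃ C : ℝ, 0 < C ∧ ∀ R k : ℕ, 1 ≤ k → |SR R k| ≤ C * (k : ℝ) ^ 2 := by
  obtain ⟨C, hC, h⟩ := sterm_le
  have hz : Summable (fun q : ℕ => (q : ℝ) ^ (-(3 / 2) : ℝ)) :=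
    Real.summable_nat_rpow.2 (by norm_num)
  refine ⟨C * (∑' q : ℕ, (q : ℝ) ^ (-(3 / 2) : ℝ) + 1), ?_, fun R k hk => ?_⟩
  · have : 0 ≤ ∑' q : ℕ, (q : ℝ) ^ (-(3 / 2) : ℝ) :=
      tsum_nonneg fun q => Real.rpow_nonneg (Nat.cast_nonneg q) _
    positivity
  · unfold SR
    refine (abs_sum_le_sum_abs _ _).trans ?_
    calc ∑ q ∈ Icc 1 R, |ram q k * mf q ^ 2|
        ≤ ∑ q ∈ Icc 1 R, C * (k : ℝ) ^ 2 * (q : ℝ) ^ (-(3 / 2) : ℝ) :=
          sum_le_sum fun q hq => h k q hk (mem_Icc.1 hq).1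
      _ = C * (k : ℝ) ^ 2 * ∑ q ∈ Icc 1 R, (q : ℝ) ^ (-(3 / 2) : ℝ) := by rw [mul_sum]
      _ ≤ C * (k : ℝ) ^ 2 * (∑' q : ℕ, (q : ℝ) ^ (-(3 / 2) : ℝ) + 1) := by
          refine mul_le_mul_of_nonneg_left ?_ (by positivity)
          have := hz.sum_le_tsum (Icc 1 R) (fun q _ => Real.rpow_nonneg (Nat.cast_nonneg q) _)
          linarith
      _ = _ := by ring

/-- the sum over the pairs of different shifts -/
noncomputable def offd (H : ℕ) (c : ℕ → ℝ) (f : ℕ → ℝ) : ℝ :=
  ∑ a ∈ Icc 1 H, ∑ b ∈ Icc 1 H, if a = b then 0 else c a * c b * f ((a : ℤ) - b).natAbs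

lemma QF_split (R H : ℕ) (c : ℕ → ℝ) :
    QF R H c = (∑ a ∈ Icc 1 H, c a ^ 2) * H343.LL 0 R + offd H c (fun k => SR R k) := by
  unfold QF offd
  rw [sum_mul, ← sum_add_distrib]
  refine sum_congr rfl fun a ha => ?_
  have h1 : ∑ b ∈ Icc 1 H, c a * c b * SR R ((a : ℤ) - b) =
      ∑ b ∈ Icc 1 H, ((if a = b then c a * c b * SR R ((a : ℤ) - b) else 0) +
        if a = b then 0 else c a * c b * SR R (((a : ℤ) - b).natAbs : ℤ)) := by
    refine sum_congr rfl fun b _ => ?_
    by_cases h : a = b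
    · rw [if_pos h, if_pos h, add_zero]
    · rw [if_neg h, if_neg h, zero_add, ← SR_natAbs]
  rw [h1, sum_add_distrib, sum_ite_eq, if_pos ha, sub_self, SR_zero_eq]
  ring

lemma offd_sub_le (H : ℕ) (c : ℕ → ℝ) (f g : ℕ → ℝ) (K : ℝ) (hK : 0 ≤ K)
    (h : ∀ k, 1 ≤ k → k ≤ H → |f k - g k| ≤ K) :
    |offd H c f - offd H c g| ≤ (∑ b ∈ Icc 1 H, |c b|) ^ 2 * K := by
  unfold offd
  rw [← sum_sub_distrib, sq, sum_mul_sum, sum_mul]
  refine (abs_sum_le_sum_abs _ _).trans (sum_le_sum fun a ha => ?_)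
  rw [← sum_sub_distrib, sum_mul]
  refine (abs_sum_le_sum_abs _ _).trans (sum_le_sum fun b hb => ?_)
  rw [mem_Icc] at ha hb
  split_ifs with hab
  · rw [sub_zero, abs_zero]
    positivity
  · rw [← mul_sub, abs_mul, abs_mul]
    exact mul_le_mul_of_nonneg_left (h _ (by omega) (by omega)) (by positivity)

lemma sq_sum_le (H : ℕ) (c : ℕ → ℝ) :
    (∑ b ∈ Icc 1 H, |c b|) ^ 2 ≤ H * ∑ a ∈ Icc 1 H, c a ^ 2 := by
  have h := sq_sum_le_card_mul_sum_sq (s := Icc 1 H) (f := fun b => |c b|)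
  rw [Nat.card_Icc, add_tsub_cancel_right] at h
  simpa using h

/-- powers of the logarithm are small -/
lemma log_pow_small (k : ℕ) (s κ : ℝ) (hs : 0 < s) (hκ : 0 < κ) :
    ∀ᶠ x : ℝ in atTop, Real.log x ^ k ≤ κ * x ^ s := by
  have h := (isLittleO_log_rpow_rpow_atTop (k : ℝ) hs).bound hκ
  filter_upwards [h, eventually_ge_atTop 1] with x hx hx1
  rw [Real.norm_of_nonneg (Real.rpow_nonneg (Real.log_nonneg hx1) _),
    Real.norm_of_nonneg (Real.rpow_nonneg (by linarith) _), Real.rpow_natCast] at hx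
  exact hx

/-- the theorem of Bombieri and Vinogradov at the heights needed -/
lemma bv_bound (δ δ' : ℝ) (hδ : 0 < δ) (hδδ : δ < δ') (hδ' : δ' < 1 / 2) (V : ℕ) :
    ∀ᶠ x : ℝ in atTop, ∀ y : ℕ, x / (2 * Real.log x ^ 2 + 2) ≤ y → (y : ℝ) ≤ x →
      ∀ ρ : ℕ → ℕ, (∀ e, 1 ≤ e → Nat.Coprime (ρ e) e) →
      ∑ e ∈ Icc 1 ⌊x ^ δ⌋₊, |Er y e (ρ e)| ≤ x / Real.log x ^ V := by
  obtain ⟨C, hC, h⟩ := Pool.Agent.H442R2.KF.bv δ' hδ' (V + 1)
  have hL : Tendsto Real.log atTop atTop := Real.tendsto_log_atTop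
  have hgap : 0 < (δ' - δ) / (2 * δ') := by
    have : 0 < δ' := by linarith
    exact div_pos (by linarith) (by linarith)
  filter_upwards [hL.eventually_ge_atTop (max 1 (C * 2 ^ (V + 1))),
    log_pow_small 2 ((δ' - δ) / (2 * δ')) (1 / 8) hgap (by norm_num),
    log_pow_small 2 (1 / 2) (1 / 8) (by norm_num) (by norm_num),
    eventually_ge_atTop (100 : ℝ), tendsto_rpow_atTop (show (0 : ℝ) < (δ' - δ) / (2 * δ') from hgap)
      |>.eventually_ge_atTop 8] with x h1 h2 h3 h4 h5 y hy1 hy2 ρ hρ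
  set L := Real.log x with hLd
  have hL1 : 1 ≤ L := (le_max_left _ _).trans h1
  have hx0 : 0 < x := by linarith
  have hδ'0 : 0 < δ' := by linarith
  have hden : 0 < 2 * L ^ 2 + 2 := by positivity
  -- `y` is at least `√x`
  have hy3 : x ^ (1 / 2 : ℝ) ≤ y := by
    refine le_trans ?_ hy1
    rw [le_div_iff₀ hden]
    have e1 : x ^ (1 / 2 : ℝ) * x ^ (1 / 2 : ℝ) = x := by
      rw [← Real.rpow_add hx0]
      norm_num
    have e2 : 2 * L ^ 2 + 2 ≤ x ^ (1 / 2 : ℝ) := by
      have e3 : 1 ≤ L ^ 2 := one_le_pow₀ hL1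
      nlinarith
    have e4 : 0 ≤ x ^ (1 / 2 : ℝ) := Real.rpow_nonneg hx0.le _
    nlinarith
  have hyx : x ^ δ ≤ (y : ℝ) ^ δ' := by
    -- `y ≥ x ^ (δ / δ')`
    have e1 : x ^ (δ / δ') ≤ y := by
      refine le_trans ?_ hy1
      rw [le_div_iff₀ hden]
      have e2 : x ^ (δ / δ') * (x ^ ((δ' - δ) / (2 * δ')) * x ^ ((δ' - δ) / (2 * δ'))) = x := by
        rw [← Real.rpow_add hx0, ← Real.rpow_add hx0]
        have : δ / δ' + ((δ' - δ) / (2 * δ') + (δ' - δ) / (2 * δ')) = 1 := by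
          field_simp
          ring
        rw [this, Real.rpow_one]
      have e3 : 0 < x ^ (δ / δ') := Real.rpow_pos_of_pos hx0 _
      set z := x ^ ((δ' - δ) / (2 * δ')) with hz
      have e4 : 2 * L ^ 2 + 2 ≤ z * z := by nlinarith
      calc x ^ (δ / δ') * (2 * L ^ 2 + 2) ≤ x ^ (δ / δ') * (z * z) :=
            mul_le_mul_of_nonneg_left e4 e3.le
        _ = x := e2
    calc x ^ δ = (x ^ (δ / δ')) ^ δ' := by
          rw [← Real.rpow_mul hx0.le]
          congr 1
          field_simp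
      _ ≤ (y : ℝ) ^ δ' := Real.rpow_le_rpow (Real.rpow_nonneg hx0.le _) e1 hδ'0.le
  have hx10 : (10 : ℝ) ≤ x ^ (1 / 2 : ℝ) := by
    have : ((100 : ℝ)) ^ (1 / 2 : ℝ) ≤ x ^ (1 / 2 : ℝ) :=
      Real.rpow_le_rpow (by norm_num) h4 (by norm_num)
    have e2 : ((100 : ℝ)) ^ (1 / 2 : ℝ) = 10 := by
      rw [← Real.sqrt_eq_rpow]
      rw [show (100 : ℝ) = 10 ^ 2 by norm_num]
      exact Real.sqrt_sq (by norm_num)
    linarith
  have hy10 : (10 : ℝ) ≤ y := hx10.trans hy3
  have hy3' : 3 ≤ y := by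
    have : (3 : ℝ) ≤ y := by linarith
    exact_mod_cast this
  have hlogy : L / 2 ≤ Real.log y := by
    have := Real.log_le_log (Real.rpow_pos_of_pos hx0 _) hy3
    rw [Real.log_rpow hx0] at this
    linarith
  have hsub : Icc 1 ⌊x ^ δ⌋₊ ⊆ Icc 1 ⌊(y : ℝ) ^ δ'⌋₊ :=
    Icc_subset_Icc_right (Nat.floor_le_floor hyx)
  calc ∑ e ∈ Icc 1 ⌊x ^ δ⌋₊, |Er y e (ρ e)| ≤ ∑ e ∈ Icc 1 ⌊(y : ℝ) ^ δ'⌋₊, |Er y e (ρ e)| :=
        sum_le_sum_of_subset_of_nonneg hsub fun _ _ _ => abs_nonneg _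
    _ ≤ C * (y / Real.log y ^ (V + 1)) := h y hy3' ρ hρ
    _ ≤ C * (x / (L / 2) ^ (V + 1)) := by
        refine mul_le_mul_of_nonneg_left ?_ hC.le
        have : 0 < L / 2 := by linarith
        gcongr
    _ = (C * 2 ^ (V + 1) / L) * (x / L ^ V) := by
        rw [div_pow, pow_succ L V]
        field_simp
    _ ≤ 1 * (x / L ^ V) := by
        refine mul_le_mul_of_nonneg_right ?_ (by positivity)
        rw [div_le_one (by linarith)]
        exact (le_max_right _ _).trans h1
    _ = _ := one_mul _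

/-- the prime number theorem between two heights -/
lemma pnt_block (V : ℕ) : ∀ᶠ x : ℝ in atTop, ∀ y y' : ℕ, (y = 0 ∨ x ^ (1 / 2 : ℝ) ≤ y) →
    x ^ (1 / 2 : ℝ) ≤ y' → y ≤ y' → (y' : ℝ) ≤ x →
      ((y' : ℝ) - y) / Real.log y' - x / Real.log x ^ V ≤ (piN y' : ℝ) - piN y := by
  obtain ⟨C, h⟩ := Pool.Agent.H442R2.EHI.pnt_err (V + 1)
  have hL : Tendsto Real.log atTop atTop := Real.tendsto_log_atTop
  filter_upwards [hL.eventually_ge_atTop (max 2 (4 * |C| * 2 ^ (V + 1))),
    log_pow_small V 1 (1 / 4) (by norm_num) (by norm_num),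
    eventually_ge_atTop (100 : ℝ)] with x h1 h2 h4 y y' hy hy' hyy hyx
  set L := Real.log x with hLd
  have hL1 : 2 ≤ L := (le_max_left _ _).trans h1
  have hx0 : 0 < x := by linarith
  have hx10 : (10 : ℝ) ≤ x ^ (1 / 2 : ℝ) := by
    have : ((100 : ℝ)) ^ (1 / 2 : ℝ) ≤ x ^ (1 / 2 : ℝ) :=
      Real.rpow_le_rpow (by norm_num) h4 (by norm_num)
    have e2 : ((100 : ℝ)) ^ (1 / 2 : ℝ) = 10 := by
      rw [← Real.sqrt_eq_rpow]
      rw [show (100 : ℝ) = 10 ^ 2 by norm_num]
      exact Real.sqrt_sq (by norm_num)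
    linarith
  -- the error at a height
  have herr : ∀ u : ℕ, x ^ (1 / 2 : ℝ) ≤ u → (u : ℝ) ≤ x →
      |(piN u : ℝ) - Pool.Agent.H442R2.EHI.lis u| ≤ x / L ^ V / 4 := by
    intro u hu hux
    have hu2 : 2 ≤ u := by
      have : (2 : ℝ) ≤ u := by linarith
      exact_mod_cast this
    have hlogu : L / 2 ≤ Real.log u := by
      have := Real.log_le_log (Real.rpow_pos_of_pos hx0 _) hu
      rw [Real.log_rpow hx0] at this
      linarith
    refine (h u hu2).trans ?_
    have hu0 : (0 : ℝ) < u := by linarith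
    calc C * u / Real.log u ^ (V + 1) ≤ |C| * x / (L / 2) ^ (V + 1) := by
          have : 0 < L / 2 := by linarith
          have h5 : C * u ≤ |C| * x :=
            mul_le_mul (le_abs_self C) hux hu0.le (abs_nonneg _)
          calc C * u / Real.log u ^ (V + 1) ≤ |C| * x / Real.log u ^ (V + 1) := by
                refine div_le_div_of_nonneg_right h5 ?_
                have : 0 < Real.log u := by linarith
                positivity
            _ ≤ |C| * x / (L / 2) ^ (V + 1) := by gcongr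
      _ = (4 * |C| * 2 ^ (V + 1) / L) * (x / L ^ V / 4) := by
          rw [div_pow, pow_succ L V]
          field_simp
      _ ≤ 1 * (x / L ^ V / 4) := by
          refine mul_le_mul_of_nonneg_right ?_ (by positivity)
          rw [div_le_one (by linarith)]
          exact (le_max_right _ _).trans h1
      _ = _ := one_mul _
  have hsmall : 1 ≤ x / L ^ V / 4 := by
    rw [le_div_iff₀ (by norm_num), le_div_iff₀ (by positivity)]
    rw [Real.rpow_one] at h2
    linarith
  have hy'0 : (10 : ℝ) ≤ y' := by linarith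
  have hly' : 0 < Real.log y' := Real.log_pos (by linarith)
  have hly1 : 1 ≤ Real.log y' := by
    have := Real.log_le_log (Real.rpow_pos_of_pos hx0 _) hy'
    rw [Real.log_rpow hx0] at this
    linarith
  have hE' := (abs_le.1 (herr y' hy' hyx)).1
  rcases hy with hy0 | hy0
  · subst hy0
    have hp : (piN 0 : ℝ) = 0 := by
      unfold piN
      simp
    have hlis : ((y' : ℝ) - 1) / Real.log y' ≤ Pool.Agent.H442R2.EHI.lis y' := by
      unfold Pool.Agent.H442R2.EHI.lis
      calc ((y' : ℝ) - 1) / Real.log y' = ∑ _n ∈ Icc 2 y', 1 / Real.log y' := by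
            rw [sum_const, Nat.card_Icc, nsmul_eq_mul, Nat.cast_sub (by
              have : (1 : ℝ) ≤ y' := by linarith
              have : 1 ≤ y' := by exact_mod_cast this
              omega)]
            push_cast
            ring
        _ ≤ ∑ n ∈ Icc 2 y', 1 / Real.log n := by
            refine sum_le_sum fun n hn => ?_
            rw [mem_Icc] at hn
            have hn2 : (2 : ℝ) ≤ n := by exact_mod_cast hn.1
            refine one_div_le_one_div_of_le (Real.log_pos (by linarith)) ?_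
            exact Real.log_le_log (by linarith) (by exact_mod_cast hn.2)
    have e1 : ((y' : ℝ) - 1) / Real.log y' ≥ (y' : ℝ) / Real.log y' - 1 := by
      rw [sub_div]
      have : 1 / Real.log (y' : ℝ) ≤ 1 := by
        rw [div_le_one hly']
        exact hly1
      linarith
    rw [hp, Nat.cast_zero, sub_zero, sub_zero]
    linarith
  · have hE := (abs_le.1 (herr y hy0 (le_trans (by exact_mod_cast hyy) hyx))).2
    have hy2 : (10 : ℝ) ≤ y := by linarith
    have hlis : Pool.Agent.H442R2.EHI.lis y + ((y' : ℝ) - y) / Real.log y' ≤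
        Pool.Agent.H442R2.EHI.lis y' := by
      unfold Pool.Agent.H442R2.EHI.lis
      have hset : Icc 2 y' = Icc 2 y ∪ Ioc y y' := by
        ext i
        simp only [mem_Icc, mem_union, mem_Ioc]
        have : 2 ≤ y := by
          have : (2 : ℝ) ≤ y := by linarith
          exact_mod_cast this
        omega
      rw [hset, sum_union (by
        rw [disjoint_left]
        intro i hi hi'
        rw [mem_Icc] at hi
        rw [mem_Ioc] at hi'
        omega)]
      have : ((y' : ℝ) - y) / Real.log y' ≤ ∑ n ∈ Ioc y y', 1 / Real.log n := by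
        calc ((y' : ℝ) - y) / Real.log y' = ∑ _n ∈ Ioc y y', 1 / Real.log y' := by
              rw [sum_const, Nat.card_Ioc, nsmul_eq_mul, Nat.cast_sub hyy]
              ring
          _ ≤ ∑ n ∈ Ioc y y', 1 / Real.log n := by
              refine sum_le_sum fun n hn => ?_
              rw [mem_Ioc] at hn
              have hn2 : (10 : ℝ) ≤ n := hy2.trans (by exact_mod_cast hn.1.le)
              refine one_div_le_one_div_of_le (Real.log_pos (by linarith)) ?_
              exact Real.log_le_log (by linarith) (by exact_mod_cast hn.2)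
      linarith
    linarith

/-- the sum of the logarithms -/
lemma sum_log_le (M : ℕ) : ∑ j ∈ range M, Real.log ((j : ℝ) + 1) ≤ (M + 1) * Real.log (M + 1) - M := by
  induction M with
  | zero => simp
  | succ m ih =>
    rw [sum_range_succ]
    push_cast
    have h1 : (0 : ℝ) < (m : ℝ) + 1 := by positivity
    have h2 : Real.log ((m : ℝ) + 1) ≤ Real.log ((m : ℝ) + 1 + 1) - 1 / ((m : ℝ) + 2) := by
      have h3 : Real.log (((m : ℝ) + 1) / ((m : ℝ) + 1 + 1)) ≤ ((m : ℝ) + 1) / ((m : ℝ) + 1 + 1) - 1 :=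
        Real.log_le_sub_one_of_pos (by positivity)
      rw [Real.log_div (by positivity) (by positivity)] at h3
      have h4 : ((m : ℝ) + 1) / ((m : ℝ) + 1 + 1) - 1 = -(1 / ((m : ℝ) + 2)) := by
        field_simp
        ring
      linarith
    have h5 : ((m : ℝ) + 2) * Real.log ((m : ℝ) + 1) ≤
        ((m : ℝ) + 2) * (Real.log ((m : ℝ) + 1 + 1) - 1 / ((m : ℝ) + 2)) :=
      mul_le_mul_of_nonneg_left h2 (by positivity)
    have h6 : ((m : ℝ) + 2) * (1 / ((m : ℝ) + 2)) = 1 := by field_simp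
    have h7 : ((m : ℝ) + 1 + 1) * Real.log ((m : ℝ) + 1 + 1) = ((m : ℝ) + 2) * Real.log ((m : ℝ) + 1 + 1) := by
      ring
    rw [h7]
    nlinarith

end Pool.Agent.T9h56.HL
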