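import Mathlib
import Pool.Agent.T9h56.HL.Bd

/-! Sums over sets of shifts: the sum over the blocks, and the count of the pairs. -/

set_option autoImplicit false

open Finset Filter Topology

namespace Pool.Agent.T9h56.HL

open Pool.Agent.H442R2.KF

lemma inv_sq_ge {L t : ℝ} (hL : 0 < L) (htL : t < L) :
    1 / L ^ 2 * (1 + 2 * t / L) ≤ (1 / (L - t)) ^ 2 := by
  have h1 : 0 < L - t := by linarith
  rw [one_div_pow, ← sub_nonneg]
  have h2 : 1 / (L - t) ^ 2 - 1 / L ^ 2 * (1 + 2 * t / L) =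
      t ^ 2 * (3 * L - 2 * t) / (L ^ 3 * (L - t) ^ 2) := by
    field_simp
    ring
  rw [h2]
  have : 0 ≤ 3 * L - 2 * t := by linarith
  positivity

lemma lam_sum (η : ℝ) (hη : 0 < η) (hη1 : η ≤ 1) : ∀ᶠ x : ℝ in atTop,
    x / Real.log x ^ 2 * (1 + (2 - η) / Real.log x) ≤
      ∑ j ∈ range ⌈Real.log x ^ 2⌉₊,
        (1 / Real.log (((j + 1) * ⌊x / (⌈Real.log x ^ 2⌉₊ : ℕ)⌋₊ : ℕ) : ℝ)) ^ 2 *
          (⌊x / (⌈Real.log x ^ 2⌉₊ : ℕ)⌋₊ : ℕ) := by
  have hL : Tendsto Real.log atTop atTop := Real.tendsto_log_atTop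
  have hsm : ∀ᶠ M : ℝ in atTop, 1 + Real.log (M + 1) ≤ η / 4 * M := by
    have h := (Real.isLittleO_log_id_atTop.bound (show (0 : ℝ) < η / 16 by positivity))
    filter_upwards [(tendsto_atTop_add_const_right atTop (1 : ℝ) tendsto_id).eventually h,
      eventually_ge_atTop (max 1 (16 / η))] with M h1 h2
    have hM1 : 1 ≤ M := (le_max_left _ _).trans h2
    have hM2 : 16 / η ≤ M := (le_max_right _ _).trans h2
    have h3 : Real.log (M + 1) ≤ η / 16 * (M + 1) := by
      have h4 : ‖Real.log (M + 1)‖ ≤ η / 16 * ‖M + 1‖ := h1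
      rw [Real.norm_of_nonneg (Real.log_nonneg (by linarith)),
        Real.norm_of_nonneg (by linarith)] at h4
      exact h4
    rw [div_le_iff₀ hη] at hM2
    nlinarith
  obtain ⟨M₀, hM₀⟩ := eventually_atTop.1 hsm
  filter_upwards [hL.eventually_ge_atTop 2,
    ((tendsto_pow_atTop (α := ℝ) (n := 2) (by norm_num)).comp hL).eventually_ge_atTop M₀,
    log_pow_small 3 1 (η / 24) one_pos (by positivity),
    log_pow_small 2 1 (1 / 8) one_pos (by norm_num),
    eventually_ge_atTop (100 : ℝ)] with x h1 h3 h4 h5 h6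
  set L := Real.log x with hLd
  set M : ℕ := ⌈L ^ 2⌉₊ with hM
  set N : ℕ := ⌊x / (M : ℕ)⌋₊ with hN
  have hL0 : 0 < L := by linarith
  have hx0 : 0 < x := by linarith
  have hL2 : 4 ≤ L ^ 2 := by nlinarith
  have hM1 : L ^ 2 ≤ M := Nat.le_ceil _
  have hM2 : (M : ℝ) ≤ L ^ 2 + 1 := (Nat.ceil_lt_add_one (by positivity)).le
  have hM0 : (0 : ℝ) < M := by linarith
  rw [Real.rpow_one] at h4 h5
  have hxM : 2 ≤ x / M := by
    rw [le_div_iff₀ hM0]
    nlinarith
  have hN1 : x / M - 1 < N := Nat.sub_one_lt_floor _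
  have hN2 : (N : ℝ) ≤ x / M := Nat.floor_le (by positivity)
  have hN3 : (2 : ℝ) ≤ N := by
    have : 2 ≤ N := Nat.le_floor (by exact_mod_cast hxM)
    exact_mod_cast this
  have hN0 : (0 : ℝ) < N := by linarith
  have hNM : x - M ≤ N * M := by
    have h7 : (x / M - 1) * M ≤ N * M := mul_le_mul_of_nonneg_right hN1.le hM0.le
    have h8 : (x / M - 1) * M = x - M := by field_simp
    linarith
  have hML : (M : ℝ) ≤ 2 * L ^ 2 := by nlinarith
  have h3' : 1 + Real.log ((M : ℝ) + 1) ≤ η / 4 * M := hM₀ M (by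
    have h3'' : M₀ ≤ L ^ 2 := h3
    linarith)
  -- the terms
  have hterm : ∀ j ∈ range M, 1 / L ^ 2 * (1 + 2 * (Real.log M - Real.log ((j : ℝ) + 1)) / L) * N ≤
      (1 / Real.log (((j + 1) * N : ℕ) : ℝ)) ^ 2 * N := by
    intro j hj
    rw [mem_range] at hj
    refine mul_le_mul_of_nonneg_right ?_ hN0.le
    have hj0 : (0 : ℝ) < (j : ℝ) + 1 := by positivity
    have hjM : (j : ℝ) + 1 ≤ M := by exact_mod_cast hj
    set t := Real.log M - Real.log ((j : ℝ) + 1) with ht
    have ht0 : 0 ≤ t := by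
      rw [ht, sub_nonneg]
      exact Real.log_le_log hj0 hjM
    have hu : (((j + 1) * N : ℕ) : ℝ) ≤ ((j : ℝ) + 1) * (x / M) := by
      push_cast
      exact mul_le_mul_of_nonneg_left hN2 hj0.le
    have hu2 : (2 : ℝ) ≤ (((j + 1) * N : ℕ) : ℝ) := by
      push_cast
      nlinarith
    have hlogu : Real.log (((j + 1) * N : ℕ) : ℝ) ≤ L - t := by
      refine (Real.log_le_log (by linarith) hu).trans (le_of_eq ?_)
      rw [Real.log_mul hj0.ne' (by positivity), Real.log_div hx0.ne' hM0.ne', ht]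
      ring
    have hlogu0 : 0 < Real.log (((j + 1) * N : ℕ) : ℝ) := Real.log_pos (by linarith)
    refine (inv_sq_ge hL0 (by linarith)).trans ?_
    have h9 : 1 / (L - t) ≤ 1 / Real.log (((j + 1) * N : ℕ) : ℝ) :=
      one_div_le_one_div_of_le hlogu0 hlogu
    have h10 : 0 ≤ 1 / (L - t) := by
      have : 0 < L - t := by linarith
      positivity
    exact pow_le_pow_left₀ h10 h9 2
  refine le_trans ?_ (sum_le_sum hterm)
  have hsum : ∑ j ∈ range M, 1 / L ^ 2 * (1 + 2 * (Real.log M - Real.log ((j : ℝ) + 1)) / L) * N =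
      N / L ^ 2 * (M + 2 / L * (M * Real.log M - ∑ j ∈ range M, Real.log ((j : ℝ) + 1))) := by
    have e1 : ∀ j ∈ range M, 1 / L ^ 2 * (1 + 2 * (Real.log M - Real.log ((j : ℝ) + 1)) / L) * N =
        N / L ^ 2 * (1 + 2 / L * (Real.log M - Real.log ((j : ℝ) + 1))) := by
      intro j _
      ring
    rw [sum_congr rfl e1, ← mul_sum, sum_add_distrib, ← mul_sum, sum_sub_distrib, sum_const,
      sum_const, card_range, nsmul_eq_mul, nsmul_eq_mul, mul_one]
  rw [hsum]
  have hstir := sum_log_le M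
  have hlogM : Real.log ((M : ℝ) + 1) - Real.log M ≤ 1 / M := by
    rw [← Real.log_div (by positivity) hM0.ne']
    refine (Real.log_le_sub_one_of_pos (by positivity)).trans (le_of_eq ?_)
    field_simp
    ring
  have hlogM2 : M * (Real.log ((M : ℝ) + 1) - Real.log M) ≤ 1 := by
    have := mul_le_mul_of_nonneg_left hlogM hM0.le
    have e : (M : ℝ) * (1 / M) = 1 := by field_simp
    linarith
  have hS : M * (1 - η / 4) ≤ M * Real.log M - ∑ j ∈ range M, Real.log ((j : ℝ) + 1) := by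
    nlinarith
  have hA : (M : ℝ) * (1 + (2 - η / 2) / L) ≤
      M + 2 / L * (M * Real.log M - ∑ j ∈ range M, Real.log ((j : ℝ) + 1)) := by
    have h7 := mul_le_mul_of_nonneg_left hS (show 0 ≤ 2 / L by positivity)
    have e : (M : ℝ) * (1 + (2 - η / 2) / L) = M + 2 / L * (M * (1 - η / 4)) := by ring
    rw [e]
    linarith
  have hB : x * (1 + (2 - η) / L) ≤ (x - M) * (1 + (2 - η / 2) / L) := by
    have e : (x - M) * (1 + (2 - η / 2) / L) - x * (1 + (2 - η) / L) =
        (η / 2 * x - M * (L + (2 - η / 2))) / L := by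
      field_simp
      ring
    rw [← sub_nonneg, e]
    refine div_nonneg ?_ hL0.le
    have h7 : M * (L + (2 - η / 2)) ≤ 2 * L ^ 2 * (2 * L) := by
      refine mul_le_mul hML (by linarith) (by linarith) (by positivity)
    nlinarith
  calc x / L ^ 2 * (1 + (2 - η) / L) = 1 / L ^ 2 * (x * (1 + (2 - η) / L)) := by ring
    _ ≤ 1 / L ^ 2 * ((x - M) * (1 + (2 - η / 2) / L)) :=
        mul_le_mul_of_nonneg_left hB (by positivity)
    _ ≤ 1 / L ^ 2 * ((N * M) * (1 + (2 - η / 2) / L)) := by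
        refine mul_le_mul_of_nonneg_left ?_ (by positivity)
        refine mul_le_mul_of_nonneg_right hNM ?_
        have : 0 ≤ (2 - η / 2) / L := div_nonneg (by linarith) hL0.le
        linarith
    _ = N / L ^ 2 * (M * (1 + (2 - η / 2) / L)) := by ring
    _ ≤ N / L ^ 2 * (M + 2 / L * (M * Real.log M - ∑ j ∈ range M, Real.log ((j : ℝ) + 1))) :=
        mul_le_mul_of_nonneg_left hA (by positivity)

/-- the number of the primes `p ≤ X` for which `p - d` is a prime -/
def pi2N (X d : ℕ) : ℕ := ((Icc 1 X).filter (fun p : ℕ => p.Prime ∧ (p - d).Prime)).card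

lemma pair_count (K X M H a b : ℕ) (hKX : K ≤ X) (hXK : X ≤ K + M) (ha : a ≤ H)
    (hab : b < a) :
    |(((Ioc 0 K).filter (fun n => (n + a).Prime ∧ (n + b).Prime)).card : ℝ) - pi2N X (a - b)| ≤
      2 * H + M := by
  have h1 : ((Ioc 0 K).filter (fun n => (n + a).Prime ∧ (n + b).Prime)).card =
      ((Ioc a (K + a)).filter (fun p : ℕ => p.Prime ∧ (p - (a - b)).Prime)).card := by
    refine card_bij (fun n _ => n + a) ?_ ?_ ?_
    · intro n hn
      rw [mem_filter, mem_Ioc] at hn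
      rw [mem_filter, mem_Ioc]
      refine ⟨⟨by omega, by omega⟩, hn.2.1, ?_⟩
      have : n + a - (a - b) = n + b := by omega
      rw [this]
      exact hn.2.2
    · intro n _ m _ h
      omega
    · intro p hp
      rw [mem_filter, mem_Ioc] at hp
      refine ⟨p - a, ?_, by omega⟩
      have e1 : p - a + a = p := by omega
      have e2 : p - a + b = p - (a - b) := by omega
      rw [mem_filter, mem_Ioc, e1, e2]
      exact ⟨⟨by omega, by omega⟩, hp.2⟩
  have h2 : ((Ioc a (K + a)).filter (fun p : ℕ => p.Prime ∧ (p - (a - b)).Prime)).card ≤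
      pi2N X (a - b) + a := by
    have hs : (Ioc a (K + a)).filter (fun p : ℕ => p.Prime ∧ (p - (a - b)).Prime) ⊆
        (Icc 1 X).filter (fun p : ℕ => p.Prime ∧ (p - (a - b)).Prime) ∪ Ioc X (X + a) := by
      intro p hp
      rw [mem_filter, mem_Ioc] at hp
      rw [mem_union, mem_filter, mem_Icc, mem_Ioc]
      by_cases h3 : p ≤ X
      · exact Or.inl ⟨⟨by omega, h3⟩, hp.2⟩
      · exact Or.inr ⟨by omega, by omega⟩
    have h4 := (card_le_card hs).trans (card_union_le _ _)
    rw [Nat.card_Ioc] at h4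
    unfold pi2N
    omega
  have h3 : pi2N X (a - b) ≤
      ((Ioc a (K + a)).filter (fun p : ℕ => p.Prime ∧ (p - (a - b)).Prime)).card + (a + M) := by
    have hs : (Icc 1 X).filter (fun p : ℕ => p.Prime ∧ (p - (a - b)).Prime) ⊆
        (Ioc a (K + a)).filter (fun p : ℕ => p.Prime ∧ (p - (a - b)).Prime) ∪
          (Ioc 0 a ∪ Ioc K (K + M)) := by
      intro p hp
      rw [mem_filter, mem_Icc] at hp
      rw [mem_union, mem_union, mem_filter, mem_Ioc, mem_Ioc, mem_Ioc]
      by_cases h3 : p ≤ a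
      · exact Or.inr (Or.inl ⟨by omega, h3⟩)
      · by_cases h4 : p ≤ K + a
        · exact Or.inl ⟨⟨by omega, h4⟩, hp.2⟩
        · exact Or.inr (Or.inr ⟨by omega, by omega⟩)
    have h4 := (card_le_card hs).trans (card_union_le _ _)
    have h5 : (Ioc 0 a ∪ Ioc K (K + M)).card ≤ a + M := by
      refine (card_union_le _ _).trans ?_
      rw [Nat.card_Ioc, Nat.card_Ioc]
      omega
    unfold pi2N
    omega
  rw [h1]
  have h4 : (((Ioc a (K + a)).filter (fun p : ℕ => p.Prime ∧ (p - (a - b)).Prime)).card : ℝ) ≤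
      pi2N X (a - b) + a := by exact_mod_cast h2
  have h5 : (pi2N X (a - b) : ℝ) ≤
      ((Ioc a (K + a)).filter (fun p : ℕ => p.Prime ∧ (p - (a - b)).Prime)).card + (a + M) := by
    exact_mod_cast h3
  have h6 : (a : ℝ) ≤ H := by exact_mod_cast ha
  have h7 : (0 : ℝ) ≤ H := Nat.cast_nonneg _
  have h8 : (0 : ℝ) ≤ M := Nat.cast_nonneg _
  rw [abs_le]
  constructor <;> linarith

lemma pair_count' (K X M H a b : ℕ) (hKX : K ≤ X) (hXK : X ≤ K + M) (ha : a ≤ H) (hb : b ≤ H)
    (hab : a ≠ b) :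
    |(((Ioc 0 K).filter (fun n => (n + a).Prime ∧ (n + b).Prime)).card : ℝ) -
      pi2N X ((a : ℤ) - b).natAbs| ≤ 2 * H + M := by
  rcases lt_or_gt_of_ne hab with h | h
  · have h1 := pair_count K X M H b a hKX hXK hb h
    have h2 : ((a : ℤ) - b).natAbs = b - a := by omega
    have h3 : (Ioc 0 K).filter (fun n => (n + a).Prime ∧ (n + b).Prime) =
        (Ioc 0 K).filter (fun n => (n + b).Prime ∧ (n + a).Prime) :=
      filter_congr fun n _ => and_comm
    rw [h2, h3]
    exact h1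
  · have h1 := pair_count K X M H a b hKX hXK ha h
    have h2 : ((a : ℤ) - b).natAbs = a - b := by omega
    rw [h2]
    exact h1

/-- the upper bound of the mean square by the pairs -/
theorem sq_upper (K X M H : ℕ) (c : ℕ → ℝ) (hKX : K ≤ X) (hXK : X ≤ K + M) :
    ∑ n ∈ Ioc 0 K, (∑ a ∈ Icc 1 H, c a * pr (n + a)) ^ 2 ≤
      (∑ a ∈ Icc 1 H, c a ^ 2) * (piN X + H) + offd H c (fun d => (pi2N X d : ℝ)) +
        (∑ b ∈ Icc 1 H, |c b|) ^ 2 * (2 * H + M) := by
  have h1 : ∑ n ∈ Ioc 0 K, (∑ a ∈ Icc 1 H, c a * pr (n + a)) ^ 2 =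
      ∑ a ∈ Icc 1 H, ∑ b ∈ Icc 1 H, c a * c b *
        (((Ioc 0 K).filter (fun n => (n + a).Prime ∧ (n + b).Prime)).card : ℝ) := by
    have e1 : ∀ n ∈ Ioc 0 K, (∑ a ∈ Icc 1 H, c a * pr (n + a)) ^ 2 =
        ∑ a ∈ Icc 1 H, ∑ b ∈ Icc 1 H,
          c a * c b * (if (n + a).Prime ∧ (n + b).Prime then 1 else 0) := by
      intro n _
      rw [sq, sum_mul_sum]
      refine sum_congr rfl fun a _ => sum_congr rfl fun b _ => ?_
      unfold pr
      by_cases h1 : (n + a).Prime
      · by_cases h2 : (n + b).Prime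
        · rw [if_pos h1, if_pos h2, if_pos ⟨h1, h2⟩]; ring
        · rw [if_pos h1, if_neg h2, if_neg (fun h => h2 h.2)]; ring
      · rw [if_neg h1, if_neg (show ¬ ((n + a).Prime ∧ (n + b).Prime) from fun h => h1 h.1)]; ring
    rw [sum_congr rfl e1, sum_comm]
    refine sum_congr rfl fun a _ => ?_
    rw [sum_comm]
    refine sum_congr rfl fun b _ => ?_
    rw [← mul_sum]
    congr 1
    rw [← sum_filter, sum_const, nsmul_eq_mul, mul_one]
  rw [h1]
  have h2 : (∑ a ∈ Icc 1 H, c a ^ 2) * (piN X + H) + offd H c (fun d => (pi2N X d : ℝ)) +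
        (∑ b ∈ Icc 1 H, |c b|) ^ 2 * (2 * H + M) =
      ∑ a ∈ Icc 1 H, ∑ b ∈ Icc 1 H, ((if a = b then c a ^ 2 * ((piN X : ℝ) + H) else 0) +
        (if a = b then 0 else c a * c b * (pi2N X ((a : ℤ) - b).natAbs : ℝ)) +
        |c a| * |c b| * (2 * H + M)) := by
    unfold offd
    rw [sq (∑ b ∈ Icc 1 H, |c b|), sum_mul_sum, sum_mul, sum_mul, ← sum_add_distrib,
      ← sum_add_distrib]
    refine sum_congr rfl fun a ha => ?_
    rw [sum_add_distrib, sum_add_distrib, sum_ite_eq, if_pos ha, sum_mul]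
  rw [h2]
  refine sum_le_sum fun a ha => sum_le_sum fun b hb => ?_
  rw [mem_Icc] at ha hb
  by_cases hab : a = b
  · subst hab
    rw [if_pos rfl, if_pos rfl, add_zero]
    have h3 : ((Ioc 0 K).filter (fun n => (n + a).Prime ∧ (n + a).Prime)).card ≤ piN X + H := by
      have h4 : ((Ioc 0 K).filter (fun n => (n + a).Prime ∧ (n + a).Prime)).card ≤
          ((Icc 1 X).filter (fun p : ℕ => p.Prime) ∪ Ioc X (X + a)).card := by
        refine card_le_card_of_injOn (fun n => n + a) ?_ ?_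
        · intro n hn
          rw [mem_coe, mem_filter, mem_Ioc] at hn
          show n + a ∈ ((Icc 1 X).filter (fun p : ℕ => p.Prime) ∪ Ioc X (X + a) : Finset ℕ)
          rw [mem_union, mem_filter, mem_Icc, mem_Ioc]
          by_cases h5 : n + a ≤ X
          · exact Or.inl ⟨⟨by omega, h5⟩, hn.2.1⟩
          · exact Or.inr ⟨by omega, by omega⟩
        · intro n _ m _ h
          simp only at h
          omega
      have h5 := h4.trans (card_union_le _ _)
      rw [Nat.card_Ioc] at h5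
      unfold piN
      omega
    have h4 : (((Ioc 0 K).filter (fun n => (n + a).Prime ∧ (n + a).Prime)).card : ℝ) ≤
        piN X + H := by exact_mod_cast h3
    have h5 : 0 ≤ |c a| * |c a| * (2 * (H : ℝ) + M) := by positivity
    have h6 : c a * c a = c a ^ 2 := by ring
    rw [h6]
    have h7 := mul_le_mul_of_nonneg_left h4 (sq_nonneg (c a))
    linarith
  · rw [if_neg hab, if_neg hab, zero_add]
    have h3 := pair_count' K X M H a b hKX hXK ha.2 hb.2 hab
    have h4 : c a * c b * ((((Ioc 0 K).filter (fun n => (n + a).Prime ∧ (n + b).Prime)).card : ℝ) -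
        pi2N X ((a : ℤ) - b).natAbs) ≤ |c a| * |c b| * (2 * H + M) := by
      refine (le_abs_self _).trans ?_
      rw [abs_mul, abs_mul]
      exact mul_le_mul_of_nonneg_left h3 (by positivity)
    linarith

/-- the sum over the blocks -/
lemma sum_blocks (N M : ℕ) (f : ℕ → ℝ) : ∑ n ∈ Ioc 0 (M * N), f n =
    ∑ j ∈ range M, ∑ n ∈ Ioc (j * N) (j * N + N), f n := by
  induction M with
  | zero => simp
  | succ m ih =>
    rw [sum_range_succ, ← ih]
    have hset : Ioc 0 ((m + 1) * N) = Ioc 0 (m * N) ∪ Ioc (m * N) (m * N + N) := by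
      ext i
      simp only [mem_Ioc, mem_union]
      have : (m + 1) * N = m * N + N := by ring
      rw [this]
      omega
    rw [hset, sum_union]
    rw [disjoint_left]
    intro i hi hi'
    rw [mem_Ioc] at hi hi'
    omega

end Pool.Agent.T9h56.HL
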