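import Mathlib
import Pool.Agent.T9h56.HL.Up

/-! Sums over sets of shifts: the lower bound of the quadratic form of the numbers of pairs. -/

set_option autoImplicit false

open Finset Filter Topology

namespace Pool.Agent.T9h56.HL

open Pool.Agent.H442R2.KF

lemma piN_eq (X : ℕ) : piN X = Nat.primeCounting X := by
  unfold piN Nat.primeCounting Nat.primeCounting'
  rw [Nat.count_eq_card_filter_range]
  congr 1
  ext p
  simp only [mem_filter, mem_Icc, mem_range]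
  constructor
  · rintro ⟨h1, h2⟩
    exact ⟨by omega, h2⟩
  · rintro ⟨h1, h2⟩
    exact ⟨⟨h2.one_lt.le, by omega⟩, h2⟩

lemma pi_upper (η : ℝ) (hη : 0 < η) : ∀ᶠ x : ℝ in atTop,
    (piN ⌊x⌋₊ : ℝ) ≤ (1 + η) * (x / Real.log x) := by
  have h := Pool.Agent.Helper923.PNT.pi_tendsto
  filter_upwards [h.eventually (gt_mem_nhds (show (1 : ℝ) < 1 + η by linarith)),
    eventually_gt_atTop (1 : ℝ)] with x h1 h2
  have hL : 0 < Real.log x := Real.log_pos h2
  have hx : 0 < x := by linarith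
  rw [piN_eq]
  rw [div_lt_iff₀ hx] at h1
  rw [← mul_div_assoc, le_div_iff₀ hL]
  linarith

/-- the lower bound of the sum of the squares over all blocks -/
lemma total (L x W S Q E : ℝ) (M N R H : ℕ) (c : ℕ → ℝ) (V : ℕ)
    (lam : ℕ → ℝ) (hW : ∀ e ∈ Icc 1 R, |wt R e| ≤ W) (hW0 : 0 ≤ W)
    (hlam0 : ∀ j < M, 0 ≤ lam j) (hlam1 : ∀ j < M, lam j ≤ 1) (hx : 0 < x) (hL : 0 < L)
    (hQ : Q = QF R H c) (hQ0 : 0 ≤ Q)
    (hS : S = (∑ b ∈ Icc 1 H, |c b|) ^ 2)
    (hB : ∀ j ≤ M, ∀ ρ : ℕ → ℕ, (∀ e, 1 ≤ e → Nat.Coprime (ρ e) e) →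
      ∑ e ∈ Icc 1 R, |Er (j * N) e (ρ e)| ≤ x / L ^ V)
    (hP : ∀ j < M, N * lam j - x / L ^ V ≤ (piN (j * N + N) : ℝ) - piN (j * N))
    (hR1 : ((H : ℝ) + 1) * R ≤ x / L ^ V) (hR2 : (R : ℝ) ^ 2 ≤ x / L ^ V)
    (hE : E = (x / L ^ V) * (2 * Q + S * (6 * W + W ^ 2))) :
    (∑ j ∈ range M, lam j ^ 2 * N) * Q - M * E ≤
      ∑ n ∈ Ioc 0 (M * N), (∑ a ∈ Icc 1 H, c a * pr (n + a)) ^ 2 := by
  have hXV : 0 < x / L ^ V := by positivity
  have hS0 : 0 ≤ S := by rw [hS]; positivity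
  rw [sum_blocks]
  have h1 : (∑ j ∈ range M, lam j ^ 2 * N) * Q - M * E =
      ∑ j ∈ range M, (lam j ^ 2 * N * Q - E) := by
    rw [sum_sub_distrib, sum_const, card_range, nsmul_eq_mul, sum_mul]
  rw [h1]
  refine sum_le_sum fun j hj => ?_
  rw [mem_range] at hj
  have h2 := block R H (j * N) N c W (x / L ^ V) (lam j) hW hW0 (hlam0 j hj) (fun ρ hρ => ⟨by
    have := hB (j + 1) hj ρ hρ
    rwa [show (j + 1) * N = j * N + N by ring] at this, hB j hj.le ρ hρ⟩)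
  rw [← hQ, ← hS] at h2
  refine le_trans ?_ h2
  have hl0 := hlam0 j hj
  have hl1 := hlam1 j hj
  have h3 : 2 * lam j * (N * lam j - x / L ^ V) ≤
      2 * lam j * ((piN (j * N + N) : ℝ) - piN (j * N)) :=
    mul_le_mul_of_nonneg_left (hP j hj) (by positivity)
  have h4 : (lam j ^ 2 * N - 2 * (x / L ^ V)) * Q ≤
      (2 * lam j * ((piN (j * N + N) : ℝ) - piN (j * N)) - lam j ^ 2 * N) * Q := by
    refine mul_le_mul_of_nonneg_right ?_ hQ0
    have h5 : lam j * (x / L ^ V) ≤ 1 * (x / L ^ V) := mul_le_mul_of_nonneg_right hl1 hXV.le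
    nlinarith
  have h5 : 2 * lam j * (W * (2 * (x / L ^ V) + (H + 1) * R)) + lam j ^ 2 * (W * R) ^ 2 ≤
      (x / L ^ V) * (6 * W + W ^ 2) := by
    have h6 : lam j * (W * (2 * (x / L ^ V) + (H + 1) * R)) ≤
        1 * (W * (2 * (x / L ^ V) + x / L ^ V)) := by
      refine mul_le_mul hl1 ?_ (by positivity) zero_le_one
      exact mul_le_mul_of_nonneg_left (by linarith) hW0
    have h7 : lam j ^ 2 * (W * R) ^ 2 ≤ 1 * (W ^ 2 * (x / L ^ V)) := by
      refine mul_le_mul (pow_le_one₀ hl0 hl1) ?_ (by positivity) zero_le_one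
      rw [mul_pow]
      exact mul_le_mul_of_nonneg_left hR2 (sq_nonneg _)
    nlinarith
  have h6 := mul_le_mul_of_nonneg_left h5 hS0
  rw [hE]
  nlinarith

/-- the final computation -/
lemma final_arith {η x L T P O Λ Q E S' F G X' : ℝ} (hη : 0 < η) (hη1 : η ≤ 1) (hL10 : 110 ≤ L)
    (hx0 : 0 < x) (hT0 : 0 ≤ T) (hQ0 : 0 ≤ Q)
    (hΛ1 : x / L ^ 2 * (1 + (2 - η) / L) ≤ Λ)
    (htot : Λ * Q - E ≤ G) (hup : G ≤ T * (F + X') + P + S')
    (hF : F ≤ (1 + η / 4) * (x / L)) (hX' : X' ≤ η / 100 * (x / L))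
    (hE : E ≤ η / 100 * T * (x / L)) (hS' : S' ≤ η / 100 * T * (x / L))
    (k3 : O - η / 50 * T + T * ((1 / 2 - η / 3) * L) ≤ Q) :
    x / L ^ 2 * ((1 + (2 - η) / L) * O - (1 / 2 + η) * L * T) ≤ P := by
  have hL0 : 0 < L := by linarith
  have k1 : x / L ^ 2 * (1 + (2 - η) / L) * Q ≤ Λ * Q := mul_le_mul_of_nonneg_right hΛ1 hQ0
  have k2 : T * (F + X') ≤ T * ((1 + η / 4) * (x / L) + η / 100 * (x / L)) :=
    mul_le_mul_of_nonneg_left (by linarith) hT0
  have hmain0 : 0 ≤ x / L ^ 2 * (1 + (2 - η) / L) := by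
    have : 0 ≤ (2 - η) / L := div_nonneg (by linarith) hL0.le
    positivity
  have k4 := mul_le_mul_of_nonneg_left k3 hmain0
  have k5 : x / L ^ 2 * (1 + (2 - η) / L) * (O - η / 50 * T + T * ((1 / 2 - η / 3) * L)) =
      x / L ^ 2 * ((1 + (2 - η) / L) * O) +
        x / L ^ 2 * (1 + (2 - η) / L) * (T * ((1 / 2 - η / 3) * L - η / 50)) := by ring
  have k6 : x / L ^ 2 * (T * ((1 / 2 - η / 3) * L - η / 50)) ≤
      x / L ^ 2 * (1 + (2 - η) / L) * (T * ((1 / 2 - η / 3) * L - η / 50)) := by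
    refine mul_le_mul_of_nonneg_right ?_ ?_
    · have : 0 ≤ (2 - η) / L := div_nonneg (by linarith) hL0.le
      calc x / L ^ 2 = x / L ^ 2 * 1 := by ring
        _ ≤ _ := mul_le_mul_of_nonneg_left (by linarith) (by positivity)
    · refine mul_nonneg hT0 ?_
      have h1 : 1 / 6 * 110 ≤ (1 / 2 - η / 3) * L :=
        mul_le_mul (by linarith) hL10 (by norm_num) (by linarith)
      linarith
  have k7 : x / L ^ 2 * (T * ((1 / 2 - η / 3) * L - η / 50)) =
      T * (x / L) * (1 / 2 - η / 3 - η / 50 / L) := by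
    field_simp
  have k8 : η / 50 / L ≤ η / 100 := by
    rw [div_div, div_le_div_iff₀ (by positivity) (by norm_num)]
    exact mul_le_mul_of_nonneg_left (by linarith) hη.le
  have k9 : T * (x / L) * (1 / 2 - η / 3 - η / 100) ≤
      T * (x / L) * (1 / 2 - η / 3 - η / 50 / L) :=
    mul_le_mul_of_nonneg_left (by linarith) (by positivity)
  have k10 : x / L ^ 2 * ((1 + (2 - η) / L) * O - (1 / 2 + η) * L * T) =
      x / L ^ 2 * ((1 + (2 - η) / L) * O) - T * (x / L) * (1 / 2 + η) := by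
    field_simp
  rw [k10]
  have hTX : 0 ≤ η * (T * (x / L)) := by positivity
  have k11 : T * ((1 + η / 4) * (x / L) + η / 100 * (x / L)) =
      T * (x / L) * (1 + η / 4 + η / 100) := by ring
  have k12 : T * (x / L) * (1 / 2 - η / 3 - η / 100) - η / 100 * T * (x / L) -
      T * (x / L) * (1 + η / 4 + η / 100) - η / 100 * T * (x / L) =
      - (T * (x / L) * (1 / 2 + η)) + (37 / 100 + 1 / 150) * (η * (T * (x / L))) := by ring
  rw [k11] at k2
  rw [k5] at k4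
  rw [k7] at k6
  linarith

/-- the error of the blocks -/
lemma EM_small {η x L T S Q W E M : ℝ} {C V : ℕ} (hV : V = 3 * C + 12) (hη : 0 < η)
    (hηL : 100 ≤ η * L) (hL10 : 110 ≤ L) (hx0 : 0 < x) (hT0 : 0 ≤ T) (hQ0 : 0 ≤ Q)
    (hS0 : 0 ≤ S) (hW0 : 0 ≤ W) (hM3 : M ≤ L ^ 3)
    (hST : S ≤ L ^ C * T) (hWL : W ≤ L ^ 2) (hQup : Q ≤ T * L ^ (3 * C + 2))
    (hE : E = (x / L ^ V) * (2 * Q + S * (6 * W + W ^ 2))) : M * E ≤ η / 100 * T * (x / L) := by
  have hL0 : 0 < L := by linarith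
  have hL1 : 1 ≤ L := by linarith
  have h1 : 2 * Q + S * (6 * W + W ^ 2) ≤ T * L ^ (3 * C + 7) := by
    have h2 : S * (6 * W + W ^ 2) ≤ (L ^ C * T) * (6 * L ^ 2 + (L ^ 2) ^ 2) := by gcongr
    have h3 : L ^ C ≤ L ^ (3 * C) := pow_le_pow_right₀ hL1 (by omega)
    have h4 : L ^ C * (6 * L ^ 2 + (L ^ 2) ^ 2) ≤ L ^ (3 * C) * (6 * L ^ 2 + (L ^ 2) ^ 2) :=
      mul_le_mul_of_nonneg_right h3 (by positivity)
    have h5 : 2 * L ^ 2 + (6 * L ^ 2 + (L ^ 2) ^ 2) ≤ L ^ 7 := by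
      have h6 : 8 * L ^ 2 ≤ L ^ 2 * L ^ 2 := by
        refine mul_le_mul_of_nonneg_right ?_ (by positivity)
        nlinarith
      have h7 : 2 * L ^ 4 ≤ L ^ 3 * L ^ 4 := by
        have : (2 : ℝ) ≤ L ^ 3 := by
          calc (2 : ℝ) ≤ L := by linarith
            _ = L ^ 1 := (pow_one L).symm
            _ ≤ L ^ 3 := pow_le_pow_right₀ hL1 (by norm_num)
        exact mul_le_mul_of_nonneg_right this (by positivity)
      have e1 : L ^ 3 * L ^ 4 = L ^ 7 := by ring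
      have e2 : L ^ 2 * L ^ 2 = L ^ 4 := by ring
      have e3 : (L ^ 2) ^ 2 = L ^ 4 := by ring
      rw [e2] at h6
      rw [e1] at h7
      rw [e3]
      linarith
    have h6 := mul_le_mul_of_nonneg_left h4 hT0
    have h7 := mul_le_mul_of_nonneg_left h5 (show 0 ≤ T * L ^ (3 * C) by positivity)
    have e4 : L ^ (3 * C + 2) = L ^ (3 * C) * L ^ 2 := pow_add _ _ _
    have e5 : L ^ (3 * C + 7) = L ^ (3 * C) * L ^ 7 := pow_add _ _ _
    rw [e4] at hQup
    rw [e5]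
    linarith
  have hEle : E ≤ (x / L ^ V) * (T * L ^ (3 * C + 7)) := by
    rw [hE]
    exact mul_le_mul_of_nonneg_left h1 (by positivity)
  have hE0 : 0 ≤ E := by rw [hE]; positivity
  calc M * E ≤ L ^ 3 * ((x / L ^ V) * (T * L ^ (3 * C + 7))) :=
        mul_le_mul hM3 hEle hE0 (by positivity)
    _ = T * (x / L) * (1 / L) := by
        have e : L ^ V = L ^ 3 * L ^ (3 * C + 7) * L ^ 2 := by
          rw [hV, ← pow_add, ← pow_add]
          congr 1
          ring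
        rw [e]
        field_simp
    _ ≤ T * (x / L) * (η / 100) := by
        refine mul_le_mul_of_nonneg_left ?_ (by positivity)
        rw [div_le_div_iff₀ hL0 (by norm_num)]
        linarith
    _ = _ := by ring

/-- the upper bound of the quadratic form -/
lemma Q_up {C1 L T S : ℝ} {R H C : ℕ} {c : ℕ → ℝ} (hC1 : 0 < C1)
    (hSR1 : ∀ R k : ℕ, 1 ≤ k → |SR R k| ≤ C1 * (k : ℝ) ^ 2) (hLC : C1 + 1 ≤ L)
    (hT : T = ∑ a ∈ Icc 1 H, c a ^ 2) (hS : S = (∑ b ∈ Icc 1 H, |c b|) ^ 2)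
    (hST : S ≤ L ^ C * T) (hH : (H : ℝ) ≤ L ^ C) (hLL1 : H343.LL 0 R ≤ L) :
    QF R H c ≤ T * L ^ (3 * C + 2) := by
  have hL1 : 1 ≤ L := by linarith
  have hL0 : 0 < L := by linarith
  have hT0 : 0 ≤ T := by rw [hT]; exact sum_nonneg fun _ _ => sq_nonneg _
  have h1 := offd_sub_le H c (fun k => SR R k) (fun _ => 0) (C1 * (L ^ C) ^ 2)
    (by positivity) (fun k hk1 hk2 => by
      rw [sub_zero]
      refine (hSR1 R k hk1).trans ?_
      have h2 : (k : ℝ) ≤ L ^ C := le_trans (by exact_mod_cast hk2) hH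
      gcongr)
  have h0 : offd H c (fun _ => (0 : ℝ)) = 0 := by
    unfold offd
    simp
  rw [h0, sub_zero, ← hS] at h1
  have h2 := (le_abs_self _).trans h1
  have hLC' : 1 ≤ L ^ (3 * C) := one_le_pow₀ hL1
  have h3 : S * (C1 * (L ^ C) ^ 2) ≤ C1 * T * L ^ (3 * C) := by
    calc S * (C1 * (L ^ C) ^ 2) ≤ (L ^ C * T) * (C1 * (L ^ C) ^ 2) :=
          mul_le_mul_of_nonneg_right hST (by positivity)
      _ = _ := by
          rw [show 3 * C = C + (C + C) by ring, pow_add, pow_add]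
          ring
  have h4 : T * H343.LL 0 R ≤ T * L := mul_le_mul_of_nonneg_left hLL1 hT0
  have h5 : C1 * L ^ (3 * C) + L ≤ L ^ (3 * C + 2) := by
    calc C1 * L ^ (3 * C) + L ≤ C1 * (L * L ^ (3 * C)) + 1 * (L * L ^ (3 * C)) := by
          have : 1 * L ^ (3 * C) ≤ L * L ^ (3 * C) :=
            mul_le_mul_of_nonneg_right hL1 (by positivity)
          rw [one_mul] at this
          have h7 := mul_le_mul_of_nonneg_left this hC1.le
          have h8 : L * 1 ≤ L * L ^ (3 * C) := mul_le_mul_of_nonneg_left hLC' hL0.le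
          linarith
      _ = (C1 + 1) * (L * L ^ (3 * C)) := by ring
      _ ≤ L * (L * L ^ (3 * C)) := mul_le_mul_of_nonneg_right hLC (by positivity)
      _ = _ := by ring
  have h6 := mul_le_mul_of_nonneg_left h5 hT0
  have hQs := QF_split R H c
  rw [← hT] at hQs
  rw [hQs]
  calc T * H343.LL 0 R + offd H c (fun k => SR R k) ≤ T * L + C1 * T * L ^ (3 * C) := by
        linarith
    _ = T * (C1 * L ^ (3 * C) + L) := by ring
    _ ≤ _ := h6

/-- the tail of the singular series -/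
lemma tail_small {C2 L T S x η : ℝ} {R H C : ℕ} {c : ℕ → ℝ} (hC2 : 0 < C2) (hη : 0 < η)
    (hSR2 : ∀ R k : ℕ, 1 ≤ R → 1 ≤ k →
      |SR R k - Sing k| ≤ C2 * (k : ℝ) ^ 2 * (R : ℝ) ^ (-(1 / 4) : ℝ))
    (hR1 : 1 ≤ R) (hL1 : 1 ≤ L) (hx0 : 0 < x) (hT0 : 0 ≤ T)
    (hS : S = (∑ b ∈ Icc 1 H, |c b|) ^ 2)
    (hST : S ≤ L ^ C * T) (hH : (H : ℝ) ≤ L ^ C) (h4 : x ^ (1 / 4 : ℝ) / 2 ≤ R)
    (g8 : L ^ (3 * C) ≤ η / (100 * C2) * x ^ (1 / 16 : ℝ)) :
    |offd H c (fun k => SR R k) - offd H c Sing| ≤ η / 50 * T := by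
  have hR0 : (0 : ℝ) < R := by exact_mod_cast hR1
  have h1 := offd_sub_le H c (fun k => SR R k) Sing (C2 * (L ^ C) ^ 2 * (R : ℝ) ^ (-(1 / 4) : ℝ))
    (by positivity) (fun k hk1 hk2 => by
      refine (hSR2 R k hR1 hk1).trans ?_
      have h2 : (k : ℝ) ≤ L ^ C := le_trans (by exact_mod_cast hk2) hH
      gcongr)
  refine h1.trans ?_
  rw [← hS]
  have h3 : (R : ℝ) ^ (-(1 / 4) : ℝ) ≤ 2 * x ^ (-(1 / 16) : ℝ) := by
    calc (R : ℝ) ^ (-(1 / 4) : ℝ) ≤ (x ^ (1 / 4 : ℝ) / 2) ^ (-(1 / 4) : ℝ) :=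
          Real.rpow_le_rpow_of_nonpos (by positivity) h4 (by norm_num)
      _ = (x ^ (1 / 4 : ℝ)) ^ (-(1 / 4) : ℝ) * (1 / 2 : ℝ) ^ (-(1 / 4) : ℝ) := by
          rw [div_eq_mul_one_div, Real.mul_rpow (by positivity) (by norm_num)]
      _ = x ^ (-(1 / 16) : ℝ) * (2 : ℝ) ^ (1 / 4 : ℝ) := by
          rw [← Real.rpow_mul hx0.le]
          congr 1
          · congr 1
            norm_num
          · rw [one_div, Real.inv_rpow (by norm_num), ← Real.rpow_neg (by norm_num), neg_neg]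
      _ ≤ x ^ (-(1 / 16) : ℝ) * 2 := by
          refine mul_le_mul_of_nonneg_left ?_ (by positivity)
          calc (2 : ℝ) ^ (1 / 4 : ℝ) ≤ 2 ^ (1 : ℝ) :=
                Real.rpow_le_rpow_of_exponent_le (by norm_num) (by norm_num)
            _ = 2 := Real.rpow_one _
      _ = _ := by ring
  have h5 : x ^ (1 / 16 : ℝ) * x ^ (-(1 / 16) : ℝ) = 1 := by
    rw [← Real.rpow_add hx0]
    norm_num
  calc S * (C2 * (L ^ C) ^ 2 * (R : ℝ) ^ (-(1 / 4) : ℝ))
      ≤ (L ^ C * T) * (C2 * (L ^ C) ^ 2 * (2 * x ^ (-(1 / 16) : ℝ))) := by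
        refine mul_le_mul hST ?_ (by positivity) (by positivity)
        exact mul_le_mul_of_nonneg_left h3 (by positivity)
    _ = 2 * C2 * T * x ^ (-(1 / 16) : ℝ) * L ^ (3 * C) := by
        rw [show 3 * C = C + (C + C) by ring, pow_add, pow_add]
        ring
    _ ≤ 2 * C2 * T * x ^ (-(1 / 16) : ℝ) * (η / (100 * C2) * x ^ (1 / 16 : ℝ)) :=
        mul_le_mul_of_nonneg_left g8 (by positivity)
    _ = 2 * C2 * T * (η / (100 * C2)) * (x ^ (1 / 16 : ℝ) * x ^ (-(1 / 16) : ℝ)) := by ring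
    _ = η / 50 * T := by
        rw [h5]
        field_simp
        ring

theorem spectral (η : ℝ) (hη : 0 < η) (hη1 : η ≤ 1) (C : ℕ) : ∀ᶠ x : ℝ in atTop,
    ∀ H : ℕ, (H : ℝ) ≤ Real.log x ^ C → ∀ c : ℕ → ℝ,
      x / Real.log x ^ 2 * ((1 + (2 - η) / Real.log x) * offd H c Sing -
        (1 / 2 + η) * Real.log x * ∑ a ∈ Icc 1 H, c a ^ 2) ≤
      offd H c (fun d => (pi2N ⌊x⌋₊ d : ℝ)) := by
  obtain ⟨C0, hC0, hLL⟩ := H343.PhiSum.totient_upper
  obtain ⟨C1, hC1, hSR1⟩ := SR_le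
  obtain ⟨C2, hC2, hSR2⟩ := SR_sub
  set V : ℕ := 3 * C + 12 with hV
  set δ : ℝ := 1 / 2 - η / 4 with hδ
  have hδ0 : 1 / 4 ≤ δ := by rw [hδ]; linarith
  have hL : Tendsto Real.log atTop atTop := Real.tendsto_log_atTop
  filter_upwards [hL.eventually_ge_atTop (10 + 2 * C0 + C1 + 100 / η),
    bv_bound δ (1 / 2 - η / 8) (by linarith) (by rw [hδ]; linarith) (by linarith) V,
    pnt_block V, lam_sum η hη hη1, pi_upper (η / 4) (by positivity),
    log_pow_small V (η / 2) 1 (by positivity) one_pos,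
    log_pow_small (V + C) (1 / 2) (1 / 2) (by norm_num) (by norm_num),
    log_pow_small (3 * C) (1 / 16) (η / (100 * C2)) (by norm_num) (by positivity),
    log_pow_small (2 * C + 5) 1 (η / 100) one_pos (by positivity),
    log_pow_small 2 (1 / 2) (1 / 8) (by norm_num) (by norm_num),
    eventually_ge_atTop (10 ^ 8 : ℝ)] with x g1 hbv hpnt hlamsum hpi g6 g7 g8 g9 g10 g11 H hH c
  set L := Real.log x with hLd
  have hηi : 100 ≤ 100 / η := by
    rw [le_div_iff₀ hη]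
    nlinarith
  have hL10 : 110 ≤ L := by linarith
  have hL0 : 0 < L := by linarith
  have hL1 : 1 ≤ L := by linarith
  have hx0 : 0 < x := by linarith
  have hx1 : 1 ≤ x := by linarith
  rw [Real.rpow_one] at g9
  set T : ℝ := ∑ a ∈ Icc 1 H, c a ^ 2 with hT
  have hT0 : 0 ≤ T := sum_nonneg fun _ _ => sq_nonneg _
  set S : ℝ := (∑ b ∈ Icc 1 H, |c b|) ^ 2 with hS
  have hH0 : (0 : ℝ) ≤ H := Nat.cast_nonneg _
  have hS0 : 0 ≤ S := sq_nonneg _
  have hST : S ≤ L ^ C * T := by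
    refine (sq_sum_le H c).trans ?_
    exact mul_le_mul_of_nonneg_right hH hT0
  -- the numbers of blocks and the length
  set M : ℕ := ⌈L ^ 2⌉₊ with hM
  set N : ℕ := ⌊x / (M : ℕ)⌋₊ with hN
  have hM1 : L ^ 2 ≤ M := Nat.le_ceil _
  have hM2 : (M : ℝ) ≤ L ^ 2 + 1 := (Nat.ceil_lt_add_one (by positivity)).le
  have hLsq : 1 ≤ L ^ 2 := one_le_pow₀ hL1
  have hM0 : (0 : ℝ) < M := by linarith
  have hM3 : (M : ℝ) ≤ L ^ 3 := by nlinarith
  have hxh : x ^ (1 / 2 : ℝ) * x ^ (1 / 2 : ℝ) = x := by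
    rw [← Real.rpow_add hx0]
    norm_num
  have hxh4 : (10 ^ 4 : ℝ) ≤ x ^ (1 / 2 : ℝ) := by
    have h1 : ((10 ^ 8 : ℝ)) ^ (1 / 2 : ℝ) ≤ x ^ (1 / 2 : ℝ) :=
      Real.rpow_le_rpow (by norm_num) g11 (by norm_num)
    have e2 : ((10 ^ 8 : ℝ)) ^ (1 / 2 : ℝ) = 10 ^ 4 := by
      rw [← Real.sqrt_eq_rpow, show (10 ^ 8 : ℝ) = (10 ^ 4) ^ 2 by norm_num]
      exact Real.sqrt_sq (by norm_num)
    linarith
  have hden : 0 < 2 * L ^ 2 + 2 := by positivity
  have hlow : x ^ (1 / 2 : ℝ) ≤ x / (2 * L ^ 2 + 2) := by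
    rw [le_div_iff₀ hden]
    nlinarith
  have hN1 : x / (2 * L ^ 2 + 2) ≤ N := by
    have h1 : x / M - 1 < N := Nat.sub_one_lt_floor _
    have h2 : x / (L ^ 2 + 1) ≤ x / M := div_le_div_of_nonneg_left hx0.le hM0 hM2
    have h3 : x / (L ^ 2 + 1) = 2 * (x / (2 * L ^ 2 + 2)) := by
      have : (2 * L ^ 2 + 2) = 2 * (L ^ 2 + 1) := by ring
      rw [this]
      field_simp
    have h4 : 1 ≤ x / (2 * L ^ 2 + 2) := by linarith
    linarith
  have hN2 : (N : ℝ) ≤ x / M := Nat.floor_le (by positivity)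
  have hMN : ((M * N : ℕ) : ℝ) ≤ x := by
    push_cast
    calc (M : ℝ) * N ≤ M * (x / M) := mul_le_mul_of_nonneg_left hN2 hM0.le
      _ = x := by field_simp
  have hN4 : x ^ (1 / 2 : ℝ) ≤ N := hlow.trans hN1
  have hN0 : (0 : ℝ) < N := by linarith
  -- the heights
  have hhigh : ∀ j ≤ M, ((j * N : ℕ) : ℝ) ≤ x := by
    intro j hj
    refine le_trans ?_ hMN
    exact_mod_cast Nat.mul_le_mul_right N hj
  have hpos : ∀ j, 1 ≤ j → (N : ℝ) ≤ ((j * N : ℕ) : ℝ) := by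
    intro j hj
    exact_mod_cast Nat.le_mul_of_pos_left N hj
  -- the parameters
  set R : ℕ := ⌊x ^ δ⌋₊ with hR
  have hxδ : x ^ (1 / 4 : ℝ) ≤ x ^ δ := Real.rpow_le_rpow_of_exponent_le hx1 hδ0
  have hx4 : (100 : ℝ) ≤ x ^ (1 / 4 : ℝ) := by
    have h1 : ((10 ^ 8 : ℝ)) ^ (1 / 4 : ℝ) ≤ x ^ (1 / 4 : ℝ) :=
      Real.rpow_le_rpow (by norm_num) g11 (by norm_num)
    have e2 : ((10 ^ 8 : ℝ)) ^ (1 / 4 : ℝ) = 100 := by
      rw [show (10 ^ 8 : ℝ) = 100 ^ (4 : ℝ) by norm_num, ← Real.rpow_mul (by norm_num)]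
      norm_num
    linarith
  have hRle : (R : ℝ) ≤ x ^ δ := Nat.floor_le (by positivity)
  have hRge : x ^ δ / 2 ≤ R := by
    have h1 : x ^ δ - 1 < R := Nat.sub_one_lt_floor _
    linarith
  have hR50 : (50 : ℝ) ≤ R := by linarith
  have hR1 : 1 ≤ R := by
    have : (1 : ℝ) ≤ R := by linarith
    exact_mod_cast this
  have hR0 : (0 : ℝ) < R := by linarith
  have hlogRu : Real.log R ≤ L / 2 := by
    have h1 := Real.log_le_log hR0 hRle
    rw [Real.log_rpow hx0] at h1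
    have h2 : δ * L ≤ 1 / 2 * L := mul_le_mul_of_nonneg_right (by rw [hδ]; linarith) hL0.le
    linarith
  have hlogRl : (1 / 2 - η / 3) * L ≤ Real.log R := by
    have h1 := Real.log_le_log (show 0 < x ^ δ / 2 by positivity) hRge
    rw [Real.log_div (by positivity) (by norm_num), Real.log_rpow hx0] at h1
    have h2 : Real.log 2 ≤ 1 := by
      have := Real.log_two_lt_d9
      linarith
    have h3 : 100 ≤ η * L := by
      have h4 : 100 / η ≤ L := by linarith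
      rw [div_le_iff₀ hη] at h4
      linarith
    rw [hδ] at h1
    nlinarith
  have hLL1 : H343.LL 0 R ≤ L := by
    have := hLL R hR1
    linarith
  have hLL2 : (1 / 2 - η / 3) * L ≤ H343.LL 0 R := by
    have h1 := H343.PhiSum.totient_lower R hR1
    linarith
  set W : ℝ := H343.LL 0 R ^ 2 with hW
  have hW0 : 0 ≤ W := sq_nonneg _
  have hWL : W ≤ L ^ 2 := pow_le_pow_left₀ (LL_nonneg R) hLL1 2
  have hXV : 0 < x / L ^ V := by positivity
  have hR2 : (R : ℝ) ^ 2 ≤ x / L ^ V := by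
    have h1 : (R : ℝ) ^ 2 ≤ (x ^ δ) ^ 2 := pow_le_pow_left₀ hR0.le hRle 2
    refine h1.trans ?_
    rw [le_div_iff₀ (by positivity), ← Real.rpow_natCast (x ^ δ) 2, ← Real.rpow_mul hx0.le]
    have h2 : x ^ (δ * (2 : ℕ)) * x ^ (η / 2) = x := by
      rw [← Real.rpow_add hx0]
      have : δ * (2 : ℕ) + η / 2 = 1 := by
        rw [hδ]
        push_cast
        ring
      rw [this, Real.rpow_one]
    rw [one_mul] at g6
    calc x ^ (δ * (2 : ℕ)) * L ^ V ≤ x ^ (δ * (2 : ℕ)) * x ^ (η / 2) :=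
          mul_le_mul_of_nonneg_left g6 (by positivity)
      _ = x := h2
  have hR3 : ((H : ℝ) + 1) * R ≤ x / L ^ V := by
    rw [le_div_iff₀ (by positivity)]
    have h1 : (R : ℝ) ≤ x ^ (1 / 2 : ℝ) := by
      refine hRle.trans (Real.rpow_le_rpow_of_exponent_le hx1 ?_)
      rw [hδ]
      linarith
    have hLC : 1 ≤ L ^ C := one_le_pow₀ hL1
    have h2 : ((H : ℝ) + 1) ≤ 2 * L ^ C := by linarith
    calc ((H : ℝ) + 1) * R * L ^ V ≤ (2 * L ^ C) * x ^ (1 / 2 : ℝ) * L ^ V := by gcongr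
      _ = 2 * L ^ (V + C) * x ^ (1 / 2 : ℝ) := by rw [pow_add]; ring
      _ ≤ 2 * (1 / 2 * x ^ (1 / 2 : ℝ)) * x ^ (1 / 2 : ℝ) := by gcongr
      _ = x := by rw [show 2 * (1 / 2 * x ^ (1 / 2 : ℝ)) * x ^ (1 / 2 : ℝ) =
            x ^ (1 / 2 : ℝ) * x ^ (1 / 2 : ℝ) by ring, hxh]
  set lam : ℕ → ℝ := fun j => 1 / Real.log (((j + 1) * N : ℕ) : ℝ) with hlam
  have hlog1 : ∀ j, 1 ≤ Real.log (((j + 1) * N : ℕ) : ℝ) := by
    intro j
    have h1 : (10 ^ 4 : ℝ) ≤ (((j + 1) * N : ℕ) : ℝ) := by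
      have := hpos (j + 1) (by omega)
      linarith
    rw [Real.le_log_iff_exp_le (by linarith)]
    have := Real.exp_one_lt_d9
    linarith
  have hlam0 : ∀ j < M, 0 ≤ lam j := fun j _ => by
    have := hlog1 j
    positivity
  have hlam1 : ∀ j < M, lam j ≤ 1 := fun j _ => by
    have := hlog1 j
    rw [hlam]
    simp only
    rw [div_le_one (by linarith)]
    exact this
  set Q : ℝ := QF R H c with hQ
  have hQ0 : 0 ≤ Q := QF_nonneg R H c
  set E : ℝ := (x / L ^ V) * (2 * Q + S * (6 * W + W ^ 2)) with hE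
  have htot := total L x W S Q E M N R H c V lam (wt_le R) hW0 hlam0 hlam1 hx0 hL0 hQ hQ0 hS
    (by
      intro j hj ρ hρ
      rcases Nat.eq_zero_or_pos j with rfl | hj0
      · have : ∀ e ∈ Icc 1 R, |Er (0 * N) e (ρ e)| = 0 := by
          intro e _
          unfold Er piAP piN
          simp
        rw [sum_congr rfl this, sum_const_zero]
        exact hXV.le
      · refine hbv (j * N) ?_ (hhigh j hj) ρ hρ
        exact hN1.trans (hpos j hj0))
    (by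
      intro j hj
      have h1 := hpnt (j * N) (j * N + N) (by
        rcases Nat.eq_zero_or_pos j with rfl | hj0
        · exact Or.inl (Nat.zero_mul _)
        · exact Or.inr (hN4.trans (hpos j hj0))) (by
        rw [show j * N + N = (j + 1) * N by ring]
        exact hN4.trans (hpos (j + 1) (by omega))) (by omega) (by
        rw [show j * N + N = (j + 1) * N by ring]
        exact hhigh (j + 1) hj)
      have h2 : (((j * N + N : ℕ) : ℝ) - ((j * N : ℕ) : ℝ)) / Real.log ((j * N + N : ℕ) : ℝ) =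
          N * lam j := by
        rw [hlam]
        simp only
        rw [show j * N + N = (j + 1) * N by ring]
        push_cast
        ring
      rw [h2] at h1
      exact h1) hR3 hR2 hE
  -- the upper bound
  have hX1 : M * N ≤ ⌊x⌋₊ := Nat.le_floor hMN
  have hX2 : ⌊x⌋₊ ≤ M * N + M := by
    have h1 : x / M < N + 1 := Nat.lt_floor_add_one _
    have h2 : x < M * (N + 1) := by
      rw [div_lt_iff₀ hM0] at h1
      linarith
    have h3 : x < ((M * N + M : ℕ) : ℝ) := by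
      push_cast
      linarith
    exact ((Nat.floor_lt hx0.le).2 h3).le
  have hup := sq_upper (M * N) ⌊x⌋₊ M H c hX1 hX2
  -- the quadratic form
  have hQs := QF_split R H c
  rw [← hQ, ← hT] at hQs
  have htail : |offd H c (fun k => SR R k) - offd H c Sing| ≤ η / 50 * T :=
    tail_small hC2 hη hSR2 hR1 hL1 hx0 hT0 hS hST hH (by linarith) g8
  have hQup : Q ≤ T * L ^ (3 * C + 2) :=
    Q_up hC1 hSR1 (by linarith) hT hS hST hH hLL1
  have hηL : 100 ≤ η * L := by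
    have h4 : 100 / η ≤ L := by linarith
    rw [div_le_iff₀ hη] at h4
    linarith
  have hEM : M * E ≤ η / 100 * T * (x / L) :=
    EM_small hV hη hηL hL10 hx0 hT0 hQ0 hS0 hW0 hM3 hST hWL hQup hE
  have hsmall1 : (H : ℝ) ≤ η / 100 * (x / L) := by
    rw [← mul_div_assoc, le_div_iff₀ hL0]
    calc (H : ℝ) * L ≤ L ^ C * L := mul_le_mul_of_nonneg_right hH hL0.le
      _ = L ^ (C + 1) := by ring
      _ ≤ L ^ (2 * C + 5) := pow_le_pow_right₀ hL1 (by omega)
      _ ≤ _ := g9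
  have hsmall2 : S * (2 * H + M) ≤ η / 100 * T * (x / L) := by
    have h1 : 2 * (H : ℝ) + M ≤ L ^ (C + 4) := by
      have h2 : L ^ C ≤ L ^ (C + 3) := pow_le_pow_right₀ hL1 (by omega)
      have h3 : L ^ 3 ≤ L ^ (C + 3) := pow_le_pow_right₀ hL1 (by omega)
      calc 2 * (H : ℝ) + M ≤ 2 * L ^ (C + 3) + L ^ (C + 3) := by linarith
        _ = 3 * L ^ (C + 3) := by ring
        _ ≤ L * L ^ (C + 3) := mul_le_mul_of_nonneg_right (by linarith) (by positivity)
        _ = _ := by ring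
    calc S * (2 * H + M) ≤ (L ^ C * T) * L ^ (C + 4) := by gcongr
      _ = T * L ^ (2 * C + 5) / L := by
          have e : L ^ (2 * C + 5) = L ^ C * L ^ (C + 4) * L := by
            rw [← pow_add, ← pow_succ]
            congr 1
            ring
          rw [e, eq_div_iff hL0.ne']
          ring
      _ ≤ T * (η / 100 * x) / L := by gcongr
      _ = _ := by ring
  -- conclusion
  have k3 : offd H c Sing - η / 50 * T + T * ((1 / 2 - η / 3) * L) ≤ Q := by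
    have h1 := (abs_le.1 htail).1
    have h2 := mul_le_mul_of_nonneg_left hLL2 hT0
    rw [hQs]
    linarith
  exact final_arith hη hη1 hL10 hx0 hT0 hQ0 hlamsum htot hup hpi hsmall1 hEM hsmall2 k3

end Pool.Agent.T9h56.HL
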