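import Mathlib
import Pool.Agent.T9h56.HL.Main

/-! Sums over sets of shifts: a difference with the predicted number of pairs in every large set. -/

set_option autoImplicit false

open Finset Filter Topology

namespace Pool.Agent.T9h56.HL

open Pool.Agent.H442R2.KF

lemma sum_wt_div (R : ℕ) (hR : 1 ≤ R) : ∑ e ∈ Icc 1 R, wt R e / e = 1 := by
  have h := uh_wt R 1 (mem_Icc.2 ⟨le_rfl, hR⟩)
  unfold uh at h
  rw [filter_true_of_mem (fun e _ => one_dvd e)] at h
  rw [h]
  simp [mf]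

lemma sum_GR (R N b : ℕ) (hR : 1 ≤ R) :
    |∑ n ∈ Ioc 0 (0 + N), GR R (n + b) - N| ≤ ∑ e ∈ Icc 1 R, |wt R e| := by
  have h1 : ∑ n ∈ Ioc 0 (0 + N), GR R (n + b) =
      ∑ e ∈ Icc 1 R, wt R e * (((Ioc 0 (0 + N)).filter (fun n => e ∣ n + b)).card : ℝ) := by
    unfold GR
    rw [sum_comm]
    refine sum_congr rfl fun e _ => ?_
    rw [← sum_filter, sum_const, nsmul_eq_mul]
    ring
  have h2 : (N : ℝ) = ∑ e ∈ Icc 1 R, wt R e * (N / e) := by
    have h3 := sum_wt_div R hR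
    calc (N : ℝ) = N * ∑ e ∈ Icc 1 R, wt R e / e := by rw [h3, mul_one]
      _ = _ := by
          rw [mul_sum]
          exact sum_congr rfl fun e _ => by ring
  rw [h1]
  conv_lhs => rw [h2]
  rw [← sum_sub_distrib]
  refine (abs_sum_le_sum_abs _ _).trans (sum_le_sum fun e he => ?_)
  rw [mem_Icc] at he
  rw [← mul_sub, abs_mul]
  have h3 : (Ioc 0 (0 + N)).filter (fun n => e ∣ n + b) =
      (Ioc 0 (0 + N)).filter (fun n => n ≡ (e - 1) * b [MOD e]) := by
    refine filter_congr fun n _ => ?_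
    rw [Nat.modEq_iff_dvd]
    push_cast [Nat.cast_sub he.1]
    have e1 : ((e : ℤ) - 1) * b - n = e * b - (n + b) := by ring
    rw [e1]
    have e3 : (e ∣ n + b) ↔ (e : ℤ) ∣ (n : ℤ) + b := by exact_mod_cast Iff.rfl
    rw [e3]
    exact (dvd_sub_right (dvd_mul_right _ _)).symm
  rw [h3]
  calc |wt R e| * |(((Ioc 0 (0 + N)).filter (fun n => n ≡ (e - 1) * b [MOD e])).card : ℝ) - N / e|
      ≤ |wt R e| * 1 := mul_le_mul_of_nonneg_left (card_class 0 N e _ he.1) (abs_nonneg _)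
    _ = _ := mul_one _

/-- the quadratic form is at least the square of the sum of the coefficients -/
theorem QF_ge (R H : ℕ) (hR : 1 ≤ R) (c : ℕ → ℝ) : (∑ b ∈ Icc 1 H, c b) ^ 2 ≤ QF R H c := by
  by_contra hneg
  rw [not_le] at hneg
  set s : ℝ := ∑ b ∈ Icc 1 H, c b with hs
  set W : ℝ := ∑ e ∈ Icc 1 R, |wt R e| with hWdef
  have hW : ∀ e ∈ Icc 1 R, |wt R e| ≤ W := fun e he =>
    single_le_sum (f := fun e => |wt R e|) (fun _ _ => abs_nonneg _) he
  have hW0 : 0 ≤ W := sum_nonneg fun _ _ => abs_nonneg _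
  set A : ℝ := ∑ b ∈ Icc 1 H, |c b| with hA
  have hA0 : 0 ≤ A := sum_nonneg fun _ _ => abs_nonneg _
  set E : ℝ := A ^ 2 * (W * R) ^ 2 + 2 * |s| * (A * W) with hE
  obtain ⟨N, hN⟩ := exists_nat_gt (E / (s ^ 2 - QF R H c))
  have h1 := (abs_le.1 (S2_bound R H 0 N c W hW)).2
  have h2 : 0 ≤ ∑ n ∈ Ioc 0 (0 + N), ((∑ b ∈ Icc 1 H, c b * GR R (n + b)) - s) ^ 2 :=
    sum_nonneg fun _ _ => sq_nonneg _
  have h3 : ∑ n ∈ Ioc 0 (0 + N), ((∑ b ∈ Icc 1 H, c b * GR R (n + b)) - s) ^ 2 =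
      ∑ n ∈ Ioc 0 (0 + N), (∑ b ∈ Icc 1 H, c b * GR R (n + b)) ^ 2 -
        2 * s * ∑ b ∈ Icc 1 H, c b * ∑ n ∈ Ioc 0 (0 + N), GR R (n + b) + N * s ^ 2 := by
    have e1 : ∑ b ∈ Icc 1 H, c b * ∑ n ∈ Ioc 0 (0 + N), GR R (n + b) =
        ∑ n ∈ Ioc 0 (0 + N), ∑ b ∈ Icc 1 H, c b * GR R (n + b) := by
      rw [sum_comm]
      exact sum_congr rfl fun b _ => by rw [mul_sum]
    have e2 : (N : ℝ) * s ^ 2 = ∑ _n ∈ Ioc 0 (0 + N), s ^ 2 := by
      rw [sum_const, Nat.card_Ioc, nsmul_eq_mul]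
      simp
    rw [e1, e2, mul_sum, ← sum_sub_distrib, ← sum_add_distrib]
    refine sum_congr rfl fun n _ => ?_
    ring
  have h4 : |∑ b ∈ Icc 1 H, c b * ∑ n ∈ Ioc 0 (0 + N), GR R (n + b) - N * s| ≤ A * W := by
    have e1 : (N : ℝ) * s = ∑ b ∈ Icc 1 H, c b * N := by
      rw [hs, mul_sum]
      exact sum_congr rfl fun b _ => by ring
    rw [e1, ← sum_sub_distrib, hA, sum_mul]
    refine (abs_sum_le_sum_abs _ _).trans (sum_le_sum fun b _ => ?_)
    rw [← mul_sub, abs_mul]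
    exact mul_le_mul_of_nonneg_left (sum_GR R N b hR) (abs_nonneg _)
  set F : ℝ := ∑ b ∈ Icc 1 H, c b * ∑ n ∈ Ioc 0 (0 + N), GR R (n + b) with hF
  have h5 : -(2 * s * (F - N * s)) ≤ 2 * |s| * (A * W) := by
    calc -(2 * s * (F - N * s)) ≤ |2 * s * (F - N * s)| := neg_le_abs _
      _ = 2 * |s| * |F - N * s| := by
          rw [abs_mul, abs_mul, abs_two]
      _ ≤ _ := mul_le_mul_of_nonneg_left h4 (by positivity)
  have h6 : (N : ℝ) * (s ^ 2 - QF R H c) ≤ E := by
    rw [h3] at h2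
    nlinarith
  rw [div_lt_iff₀ (by linarith)] at hN
  linarith

/-- the coefficients of a set -/
noncomputable def ind (A : Finset ℕ) (a : ℕ) : ℝ := if a ∈ A then 1 else 0

lemma sum_ind (A : Finset ℕ) (H : ℕ) (hA : A ⊆ Icc 1 H) (f : ℕ → ℝ) :
    ∑ a ∈ Icc 1 H, ind A a * f a = ∑ a ∈ A, f a := by
  have h1 : ∑ a ∈ Icc 1 H, ind A a * f a = ∑ a ∈ Icc 1 H, if a ∈ A then f a else 0 := by
    refine sum_congr rfl fun a _ => ?_
    unfold ind
    split_ifs <;> ring
  rw [h1, ← sum_filter]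
  congr 1
  ext a
  rw [mem_filter]
  exact ⟨fun h => h.2, fun h => ⟨hA h, h⟩⟩

lemma offd_ind (A : Finset ℕ) (H : ℕ) (hA : A ⊆ Icc 1 H) (f : ℕ → ℝ) :
    offd H (ind A) f = ∑ a ∈ A, ∑ b ∈ A, if a = b then 0 else f ((a : ℤ) - b).natAbs := by
  unfold offd
  have h1 : ∀ a ∈ Icc 1 H, ∑ b ∈ Icc 1 H,
      (if a = b then 0 else ind A a * ind A b * f ((a : ℤ) - b).natAbs) =
      ind A a * ∑ b ∈ A, (if a = b then 0 else f ((a : ℤ) - b).natAbs) := by
    intro a _
    rw [← sum_ind A H hA, mul_sum]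
    refine sum_congr rfl fun b _ => ?_
    split_ifs <;> ring
  rw [sum_congr rfl h1, sum_ind A H hA]

lemma offd_mono (H : ℕ) (c : ℕ → ℝ) (hc : ∀ a, 0 ≤ c a) (f g : ℕ → ℝ)
    (h : ∀ a ∈ Icc 1 H, ∀ b ∈ Icc 1 H, a ≠ b → c a ≠ 0 → c b ≠ 0 →
      f ((a : ℤ) - b).natAbs ≤ g ((a : ℤ) - b).natAbs) : offd H c f ≤ offd H c g := by
  unfold offd
  refine sum_le_sum fun a ha => sum_le_sum fun b hb => ?_
  split_ifs with hab
  · exact le_rfl
  · by_cases h1 : c a = 0
    · rw [h1]; simp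
    by_cases h2 : c b = 0
    · rw [h2]; simp
    exact mul_le_mul_of_nonneg_left (h a ha b hb hab h1 h2) (mul_nonneg (hc a) (hc b))

lemma Sing_nonneg (k : ℕ) (hk : 1 ≤ k) : 0 ≤ Sing k := by
  unfold Sing
  split_ifs with he
  · have hk2 : 2 ≤ k := by
      obtain ⟨j, rfl⟩ := he
      omega
    rw [← Pool.Agent.TH891.SG.CT_pair hk2 he]
    exact Pool.Agent.H387R2.Uni.CT_nonneg _
  · exact le_rfl

/-- at most one pair of primes has a given odd difference -/
lemma pi2N_odd (X d : ℕ) (hd : ¬ Even d) : pi2N X d ≤ 1 := by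
  unfold pi2N
  rw [card_le_one]
  have key : ∀ p ∈ (Icc 1 X).filter (fun p : ℕ => p.Prime ∧ (p - d).Prime), p = d + 2 := by
    intro p hp
    rw [mem_filter] at hp
    have h2 := hp.2.2.two_le
    rcases hp.2.2.eq_two_or_odd' with h3 | h3
    · omega
    · exfalso
      have hodd : Odd d := Nat.not_even_iff_odd.1 hd
      have hev : Even p := by
        have : p = (p - d) + d := by omega
        rw [this]
        exact h3.add_odd hodd
      have hp2 : p = 2 := (hp.2.1.even_iff).1 hev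
      have hd0 : d = 0 := by omega
      rw [hd0] at hd
      exact hd (by simp)
  intro p hp q hq
  rw [key p hp, key q hq]

/-- the sum of the singular series over a set of shifts -/
theorem F_lower (κ : ℝ) (hκ : 0 < κ) (C : ℕ) : ∀ᶠ x : ℝ in atTop,
    ∀ H : ℕ, (H : ℝ) ≤ Real.log x ^ C → ∀ A : Finset ℕ, A ⊆ Icc 1 H →
      (A.card : ℝ) ^ 2 * (1 - κ) - κ * Real.log x * A.card ≤ offd H (ind A) Sing := by
  obtain ⟨C0, hC0, hLL⟩ := H343.PhiSum.totient_upper
  obtain ⟨C2, hC2, hSR2⟩ := SR_sub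
  have hL : Tendsto Real.log atTop atTop := Real.tendsto_log_atTop
  have h2 : ∀ᶠ L : ℝ in atTop, (8 * C + 4 : ℕ) * Real.log L + (C0 + 1) ≤ κ * L := by
    have h := (Real.isLittleO_log_id_atTop.bound
      (show (0 : ℝ) < κ / (2 * (8 * C + 4 : ℕ)) by positivity))
    filter_upwards [h, eventually_ge_atTop (max 1 (2 * (C0 + 1) / κ))] with L h3 h4
    have hL1 : 1 ≤ L := (le_max_left _ _).trans h4
    have hL2 : 2 * (C0 + 1) / κ ≤ L := (le_max_right _ _).trans h4
    rw [div_le_iff₀ hκ] at hL2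
    have h5 : ‖Real.log L‖ ≤ κ / (2 * (8 * C + 4 : ℕ)) * ‖L‖ := h3
    rw [Real.norm_of_nonneg (Real.log_nonneg hL1), Real.norm_of_nonneg (by linarith)] at h5
    have h6 : ((8 * C + 4 : ℕ) : ℝ) * Real.log L ≤
        (8 * C + 4 : ℕ) * (κ / (2 * (8 * C + 4 : ℕ)) * L) :=
      mul_le_mul_of_nonneg_left h5 (Nat.cast_nonneg _)
    have h7 : ((8 * C + 4 : ℕ) : ℝ) * (κ / (2 * (8 * C + 4 : ℕ)) * L) = κ / 2 * L := by
      have : ((8 * C + 4 : ℕ) : ℝ) ≠ 0 := by positivity
      field_simp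
    linarith
  filter_upwards [hL.eventually_ge_atTop (max 2 (C2 / κ)), hL.eventually h2]
    with x h3 h4 H hH A hA
  set L := Real.log x with hLd
  have hL2 : 2 ≤ L := (le_max_left _ _).trans h3
  have hL1 : 1 ≤ L := by linarith
  have hL0 : 0 < L := by linarith
  have hLC2 : C2 / κ ≤ L := (le_max_right _ _).trans h3
  set R : ℕ := ⌈L ^ (8 * C + 4)⌉₊ with hR
  have hRl : L ^ (8 * C + 4) ≤ R := Nat.le_ceil _
  have hpow1 : 1 ≤ L ^ (8 * C + 4) := one_le_pow₀ hL1
  have hRu : (R : ℝ) ≤ 2 * L ^ (8 * C + 4) := by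
    have := (Nat.ceil_lt_add_one (show 0 ≤ L ^ (8 * C + 4) by positivity)).le
    linarith
  have hR0 : (0 : ℝ) < R := by linarith
  have hR1 : 1 ≤ R := by exact_mod_cast (by linarith : (1 : ℝ) ≤ R)
  have hlogR : Real.log R ≤ (8 * C + 4 : ℕ) * Real.log L + 1 := by
    have h5 := Real.log_le_log hR0 hRu
    rw [Real.log_mul (by norm_num) (by positivity), Real.log_pow] at h5
    have := Real.log_two_lt_d9
    linarith
  have hLLR : H343.LL 0 R ≤ κ * L := by
    have := hLL R hR1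
    linarith
  have hQ := QF_ge R H hR1 (ind A)
  have hsum : ∑ b ∈ Icc 1 H, ind A b = A.card := by
    have := sum_ind A H hA (fun _ => 1)
    simpa using this
  have hsumabs : ∑ b ∈ Icc 1 H, |ind A b| = A.card := by
    rw [← hsum]
    refine sum_congr rfl fun b _ => ?_
    unfold ind
    split_ifs <;> simp
  have hsumsq : ∑ b ∈ Icc 1 H, ind A b ^ 2 = A.card := by
    rw [← hsum]
    refine sum_congr rfl fun b _ => ?_
    unfold ind
    split_ifs <;> simp
  rw [hsum, QF_split, hsumsq] at hQ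
  have htail := offd_sub_le H (ind A) (fun k => SR R k) Sing κ hκ.le (fun k hk1 hk2 => by
    refine (hSR2 R k hR1 hk1).trans ?_
    have hk3 : (k : ℝ) ≤ L ^ C := le_trans (by exact_mod_cast hk2) hH
    have hR4 : (R : ℝ) ^ (-(1 / 4) : ℝ) ≤ (L ^ (2 * C + 1))⁻¹ := by
      calc (R : ℝ) ^ (-(1 / 4) : ℝ) ≤ (L ^ (8 * C + 4)) ^ (-(1 / 4) : ℝ) :=
            Real.rpow_le_rpow_of_nonpos (by positivity) hRl (by norm_num)
        _ = (L ^ (2 * C + 1))⁻¹ := by
            rw [← Real.rpow_natCast L (8 * C + 4), ← Real.rpow_mul hL0.le, ← Real.rpow_natCast,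
              ← Real.rpow_neg hL0.le]
            congr 1
            push_cast
            ring
    calc C2 * (k : ℝ) ^ 2 * (R : ℝ) ^ (-(1 / 4) : ℝ) ≤ C2 * (L ^ C) ^ 2 * (L ^ (2 * C + 1))⁻¹ := by
          gcongr
      _ = C2 / L := by
          rw [show 2 * C + 1 = C + C + 1 by ring, pow_add, pow_add, pow_one]
          field_simp
      _ ≤ κ := by
          rw [div_le_iff₀ hL0]
          rw [div_le_iff₀ hκ] at hLC2
          linarith)
  rw [hsumabs] at htail
  have h5 := (abs_le.1 htail).2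
  have h6 : (A.card : ℝ) * H343.LL 0 R ≤ A.card * (κ * L) :=
    mul_le_mul_of_nonneg_left hLLR (Nat.cast_nonneg _)
  linarith

/-- Every large set of shifts has a difference with at least the predicted number of pairs. -/
theorem sets (η : ℝ) (hη : 0 < η) (hη1 : η ≤ 1) (C : ℕ) : ∀ᶠ x : ℝ in atTop,
    ∀ H : ℕ, (H : ℝ) ≤ Real.log x ^ C → ∀ A : Finset ℕ, A ⊆ Icc 1 H → ∀ ε : ℝ, ε ≤ 1 →
      (1 / 2 + η) * Real.log x ≤ (ε + (2 - η) / Real.log x) * A.card →
      ∃ a ∈ A, ∃ b ∈ A, b < a ∧ Even (a - b) ∧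
        (1 - ε) * (Sing (a - b) * x / Real.log x ^ 2) ≤ pi2N ⌊x⌋₊ (a - b) := by
  have hL : Tendsto Real.log atTop atTop := Real.tendsto_log_atTop
  filter_upwards [spectral (η / 4) (by positivity) (by linarith) C,
    F_lower (η / 100) (by positivity) C, hL.eventually_ge_atTop (100 / η),
    log_pow_small (C + 3) 1 (η / 100) one_pos (by positivity), eventually_ge_atTop (1 : ℝ)]
    with x h1 h2 h3 h4 h5 H hH A hA ε hε1 hε
  set L := Real.log x with hLd
  have hηi : 100 ≤ 100 / η := by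
    rw [le_div_iff₀ hη]
    nlinarith
  have hL100 : 100 ≤ L := by linarith
  have hηL : 100 ≤ η * L := by
    rw [div_le_iff₀ hη] at h3
    linarith
  have hL0 : 0 < L := by linarith
  have hx0 : 0 < x := by linarith
  rw [Real.rpow_one] at h4
  by_contra hcon
  push Not at hcon
  set m : ℝ := (A.card : ℝ) with hm
  have hm0 : 0 ≤ m := Nat.cast_nonneg _
  have hmH : m ≤ L ^ C := by
    refine le_trans ?_ hH
    have := card_le_card hA
    rw [Nat.card_Icc] at this
    have h6 : A.card ≤ H := by omega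
    rw [hm]
    exact_mod_cast h6
  have hsumsq : ∑ b ∈ Icc 1 H, ind A b ^ 2 = m := by
    have := sum_ind A H hA (fun _ => 1)
    simp only [mul_one, sum_const, nsmul_eq_mul, mul_one] at this
    rw [hm, ← this]
    refine sum_congr rfl fun b _ => ?_
    unfold ind
    split_ifs <;> simp
  have hsumabs : ∑ b ∈ Icc 1 H, |ind A b| = m := by
    rw [← hsumsq]
    refine sum_congr rfl fun b _ => ?_
    unfold ind
    split_ifs <;> simp
  have h6 := h1 H hH (ind A)
  rw [hsumsq] at h6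
  set F : ℝ := offd H (ind A) Sing with hF
  have hF1 := h2 H hH A hA
  rw [← hm, ← hF] at hF1
  -- the upper bound under the negation
  have h7 : offd H (ind A) (fun d => (pi2N ⌊x⌋₊ d : ℝ)) ≤
      offd H (ind A) (fun d => (1 - ε) * (Sing d * x / L ^ 2) + 1) := by
    have hind0 : ∀ a, 0 ≤ ind A a := fun a => by
      unfold ind
      split_ifs <;> norm_num
    refine offd_mono H _ hind0 _ _ fun a ha b hb hab h8 h9 => ?_
    have haA : a ∈ A := by
      by_contra h10
      exact h8 (by unfold ind; rw [if_neg h10])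
    have hbA : b ∈ A := by
      by_contra h10
      exact h9 (by unfold ind; rw [if_neg h10])
    have key : ∀ a ∈ A, ∀ b ∈ A, b < a → (pi2N ⌊x⌋₊ (a - b) : ℝ) ≤
        (1 - ε) * (Sing (a - b) * x / L ^ 2) + 1 := by
      intro a ha b hb hab
      by_cases he : Even (a - b)
      · have := hcon a ha b hb hab he
        linarith
      · have h10 := pi2N_odd ⌊x⌋₊ (a - b) he
        have h11 : (pi2N ⌊x⌋₊ (a - b) : ℝ) ≤ 1 := by exact_mod_cast h10
        have h12 : 0 ≤ (1 - ε) * (Sing (a - b) * x / L ^ 2) := by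
          have := Sing_nonneg (a - b) (by omega)
          have : 0 ≤ 1 - ε := by linarith
          positivity
        linarith
    rcases lt_or_gt_of_ne hab with h10 | h10
    · have e1 : ((a : ℤ) - b).natAbs = b - a := by omega
      rw [e1]
      exact key b hbA a haA h10
    · have e1 : ((a : ℤ) - b).natAbs = a - b := by omega
      rw [e1]
      exact key a haA b hbA h10
  have h8 : offd H (ind A) (fun d => (1 - ε) * (Sing d * x / L ^ 2) + 1) ≤
      (1 - ε) * (x / L ^ 2) * F + m ^ 2 := by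
    have h9 : offd H (ind A) (fun d => (1 - ε) * (Sing d * x / L ^ 2) + 1) =
        (1 - ε) * (x / L ^ 2) * F + offd H (ind A) (fun _ => 1) := by
      rw [hF]
      unfold offd
      rw [mul_sum, ← sum_add_distrib]
      refine sum_congr rfl fun a _ => ?_
      rw [mul_sum, ← sum_add_distrib]
      refine sum_congr rfl fun b _ => ?_
      split_ifs
      · ring
      · ring
    have h10 := offd_sub_le H (ind A) (fun _ => 1) (fun _ => 0) 1 zero_le_one
      (fun k _ _ => by norm_num)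
    have h0 : offd H (ind A) (fun _ => (0 : ℝ)) = 0 := by
      unfold offd
      simp
    rw [h0, sub_zero, hsumabs, mul_one] at h10
    have := (le_abs_self _).trans h10
    linarith
  have h9 := (h6.trans h7).trans h8
  -- contradiction
  have h10 : (ε + (2 - η / 4) / L) * F ≤ (1 / 2 + η / 4) * L * m + m ^ 2 * (L ^ 2 / x) := by
    have e1 : x / L ^ 2 * ((1 + (2 - η / 4) / L) * F - (1 / 2 + η / 4) * L * m) -
        ((1 - ε) * (x / L ^ 2) * F + m ^ 2) =
        x / L ^ 2 * ((ε + (2 - η / 4) / L) * F - (1 / 2 + η / 4) * L * m -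
          m ^ 2 * (L ^ 2 / x)) := by
      field_simp
      ring
    have e2 : x / L ^ 2 * ((ε + (2 - η / 4) / L) * F - (1 / 2 + η / 4) * L * m -
          m ^ 2 * (L ^ 2 / x)) ≤ 0 := by linarith
    have e3 : 0 < x / L ^ 2 := by positivity
    have e4 := nonpos_of_mul_nonpos_right e2 e3
    linarith
  set β : ℝ := ε + (2 - η / 4) / L with hβ
  have hβ1 : ε + (2 - η) / L ≤ β := by
    rw [hβ]
    have : (2 - η) / L ≤ (2 - η / 4) / L := div_le_div_of_nonneg_right (by linarith) hL0.le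
    linarith
  have hm1 : 0 < m := by
    rcases hm0.eq_or_lt with h11 | h11
    · rw [← h11, mul_zero] at hε
      have : 0 < (1 / 2 + η) * L := by positivity
      linarith
    · exact h11
  have hβm : (1 / 2 + η) * L ≤ β * m := hε.trans (mul_le_mul_of_nonneg_right hβ1 hm0)
  have hβ0 : 0 < β := by
    by_contra h11
    rw [not_lt] at h11
    have h12 : β * m ≤ 0 := mul_nonpos_of_nonpos_of_nonneg h11 hm0
    have : 0 < (1 / 2 + η) * L := by positivity
    linarith
  have hβ2 : β ≤ 2 := by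
    rw [hβ]
    have : (2 - η / 4) / L ≤ 1 := by
      rw [div_le_one hL0]
      linarith
    linarith
  have h11 : β * (m ^ 2 * (1 - η / 100) - η / 100 * L * m) ≤ β * F :=
    mul_le_mul_of_nonneg_left hF1 hβ0.le
  have h12 : m * (L ^ 2 / x) ≤ η / 100 := by
    rw [← mul_div_assoc, div_le_iff₀ hx0]
    calc m * L ^ 2 ≤ L ^ C * L ^ 2 := mul_le_mul_of_nonneg_right hmH (by positivity)
      _ = L ^ (C + 2) := by rw [pow_add]
      _ ≤ L ^ (C + 3) := pow_le_pow_right₀ (by linarith) (by omega)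
      _ ≤ _ := h4
  -- divide by `m`
  have h13 : β * (m * (1 - η / 100) - η / 100 * L) ≤ (1 / 2 + η / 4) * L + η / 100 := by
    have e1 : m * (β * (m * (1 - η / 100) - η / 100 * L)) ≤
        m * ((1 / 2 + η / 4) * L + η / 100) := by
      have e2 : m * (m * (L ^ 2 / x)) ≤ m * (η / 100) := mul_le_mul_of_nonneg_left h12 hm0
      linarith
    exact le_of_mul_le_mul_left e1 hm1
  have h14 : β * (η / 100 * L) ≤ 2 * (η / 100 * L) :=
    mul_le_mul_of_nonneg_right hβ2 (by positivity)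
  have h15 : (1 / 2 + η) * L * (1 - η / 100) ≤ β * m * (1 - η / 100) :=
    mul_le_mul_of_nonneg_right hβm (by linarith)
  have h16 : (1 / 2 + η) * L * (η / 100) ≤ 3 / 2 * L * (η / 100) := by
    refine mul_le_mul_of_nonneg_right ?_ (by positivity)
    exact mul_le_mul_of_nonneg_right (by linarith) hL0.le
  have h17 : 0 < η * L := by positivity
  linarith

end Pool.Agent.T9h56.HL
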