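import Mathlib
import Pool.Agent.T9h56.HL.Sets
import Pool.Agent.TH891.SG.Pr3

/-! The sieve upper bound for `π₂(x, d)` in the notation of this library. -/

set_option autoImplicit false

open Finset Filter Topology

namespace Pool.Agent.T9h56.HL

lemma adm_pair {d : ℕ} (hd : Even d) : Pool.Agent.H387R2.Uni.Adm {0, d} := by
  intro p hp
  rw [Pool.Agent.TH891.SG.nuT_pair hp]
  split_ifs with h7
  · exact hp.one_lt
  · rcases hp.eq_two_or_odd with h8 | h8
    · subst h8
      exact absurd (even_iff_two_dvd.1 hd) h7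
    · have := hp.two_le
      omega

lemma Sing_even {d : ℕ} (hd2 : 2 ≤ d) (hd : Even d) :
    Sing d = Pool.Agent.H387R2.Uni.CT {0, d} := by
  rw [Pool.Agent.TH891.SG.CT_pair hd2 hd]
  unfold Sing
  rw [if_pos hd]

lemma Sing_pos {d : ℕ} (hd2 : 2 ≤ d) (hd : Even d) : 0 < Sing d := by
  rw [Sing_even hd2 hd, Pool.Agent.TH891.SG.CT_pos_iff]
  exact adm_pair hd

/-- `π₂` is at most the number of the pairs `n`, `n + d` -/
lemma pi2N_le_pc (X d : ℕ) : pi2N X d ≤ Pool.Agent.TH891.SG.pc {0, d} X := by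
  classical
  unfold pi2N Pool.Agent.TH891.SG.pc
  apply card_le_card_of_injOn (fun p => p - d)
  · intro p hp
    rw [mem_coe, mem_filter, mem_Icc] at hp
    rw [mem_coe, mem_filter, mem_Icc]
    beta_reduce
    have h2 := hp.2.2.two_le
    refine ⟨⟨by omega, by omega⟩, ?_⟩
    intro s hs
    rw [mem_insert, mem_singleton] at hs
    rcases hs with hs | hs
    · rw [hs, add_zero]
      exact hp.2.2
    · rw [hs, Nat.sub_add_cancel (by omega)]
      exact hp.2.1
  · intro p hp q hq h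
    rw [mem_coe, mem_filter, mem_Icc] at hp hq
    have h2 := hp.2.2.two_le
    have h3 := hq.2.2.two_le
    beta_reduce at h
    omega

/-- sieve upper bound -/
theorem pi2N_upper : ∃ B : ℝ, 1 ≤ B ∧ ∀ C : ℕ, ∀ᶠ x : ℝ in atTop, ∀ d : ℕ, 2 ≤ d → Even d →
    (d : ℝ) ≤ Real.log x ^ C → (pi2N ⌊x⌋₊ d : ℝ) ≤ B * (Sing d * x / Real.log x ^ 2) := by
  classical
  obtain ⟨B, hB, hup⟩ := Pool.Agent.W218.TX.pi_upper 1
  refine ⟨max 1 (4 * B), le_max_left _ _, fun C => ?_⟩
  obtain ⟨N0, hN0⟩ := eventually_atTop.1 (hup ((C + 2 : ℕ) : ℝ))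
  have hL : Tendsto Real.log atTop atTop := Real.tendsto_log_atTop
  filter_upwards [hL.eventually_ge_atTop (2 ^ (C + 3)), eventually_ge_atTop ((N0 : ℝ) + 2)]
    with x h1 h2 d hd2 hd hdC
  set N : ℕ := ⌊x⌋₊ with hN
  have hx2 : 2 ≤ x := by
    have : (0 : ℝ) ≤ N0 := Nat.cast_nonneg _
    linarith
  have hNx : (N : ℝ) ≤ x := Nat.floor_le (by linarith)
  have hxN : x < N + 1 := Nat.lt_floor_add_one _
  have hNN0 : N0 ≤ N := Nat.le_floor (by linarith)
  have hN2 : (2 : ℝ) ≤ N := by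
    have : 2 ≤ N := Nat.le_floor (by exact_mod_cast hx2)
    exact_mod_cast this
  set L := Real.log x with hLd
  have hpow : (1 : ℝ) ≤ 2 ^ C := one_le_pow₀ (by norm_num)
  have h1' : 8 * (2 : ℝ) ^ C ≤ L := by
    have : (2 : ℝ) ^ (C + 3) = 8 * 2 ^ C := by ring
    linarith
  have hL8 : 8 ≤ L := by linarith
  have hlogN : L / 2 ≤ Real.log N := by
    have h3 : x ≤ N * N := by nlinarith
    have h4 : L ≤ Real.log (N * N) := Real.log_le_log (by linarith) h3
    rw [Real.log_mul (by linarith) (by linarith)] at h4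
    linarith
  have hlogN0 : 0 < Real.log N := by linarith
  have hS := Sing_pos hd2 hd
  have hT : Pool.Agent.H387R2.Uni.piT (({0, d} : Finset ℕ).image (· + 1)) N =
      Pool.Agent.TH891.SG.pc {0, d} N :=
    Pool.Agent.TH891.SG.piT_add (by simp) 1 N (adm_pair hd)
  have hcard : (({0, d} : Finset ℕ).image (· + 1)).card = 1 + 1 := by
    rw [card_image_of_injective _ (add_left_injective 1), card_pair (by omega)]
  have hb := hN0 N hNN0 (({0, d} : Finset ℕ).image (· + 1)) hcard (by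
    intro t ht
    rw [mem_image] at ht
    obtain ⟨s, hs, rfl⟩ := ht
    have hsd : s ≤ d := by
      rw [mem_insert, mem_singleton] at hs
      omega
    have h5 : ((s + 1 : ℕ) : ℝ) ≤ L ^ C + 1 := by
      have : (s : ℝ) ≤ d := by exact_mod_cast hsd
      push_cast
      linarith
    refine h5.trans ?_
    rw [Real.rpow_natCast]
    have h6 : L ^ C ≤ (2 * Real.log N) ^ C := pow_le_pow_left₀ (by linarith) (by linarith) C
    rw [mul_pow] at h6
    have h7 : (1 : ℝ) ≤ Real.log N := by linarith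
    have h8 : (1 : ℝ) ≤ Real.log N ^ C := one_le_pow₀ h7
    have h9 : (2 : ℝ) ^ C + 1 ≤ Real.log N ^ 2 := by nlinarith
    calc L ^ C + 1 ≤ 2 ^ C * Real.log N ^ C + Real.log N ^ C := by linarith
      _ = (2 ^ C + 1) * Real.log N ^ C := by ring
      _ ≤ Real.log N ^ 2 * Real.log N ^ C := mul_le_mul_of_nonneg_right h9 (by positivity)
      _ = Real.log N ^ (C + 2) := by ring)
  rw [hT, Pool.Agent.TH891.SG.CT_add, ← Sing_even hd2 hd] at hb
  have hle : (pi2N N d : ℝ) ≤ B * (N / Real.log N ^ (1 + 1) * Sing d) := by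
    refine le_trans ?_ hb
    exact_mod_cast pi2N_le_pc N d
  refine hle.trans ?_
  have h10 : (N : ℝ) / Real.log N ^ (1 + 1) ≤ 4 * (x / L ^ 2) := by
    rw [← mul_div_assoc, div_le_div_iff₀ (by positivity) (by positivity)]
    have h11 : L ^ 2 ≤ 4 * Real.log N ^ (1 + 1) := by
      have h12 : L ^ 2 ≤ (2 * Real.log N) ^ 2 := pow_le_pow_left₀ (by linarith) (by linarith) 2
      calc L ^ 2 ≤ (2 * Real.log N) ^ 2 := h12
        _ = 4 * Real.log N ^ (1 + 1) := by ring
    calc (N : ℝ) * L ^ 2 ≤ x * (4 * Real.log N ^ (1 + 1)) := by gcongr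
      _ = _ := by ring
  calc B * (N / Real.log N ^ (1 + 1) * Sing d) ≤ B * (4 * (x / L ^ 2) * Sing d) := by gcongr
    _ = (4 * B) * (Sing d * x / L ^ 2) := by ring
    _ ≤ max 1 (4 * B) * (Sing d * x / L ^ 2) := by
        apply mul_le_mul_of_nonneg_right (le_max_right _ _)
        positivity

end Pool.Agent.T9h56.HL
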