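import Mathlib
import Pool.Agent.T9h56.HL.SieveUp
import Pool.Agent.T9h56.HL.Cliq

/-! The weight of the good differences of a set of shifts. -/

set_option autoImplicit false

open Finset Filter Topology

namespace Pool.Agent.T9h56.HL

/-- two numbers with an even difference `d > 0` for which `π₂(x, d) ≥ (1 - ε) 𝔖(d) x / (log x)²` -/
def GoodPair (x ε : ℝ) (a b : ℕ) : Prop :=
  a ≠ b ∧ Even ((a : ℤ) - b).natAbs ∧
    (1 - ε) * (Sing ((a : ℤ) - b).natAbs * x / Real.log x ^ 2) ≤ (pi2N ⌊x⌋₊ ((a : ℤ) - b).natAbs : ℝ)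

lemma natAbs_comm (a b : ℕ) : ((a : ℤ) - b).natAbs = ((b : ℤ) - a).natAbs := by omega

lemma GoodPair_symm (x ε : ℝ) (a b : ℕ) (h : GoodPair x ε a b) : GoodPair x ε b a := by
  unfold GoodPair at h ⊢
  rw [natAbs_comm b a]
  exact ⟨fun h1 => h.1 h1.symm, h.2.1, h.2.2⟩

/-- the weight of the good pairs of a set -/
theorem edges : ∃ B : ℝ, 1 ≤ B ∧ ∀ C : ℕ, ∀ᶠ x : ℝ in atTop,
    ∀ H : ℕ, (H : ℝ) ≤ Real.log x ^ C → ∀ A : Finset ℕ, A ⊆ Icc 1 H → ∀ ε : ℝ, 0 < ε → ε ≤ 1 →
      8 * Real.log x ≤ ε * A.card →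
      ε * (A.card : ℝ) ^ 2 / 2 ≤ B * ∑ a ∈ A, ∑ b ∈ nbr (GoodPair x ε) A a, Sing ((a : ℤ) - b).natAbs := by
  classical
  obtain ⟨B, hB, hup⟩ := pi2N_upper
  refine ⟨B, hB, fun C => ?_⟩
  have hL : Tendsto Real.log atTop atTop := Real.tendsto_log_atTop
  filter_upwards [spectral 1 one_pos le_rfl C, F_lower (1 / 4) (by norm_num) C, hup C,
    hL.eventually_ge_atTop 4, log_pow_small (C + 3) 1 1 one_pos one_pos, eventually_ge_atTop (1 : ℝ)]
    with x h1 h2 h3 h4 h5 h6 H hH A hA ε hε0 hε1 hεA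
  set L := Real.log x with hLd
  have hL0 : 0 < L := by linarith
  have hx0 : 0 < x := by linarith
  rw [Real.rpow_one, one_mul] at h5
  set n : ℝ := (A.card : ℝ) with hn
  have hn0 : 0 ≤ n := Nat.cast_nonneg _
  have hnpos : 0 < n := by
    rcases hn0.eq_or_lt with h7 | h7
    · rw [← h7, mul_zero] at hεA
      linarith
    · exact h7
  have hnH : n ≤ L ^ C := by
    refine le_trans ?_ hH
    have := card_le_card hA
    rw [Nat.card_Icc] at this
    have h6 : A.card ≤ H := by omega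
    rw [hn]
    exact_mod_cast h6
  have hsumsq : ∑ b ∈ Icc 1 H, ind A b ^ 2 = n := by
    have := sum_ind A H hA (fun _ => 1)
    simp only [mul_one, sum_const, nsmul_eq_mul, mul_one] at this
    rw [hn, ← this]
    refine sum_congr rfl fun b _ => ?_
    unfold ind
    split_ifs <;> simp
  have h7 := h1 H hH (ind A)
  rw [hsumsq] at h7
  set F : ℝ := offd H (ind A) Sing with hF
  have hF1 := h2 H hH A hA
  rw [← hn, ← hF] at hF1
  set W : ℝ := ∑ a ∈ A, ∑ b ∈ nbr (GoodPair x ε) A a, Sing ((a : ℤ) - b).natAbs with hW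
  have hSn : ∀ a b : ℕ, a ≠ b → 0 ≤ Sing ((a : ℤ) - b).natAbs := fun a b hab =>
    Sing_nonneg _ (by omega)
  have hF0 : 0 ≤ F := by
    rw [hF, offd_ind A H hA]
    refine sum_nonneg fun a _ => sum_nonneg fun b _ => ?_
    split_ifs with hab
    · exact le_rfl
    · exact hSn a b hab
  have hWe : W = ∑ a ∈ A, ∑ b ∈ A, if GoodPair x ε a b then Sing ((a : ℤ) - b).natAbs else 0 := by
    rw [hW]
    refine sum_congr rfl fun a _ => ?_
    unfold nbr
    rw [sum_filter]
  have h8 : offd H (ind A) (fun d => (pi2N ⌊x⌋₊ d : ℝ)) ≤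
      (1 - ε) * (x / L ^ 2) * F + n ^ 2 + B * (x / L ^ 2) * W := by
    rw [offd_ind A H hA, hF, offd_ind A H hA, hWe]
    have e1 : (n ^ 2 : ℝ) = ∑ _a ∈ A, ∑ _b ∈ A, (1 : ℝ) := by
      simp only [sum_const, nsmul_eq_mul, mul_one]
      rw [hn]
      ring
    rw [e1, mul_sum, mul_sum, ← sum_add_distrib, ← sum_add_distrib]
    refine sum_le_sum fun a ha => ?_
    rw [mul_sum, mul_sum, ← sum_add_distrib, ← sum_add_distrib]
    refine sum_le_sum fun b hb => ?_
    have hxL : 0 < x / L ^ 2 := by positivity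
    by_cases hab : a = b
    · rw [if_pos hab, if_pos hab, mul_zero]
      split_ifs with hg
      · exact absurd hab hg.1
      · linarith
    · rw [if_neg hab, if_neg hab]
      have hs := hSn a b hab
      have hd1 : 1 ≤ ((a : ℤ) - b).natAbs := by omega
      have hdC : (((a : ℤ) - b).natAbs : ℝ) ≤ L ^ C := by
        refine le_trans ?_ hH
        have ha' := mem_Icc.1 (hA ha)
        have hb' := mem_Icc.1 (hA hb)
        have : ((a : ℤ) - b).natAbs ≤ H := by omega
        exact_mod_cast this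
      set d := ((a : ℤ) - b).natAbs with hd
      have e2 : Sing d * x / L ^ 2 = x / L ^ 2 * Sing d := by ring
      by_cases he : Even d
      · have hd2 : 2 ≤ d := by
          obtain ⟨j, hj⟩ := he
          omega
        split_ifs with hg
        · have := h3 d hd2 he hdC
          rw [e2] at this
          have h9 : 0 ≤ (1 - ε) * (x / L ^ 2) * Sing d := by
            have : 0 ≤ 1 - ε := by linarith
            positivity
          calc (pi2N ⌊x⌋₊ d : ℝ) ≤ B * (x / L ^ 2 * Sing d) := this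
            _ ≤ _ := by linarith
        · have h9 : (pi2N ⌊x⌋₊ d : ℝ) < (1 - ε) * (Sing d * x / L ^ 2) := by
            by_contra h10
            rw [not_lt] at h10
            exact hg ⟨hab, he, h10⟩
          rw [e2] at h9
          calc (pi2N ⌊x⌋₊ d : ℝ) ≤ (1 - ε) * (x / L ^ 2 * Sing d) := h9.le
            _ ≤ _ := by linarith
      · have h10 : (pi2N ⌊x⌋₊ d : ℝ) ≤ 1 := by exact_mod_cast pi2N_odd ⌊x⌋₊ d he
        rw [if_neg (fun hg : GoodPair x ε a b => he hg.2.1), mul_zero, add_zero]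
        have h9 : 0 ≤ (1 - ε) * (x / L ^ 2) * Sing d := by
          have : 0 ≤ 1 - ε := by linarith
          positivity
        linarith
  have h9 := h7.trans h8
  have h10 : ε * F ≤ 3 / 2 * L * n + n ^ 2 * (L ^ 2 / x) + B * W := by
    have e1 : x / L ^ 2 * ((1 + (2 - 1) / L) * F - (1 / 2 + 1) * L * n) -
        ((1 - ε) * (x / L ^ 2) * F + n ^ 2 + B * (x / L ^ 2) * W) =
        x / L ^ 2 * ((ε + 1 / L) * F - 3 / 2 * L * n - n ^ 2 * (L ^ 2 / x) - B * W) := by
      field_simp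
      ring
    have e2 : x / L ^ 2 * ((ε + 1 / L) * F - 3 / 2 * L * n - n ^ 2 * (L ^ 2 / x) - B * W) ≤ 0 := by
      linarith
    have e3 : 0 < x / L ^ 2 := by positivity
    have e4 := nonpos_of_mul_nonpos_right e2 e3
    have e5 : 0 ≤ 1 / L * F := by positivity
    linarith
  have h12 : n * (L ^ 2 / x) ≤ 1 := by
    rw [← mul_div_assoc, div_le_iff₀ hx0]
    calc n * L ^ 2 ≤ L ^ C * L ^ 2 := mul_le_mul_of_nonneg_right hnH (by positivity)
      _ = L ^ (C + 2) := by rw [pow_add]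
      _ ≤ L ^ (C + 3) := pow_le_pow_right₀ (by linarith) (by omega)
      _ ≤ _ := by linarith
  have h13 : n ^ 2 * (L ^ 2 / x) ≤ n := by
    calc n ^ 2 * (L ^ 2 / x) = n * (n * (L ^ 2 / x)) := by ring
      _ ≤ n * 1 := mul_le_mul_of_nonneg_left h12 hn0
      _ = n := mul_one n
  have h14 : ε * (n ^ 2 * (1 - 1 / 4) - 1 / 4 * L * n) ≤ ε * F := mul_le_mul_of_nonneg_left hF1 hε0.le
  have h15 : 8 * L * n ≤ ε * n * n := mul_le_mul_of_nonneg_right hεA hn0
  have h16 : ε * (L * n) ≤ 1 * (L * n) := mul_le_mul_of_nonneg_right hε1 (by positivity)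
  have h17 : 4 * n ≤ L * n := mul_le_mul_of_nonneg_right h4 hn0
  nlinarith

end Pool.Agent.T9h56.HL
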