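import Mathlib
import Pool.Agent.T9h56.HL.SieveUp
import Pool.Agent.Erdos456.Mertens

/-! Bounds for the singular series: pointwise and in mean square. -/

set_option autoImplicit false

open Finset Filter Topology

namespace Pool.Agent.T9h56.HL

/-- `𝔖(d) ≤ C₀ log N` for `1 ≤ d ≤ 2 ^ N` -/
theorem Sing_log : ∃ C0 : ℝ, 1 ≤ C0 ∧ ∀ N : ℕ, 3 ≤ N → ∀ d : ℕ, 1 ≤ d → d ≤ 2 ^ N →
    Sing d ≤ C0 * Real.log N := by
  classical
  obtain ⟨C, hC⟩ := Pool.Agent.Erdos456.Mert.mertens_inv
  have hs : Summable (fun n : ℕ => 1 / (n : ℝ) ^ 2) := Real.summable_one_div_nat_pow.2 (by norm_num)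
  set Z : ℝ := ∑' n : ℕ, 1 / (n : ℝ) ^ 2 with hZ
  have hZ0 : 0 ≤ Z := tsum_nonneg fun n => by positivity
  set C2 : ℝ := Pool.Agent.TH891.SG.C2 with hC2
  refine ⟨max 1 (2 * |C2| * Real.exp (C + 1 + 6 * Z)), le_max_left _ _, fun N hN d hd hdN => ?_⟩
  have hN3 : (3 : ℝ) ≤ N := by exact_mod_cast hN
  have hlogN : 1 ≤ Real.log N := by
    rw [Real.le_log_iff_exp_le (by linarith)]
    have := Real.exp_one_lt_d9
    linarith
  have hpos : 0 ≤ max 1 (2 * |C2| * Real.exp (C + 1 + 6 * Z)) * Real.log N := by positivity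
  unfold Sing
  split_ifs with he
  swap
  · exact hpos
  unfold Pool.Agent.TH891.SG.SP
  rw [← hC2]
  set Q : Finset ℕ := d.primeFactors.filter (fun p : ℕ => 2 < p) with hQ
  have hQp : ∀ p ∈ Q, p.Prime ∧ 3 ≤ p := fun p hp => by
    rw [hQ, mem_filter] at hp
    exact ⟨Nat.prime_of_mem_primeFactors hp.1, hp.2⟩
  -- the number of the primes
  have hcard : Q.card ≤ N := by
    have h1 : 2 ^ Q.card ≤ ∏ p ∈ Q, p := by
      rw [← prod_const]
      apply prod_le_prod' fun p hp => ?_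
      have := (hQp p hp).2
      omega
    have h2 : ∏ p ∈ Q, p ≤ d := by
      refine le_trans ?_ (Nat.le_of_dvd hd (Nat.prod_primeFactors_dvd d))
      apply prod_le_prod_of_subset_of_one_le' (filter_subset _ _)
      intro p hp _
      exact (Nat.prime_of_mem_primeFactors hp).one_le
    have h3 : 2 ^ Q.card ≤ 2 ^ N := h1.trans (h2.trans hdN)
    exact (Nat.pow_le_pow_iff_right (by norm_num)).1 h3
  have h1 : ∏ p ∈ Q, (((p : ℝ) - 1) / ((p : ℝ) - 2)) ≤ Real.exp (∑ p ∈ Q, (1 / (p : ℝ) + 6 * (1 / (p : ℝ) ^ 2))) := by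
    rw [Real.exp_sum]
    apply Finset.prod_le_prod
    · intro p hp
      have : (3 : ℝ) ≤ p := by exact_mod_cast (hQp p hp).2
      exact div_nonneg (by linarith) (by linarith)
    · intro p hp
      have h3 : (3 : ℝ) ≤ p := by exact_mod_cast (hQp p hp).2
      refine le_trans ?_ (Real.add_one_le_exp _)
      have h4 : 0 < (p : ℝ) - 2 := by linarith
      have h5 : 0 < (p : ℝ) := by linarith
      rw [div_le_iff₀ h4]
      have e : (1 / (p : ℝ) + 6 * (1 / (p : ℝ) ^ 2) + 1) * ((p : ℝ) - 2) =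
          (p - 1) + (4 * p - 12) / p ^ 2 := by
        field_simp
        ring
      rw [e]
      have : 0 ≤ (4 * (p : ℝ) - 12) / p ^ 2 := div_nonneg (by linarith) (by positivity)
      linarith
  have h2 : ∑ p ∈ Q, (1 / (p : ℝ) + 6 * (1 / (p : ℝ) ^ 2)) ≤ Real.log (Real.log N) + (C + 1 + 6 * Z) := by
    rw [sum_add_distrib, ← mul_sum]
    have h3 : ∑ p ∈ Q, 1 / (p : ℝ) ^ 2 ≤ Z := hs.sum_le_tsum Q (fun n _ => by positivity)
    have h4 : ∑ p ∈ Q, 1 / (p : ℝ) ≤ Real.log (Real.log N) + C + 1 := by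
      rw [← sum_filter_add_sum_filter_not Q (fun p => p ≤ N)]
      have h5 : ∑ p ∈ Q.filter (fun p => p ≤ N), 1 / (p : ℝ) ≤
          ∑ p ∈ (Finset.Icc 1 N).filter Nat.Prime, (1 : ℝ) / p := by
        apply sum_le_sum_of_subset_of_nonneg
        · intro p hp
          rw [mem_filter] at hp
          rw [mem_filter, mem_Icc]
          have := hQp p hp.1
          exact ⟨⟨by omega, hp.2⟩, this.1⟩
        · intro p _ _
          positivity
      have h6 := (abs_le.1 (hC N hN)).2
      have h7 : ∑ p ∈ Q.filter (fun p => ¬ p ≤ N), 1 / (p : ℝ) ≤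
          (Q.filter (fun p => ¬ p ≤ N)).card • (1 / (N : ℝ)) := by
        apply sum_le_card_nsmul
        intro p hp
        rw [mem_filter, not_le] at hp
        apply one_div_le_one_div_of_le (by linarith)
        exact_mod_cast hp.2.le
      rw [nsmul_eq_mul] at h7
      have h8 : ((Q.filter (fun p => ¬ p ≤ N)).card : ℝ) ≤ N := by
        exact_mod_cast (card_le_card (filter_subset _ _)).trans hcard
      have h9 : ((Q.filter (fun p => ¬ p ≤ N)).card : ℝ) * (1 / (N : ℝ)) ≤ 1 := by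
        rw [mul_one_div, div_le_one (by linarith)]
        exact h8
      linarith
    linarith
  have h3 : Real.exp (∑ p ∈ Q, (1 / (p : ℝ) + 6 * (1 / (p : ℝ) ^ 2))) ≤
      Real.log N * Real.exp (C + 1 + 6 * Z) := by
    refine (Real.exp_le_exp.2 h2).trans (le_of_eq ?_)
    rw [Real.exp_add, Real.exp_log (by linarith)]
  calc 2 * C2 * ∏ p ∈ Q, (((p : ℝ) - 1) / ((p : ℝ) - 2))
      ≤ 2 * |C2| * ∏ p ∈ Q, (((p : ℝ) - 1) / ((p : ℝ) - 2)) := by
        apply mul_le_mul_of_nonneg_right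
        · have := le_abs_self C2
          linarith
        · apply prod_nonneg
          intro p hp
          have : (3 : ℝ) ≤ p := by exact_mod_cast (hQp p hp).2
          exact div_nonneg (by linarith) (by linarith)
    _ ≤ 2 * |C2| * (Real.log N * Real.exp (C + 1 + 6 * Z)) :=
        mul_le_mul_of_nonneg_left (h1.trans h3) (by positivity)
    _ = 2 * |C2| * Real.exp (C + 1 + 6 * Z) * Real.log N := by ring
    _ ≤ max 1 (2 * |C2| * Real.exp (C + 1 + 6 * Z)) * Real.log N :=
        mul_le_mul_of_nonneg_right (le_max_right _ _) (by linarith)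

/-- the singular series in mean square -/
theorem Sing_sq : ∃ C2 : ℝ, 1 ≤ C2 ∧ ∀ H : ℕ,
    ∑ a ∈ Icc 1 H, ∑ b ∈ Icc 1 H, (if a = b then 0 else Sing ((a : ℤ) - b).natAbs ^ 2) ≤
      C2 * (H : ℝ) ^ 2 := by
  classical
  obtain ⟨C, hC, hm⟩ := Pool.Agent.TH891.SG.CT_mom 1 2
  refine ⟨max 1 (8 * C), le_max_left _ _, fun H => ?_⟩
  rcases Nat.eq_zero_or_pos H with hH | hH
  · subst hH
    simp
  have hH1 : (1 : ℝ) ≤ H := by exact_mod_cast hH
  set U := Icc 1 H with hU
  -- the ordered pairs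
  set P : Finset (ℕ × ℕ) := (U ×ˢ U).filter (fun p => p.1 < p.2) with hP
  have h1 : ∑ p ∈ P, Sing (p.2 - p.1) ^ 2 ≤ C * ((H : ℝ) + 1) ^ 2 := by
    have h2 : ∀ p ∈ P, Sing (p.2 - p.1) ^ 2 ≤ Pool.Agent.H387R2.Uni.CT {p.1, p.2} ^ 2 := by
      intro p hp
      rw [hP, mem_filter] at hp
      have hlt := hp.2
      by_cases he : Even (p.2 - p.1)
      · have hd2 : 2 ≤ p.2 - p.1 := by
          obtain ⟨j, hj⟩ := he
          omega
        rw [Sing_even hd2 he, ← Pool.Agent.TH891.SG.CT_add {0, p.2 - p.1} p.1]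
        have e : (({0, p.2 - p.1} : Finset ℕ).image (· + p.1)) = {p.1, p.2} := by
          rw [image_insert, image_singleton, zero_add, Nat.sub_add_cancel hlt.le]
        rw [e]
      · unfold Sing
        rw [if_neg he]
        simp only [ne_eq, OfNat.ofNat_ne_zero, not_false_eq_true, zero_pow]
        positivity
    have hinj : Set.InjOn (fun p : ℕ × ℕ => ({p.1, p.2} : Finset ℕ)) (P : Set (ℕ × ℕ)) := by
      intro p hp q hq h
      rw [mem_coe, hP, mem_filter] at hp hq
      have h3 : ({p.1, p.2} : Finset ℕ) = {q.1, q.2} := h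
      have h4 : p.1 ∈ ({q.1, q.2} : Finset ℕ) := by rw [← h3]; simp
      have h5 : p.2 ∈ ({q.1, q.2} : Finset ℕ) := by rw [← h3]; simp
      rw [mem_insert, mem_singleton] at h4 h5
      have h6 := hp.2
      have h7 := hq.2
      have e1 : p.1 = q.1 := by omega
      have e2 : p.2 = q.2 := by omega
      exact Prod.ext e1 e2
    calc ∑ p ∈ P, Sing (p.2 - p.1) ^ 2 ≤ ∑ p ∈ P, Pool.Agent.H387R2.Uni.CT {p.1, p.2} ^ 2 := sum_le_sum h2
      _ = ∑ T ∈ P.image (fun p : ℕ × ℕ => ({p.1, p.2} : Finset ℕ)), Pool.Agent.H387R2.Uni.CT T ^ 2 := by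
          rw [sum_image hinj]
      _ ≤ ∑ T ∈ (range (H + 1)).powersetCard (1 + 1), Pool.Agent.H387R2.Uni.CT T ^ 2 := by
          apply sum_le_sum_of_subset_of_nonneg
          · intro T hT
            rw [mem_image] at hT
            obtain ⟨p, hp, rfl⟩ := hT
            rw [hP, mem_filter, mem_product, hU, mem_Icc, mem_Icc] at hp
            rw [mem_powersetCard]
            constructor
            · intro t ht
              rw [mem_insert, mem_singleton] at ht
              rw [mem_range]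
              omega
            · exact card_pair (by have := hp.2; omega)
          · intro T _ _
            positivity
      _ ≤ C * (((H + 1 : ℕ) : ℝ)) ^ (1 + 1) := hm (H + 1)
      _ = C * ((H : ℝ) + 1) ^ 2 := by push_cast; ring
  have h2 : ∑ a ∈ U, ∑ b ∈ U, (if a = b then 0 else Sing ((a : ℤ) - b).natAbs ^ 2) ≤
      2 * ∑ p ∈ P, Sing (p.2 - p.1) ^ 2 := by
    have h3 : ∑ p ∈ P, Sing (p.2 - p.1) ^ 2 = ∑ a ∈ U, ∑ b ∈ U, (if a < b then Sing (b - a) ^ 2 else 0) := by
      rw [hP, sum_filter, sum_product]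
    have h4 : ∑ a ∈ U, ∑ b ∈ U, (if a < b then Sing (b - a) ^ 2 else 0) =
        ∑ a ∈ U, ∑ b ∈ U, (if b < a then Sing (a - b) ^ 2 else 0) := by
      rw [sum_comm]
    rw [two_mul]
    nth_rewrite 2 [h3]
    rw [h3, h4, ← sum_add_distrib]
    apply le_of_eq
    have h5 : ∀ a ∈ U, ∑ b ∈ U, (if a = b then 0 else Sing ((a : ℤ) - b).natAbs ^ 2) =
        ∑ b ∈ U, (if b < a then Sing (a - b) ^ 2 else 0) + ∑ b ∈ U, (if a < b then Sing (b - a) ^ 2 else 0) := by
      intro a _
      rw [← sum_add_distrib]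
      refine sum_congr rfl fun b _ => ?_
      rcases lt_trichotomy a b with h | h | h
      · rw [if_neg (by omega), if_neg (by omega), if_pos h, zero_add]
        have e : ((a : ℤ) - b).natAbs = b - a := by omega
        rw [e]
      · rw [if_pos h, if_neg (by omega), if_neg (by omega), add_zero]
      · rw [if_neg (by omega), if_pos h, if_neg (by omega), add_zero]
        have e : ((a : ℤ) - b).natAbs = a - b := by omega
        rw [e]
    rw [sum_congr rfl h5, sum_add_distrib, sum_add_distrib, h4]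
  calc _ ≤ 2 * ∑ p ∈ P, Sing (p.2 - p.1) ^ 2 := h2
    _ ≤ 2 * (C * ((H : ℝ) + 1) ^ 2) := by linarith
    _ ≤ 2 * (C * (2 * H) ^ 2) := by
        apply mul_le_mul_of_nonneg_left _ (by norm_num)
        apply mul_le_mul_of_nonneg_left _ hC.le
        exact pow_le_pow_left₀ (by positivity) (by linarith) 2
    _ = 8 * C * (H : ℝ) ^ 2 := by ring
    _ ≤ max 1 (8 * C) * (H : ℝ) ^ 2 := mul_le_mul_of_nonneg_right (le_max_right _ _) (by positivity)

end Pool.Agent.T9h56.HL
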