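import Mathlib
import Pool.Agent.T9h56.HL.Edges
import Pool.Agent.T9h56.HL.SingBd

/-! Cliques of good differences. -/

set_option autoImplicit false

open Finset Filter Topology

namespace Pool.Agent.T9h56.HL

/-- the singular series of the differences of numbers `≤ (log x) ^ C` -/
theorem Sing_small : ∃ K : ℝ, 1 ≤ K ∧ ∀ C : ℕ, ∀ᶠ x : ℝ in atTop, ∀ d : ℕ, 1 ≤ d → (d : ℝ) ≤ Real.log x ^ C →
    Sing d ≤ K * Real.log (Real.log (Real.log x)) := by
  obtain ⟨C0, hC0, h⟩ := Sing_log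
  refine ⟨2 * C0, by linarith, fun C => ?_⟩
  have hL : Tendsto Real.log atTop atTop := Real.tendsto_log_atTop
  have hLL : Tendsto (fun x => Real.log (Real.log x)) atTop atTop := hL.comp hL
  filter_upwards [hLL.eventually_ge_atTop (2 * C + 4), hL.eventually_ge_atTop 1] with x h1 h2 d hd hdC
  set u := Real.log (Real.log x) with hu
  have hC : (0 : ℝ) ≤ C := Nat.cast_nonneg _
  have hu4 : 4 ≤ u := by linarith
  set N : ℕ := ⌊u ^ 2⌋₊ with hN
  have hNu : (N : ℝ) ≤ u ^ 2 := Nat.floor_le (by positivity)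
  have hNl : u ^ 2 - 1 < N := Nat.sub_one_lt_floor _
  have hN3 : 3 ≤ N := by
    have : (3 : ℝ) ≤ N := by nlinarith
    exact_mod_cast this
  have hL0 : 0 < Real.log x := by linarith
  have hd2 : d ≤ 2 ^ N := by
    have h3 : Real.log x ^ C ≤ (2 : ℝ) ^ N := by
      have h4 : Real.log (Real.log x ^ C) ≤ Real.log ((2 : ℝ) ^ N) := by
        rw [Real.log_pow, Real.log_pow, ← hu]
        have h5 := Real.log_two_gt_d9
        have h6 : (C : ℝ) * u ≤ (u ^ 2 - 1) * (1 / 2) := by nlinarith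
        have h7 : (u ^ 2 - 1) * (1 / 2) ≤ N * Real.log 2 := by
          have : (0 : ℝ) ≤ u ^ 2 - 1 := by nlinarith
          calc (u ^ 2 - 1) * (1 / 2) ≤ N * (1 / 2) := by linarith
            _ ≤ N * Real.log 2 := by
                apply mul_le_mul_of_nonneg_left (by linarith) (Nat.cast_nonneg _)
        linarith
      exact (Real.log_le_log_iff (by positivity) (by positivity)).1 h4
    have h4 : (d : ℝ) ≤ ((2 ^ N : ℕ) : ℝ) := by
      push_cast
      linarith
    exact_mod_cast h4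
  refine (h N hN3 d hd hd2).trans ?_
  have hN0 : (0 : ℝ) < N := by exact_mod_cast (by omega : 0 < N)
  have h3 : Real.log N ≤ 2 * Real.log u := by
    have := Real.log_le_log hN0 hNu
    rw [Real.log_pow] at this
    simpa using this
  calc C0 * Real.log N ≤ C0 * (2 * Real.log u) := mul_le_mul_of_nonneg_left h3 (by linarith)
    _ = 2 * C0 * Real.log u := by ring

/-- cliques in arbitrary sets -/
theorem clique_sets : ∃ K : ℝ, 1 ≤ K ∧ ∀ C : ℕ, ∀ᶠ x : ℝ in atTop, ∀ A : Finset ℕ,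
    (∀ a ∈ A, 1 ≤ a ∧ (a : ℝ) ≤ Real.log x ^ C) → ∀ S : ℝ, 1 ≤ S →
    ((∀ a ∈ A, ∀ b ∈ A, b < a → Sing (a - b) ≤ S) ∨ K * Real.log (Real.log (Real.log x)) ≤ S) →
    ∀ ε : ℝ, 0 < ε → ε ≤ 1 → ∀ m : ℕ, 1 ≤ m → (K * S / ε) ^ (m - 1) * Real.log x ≤ A.card →
      (ε / (K * S)) ^ (m.choose 2) * (A.card : ℝ) ^ m ≤ ((cliques (GoodPair x ε) A m).card : ℝ) := by
  classical
  obtain ⟨B, hB, he⟩ := edges
  obtain ⟨K0, hK0, hs⟩ := Sing_small
  refine ⟨max (8 * B) K0, (hK0).trans (le_max_right _ _), fun C => ?_⟩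
  set K : ℝ := max (8 * B) K0 with hK
  have hKB : 8 * B ≤ K := le_max_left _ _
  have hK8 : 8 ≤ K := by linarith
  have hL : Tendsto Real.log atTop atTop := Real.tendsto_log_atTop
  filter_upwards [he C, hs C, hL.eventually_ge_atTop 3, (hL.comp (hL.comp hL)).eventually_ge_atTop 1]
    with x h1 h2 h3 h4 A hA S hS1 hS ε hε0 hε1 m hm hcard
  set L := Real.log x with hLd
  have hL0 : 0 < L := by linarith
  have hS' : ∀ a ∈ A, ∀ b ∈ A, b < a → Sing (a - b) ≤ S := by
    rcases hS with hS | hS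
    · exact hS
    · intro a ha b hb hab
      have h5 : ((a - b : ℕ) : ℝ) ≤ L ^ C := by
        refine le_trans ?_ (hA a ha).2
        exact_mod_cast Nat.sub_le a b
      refine (h2 (a - b) (by omega) h5).trans (le_trans ?_ hS)
      apply mul_le_mul_of_nonneg_right (le_max_right _ _)
      have : 1 ≤ Real.log (Real.log L) := h4
      linarith
  have hS2 : ∀ a ∈ A, ∀ b ∈ A, a ≠ b → Sing ((a : ℤ) - b).natAbs ≤ S := by
    intro a ha b hb hab
    rcases lt_or_gt_of_ne hab with h | h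
    · have e : ((a : ℤ) - b).natAbs = b - a := by omega
      rw [e]
      exact hS' b hb a ha h
    · have e : ((a : ℤ) - b).natAbs = a - b := by omega
      rw [e]
      exact hS' a ha b hb h
  set H : ℕ := ⌊L ^ C⌋₊ with hH
  have hHL : (H : ℝ) ≤ L ^ C := Nat.floor_le (by positivity)
  have hAH : A ⊆ Icc 1 H := fun a ha => mem_Icc.2 ⟨(hA a ha).1, Nat.le_floor (hA a ha).2⟩
  set ρ : ℝ := ε / (4 * B * S) with hρ
  have hB0 : 0 < B := by linarith
  have hS0 : 0 < S := by linarith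
  have hρ0 : 0 < ρ := by positivity
  have hBS : 1 ≤ B * S := by nlinarith
  have hρ1 : ρ ≤ 1 := by
    rw [hρ, div_le_one (by positivity)]
    nlinarith
  obtain ⟨k, rfl⟩ : ∃ k, m = k + 1 := ⟨m - 1, by omega⟩
  rw [Nat.add_sub_cancel] at hcard
  have hmain := many_cliques (GoodPair x ε) (GoodPair_symm x ε) ρ (8 * L / ε) hρ0 hρ1 A (by
    intro A₀ hA₀ ht
    rw [div_le_iff₀ hε0] at ht
    have h5 := h1 H hHL A₀ (hA₀.trans hAH) ε hε0 hε1 (by linarith)
    have h6 : ∑ a ∈ A₀, ∑ b ∈ nbr (GoodPair x ε) A₀ a, Sing ((a : ℤ) - b).natAbs ≤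
        ∑ a ∈ A₀, ((nbr (GoodPair x ε) A₀ a).card : ℝ) * S := by
      refine sum_le_sum fun a ha => ?_
      rw [← nsmul_eq_mul]
      apply sum_le_card_nsmul
      intro b hb
      unfold nbr at hb
      rw [mem_filter] at hb
      exact hS2 a (hA₀ ha) b (hA₀ hb.1) hb.2.1
    rw [← sum_mul] at h6
    set D := ∑ a ∈ A₀, ((nbr (GoodPair x ε) A₀ a).card : ℝ) with hD
    have h7 : ε * (A₀.card : ℝ) ^ 2 / 2 ≤ B * (D * S) :=
      h5.trans (mul_le_mul_of_nonneg_left h6 hB0.le)
    rw [hρ]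
    have e : 2 * (ε / (4 * B * S)) * (A₀.card : ℝ) ^ 2 = (ε * (A₀.card : ℝ) ^ 2 / 2) / (B * S) := by
      field_simp
      ring
    rw [e, div_le_iff₀ (by positivity)]
    linarith) k A (Subset.refl _) (by
    rcases Nat.eq_zero_or_pos k with hk | hk
    · exact Or.inl hk
    · right
      obtain ⟨j, rfl⟩ : ∃ j, k = j + 1 := ⟨k - 1, by omega⟩
      rw [Nat.add_sub_cancel]
      have h5 : 1 ≤ ρ * (K * S / ε) := by
        have e : ρ * (K * S / ε) = K / (4 * B) := by
          rw [hρ]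
          field_simp
        rw [e, le_div_iff₀ (by positivity)]
        linarith
      have h6 : 1 ≤ (ρ * (K * S / ε)) ^ j := one_le_pow₀ h5
      have h7 : 8 / ε ≤ K * S / ε := by
        apply div_le_div_of_nonneg_right _ hε0.le
        nlinarith
      calc 8 * L / ε = 1 * (8 / ε * L) := by ring
        _ ≤ (ρ * (K * S / ε)) ^ j * (K * S / ε * L) := by
            apply mul_le_mul h6 _ (by positivity) (by positivity)
            exact mul_le_mul_of_nonneg_right h7 hL0.le
        _ = ρ ^ j * ((K * S / ε) ^ (j + 1) * L) := by ring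
        _ ≤ ρ ^ j * A.card := mul_le_mul_of_nonneg_left hcard (by positivity))
  refine le_trans ?_ hmain
  have e1 : (k + 1).choose 2 = k * (k + 1) / 2 := by
    rw [Nat.choose_two_right, Nat.add_sub_cancel, mul_comm]
  rw [e1]
  apply mul_le_mul_of_nonneg_right _ (by positivity)
  apply pow_le_pow_left₀ (by positivity)
  rw [hρ]
  apply div_le_div_of_nonneg_left hε0.le (by positivity)
  apply mul_le_mul_of_nonneg_right _ hS0.le
  linarith

/-- a clique gives a set -/
lemma exists_of_cliques (x ε : ℝ) (A : Finset ℕ) (m : ℕ) (h : 0 < (cliques (GoodPair x ε) A m).card) :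
    ∃ D ⊆ A, D.card = m ∧ ∀ a ∈ D, ∀ b ∈ D, a ≠ b → GoodPair x ε a b := by
  classical
  obtain ⟨v, hv⟩ := card_pos.1 h
  rw [mem_cliques] at hv
  have hinj : Function.Injective v := by
    intro i j hij
    by_contra hne
    exact (hv.2 i j hne).1 hij
  refine ⟨univ.image v, ?_, ?_, ?_⟩
  · intro a ha
    obtain ⟨i, _, rfl⟩ := mem_image.1 ha
    exact hv.1 i
  · rw [card_image_of_injective _ hinj, card_univ, Fintype.card_fin]
  · intro a ha b hb hab
    obtain ⟨i, _, rfl⟩ := mem_image.1 ha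
    obtain ⟨j, _, rfl⟩ := mem_image.1 hb
    exact hv.2 i j (fun h => hab (by rw [h]))

/-- a large clique at the precision of the question -/
theorem clique_large (η ε₀ : ℝ) (hη : 0 < η) (hε : 0 < ε₀) : ∀ᶠ x : ℝ in atTop,
    ∃ D : Finset ℕ, (∀ a ∈ D, 1 ≤ a ∧ (a : ℝ) ≤ Real.log x ^ 2) ∧
      (1 / 2 - η) * (Real.log (Real.log x) / Real.log (Real.log (Real.log x))) ≤ D.card ∧
      ∀ a ∈ D, ∀ b ∈ D, a ≠ b → GoodPair x (ε₀ / Real.log (Real.log x) ^ 2) a b := by
  classical
  rcases le_or_gt (1 / 2) η with hη2 | hη2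
  · have hL : Tendsto Real.log atTop atTop := Real.tendsto_log_atTop
    filter_upwards [(hL.comp hL).eventually_ge_atTop 1, (hL.comp (hL.comp hL)).eventually_ge_atTop 1]
      with x h1 h2
    refine ⟨∅, by simp, ?_, by simp⟩
    have h1' : 1 ≤ Real.log (Real.log x) := h1
    have h2' : 1 ≤ Real.log (Real.log (Real.log x)) := h2
    have h3 : 0 ≤ Real.log (Real.log x) / Real.log (Real.log (Real.log x)) :=
      div_nonneg (by linarith) (by linarith)
    simp only [card_empty, Nat.cast_zero]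
    exact mul_nonpos_of_nonpos_of_nonneg (by linarith) h3
  obtain ⟨K, hK, hcl⟩ := clique_sets
  have hL : Tendsto Real.log atTop atTop := Real.tendsto_log_atTop
  have hLL : Tendsto (fun x => Real.log (Real.log x)) atTop atTop := hL.comp hL
  have hLLL : Tendsto (fun x => Real.log (Real.log (Real.log x))) atTop atTop := hL.comp hLL
  have hlog1 : ∀ᶠ v : ℝ in atTop, Real.log v ≤ η * v := by
    filter_upwards [Real.isLittleO_log_id_atTop.bound hη, eventually_ge_atTop 1] with v h1 h2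
    rw [Real.norm_of_nonneg (Real.log_nonneg h2)] at h1
    simpa [abs_of_nonneg (by linarith : (0 : ℝ) ≤ v)] using h1
  filter_upwards [hcl 2, hL.eventually_ge_atTop 4, hLL.eventually_ge_atTop (max 1 (2 / η)),
    hLLL.eventually_ge_atTop (max 1 (Real.log (K ^ 2 / ε₀) / η)), hLLL.eventually hlog1,
    (hLL.eventually_ge_atTop (Real.sqrt ε₀))]
    with x h1 h2 h3 h4 h5 h6
  set L := Real.log x with hLd
  set u := Real.log L with hu
  set v := Real.log u with hv
  have hu1 : 1 ≤ u := (le_max_left _ _).trans h3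
  have huη : 2 / η ≤ u := (le_max_right _ _).trans h3
  have hv1 : 1 ≤ v := (le_max_left _ _).trans h4
  have hvη : Real.log (K ^ 2 / ε₀) / η ≤ v := (le_max_right _ _).trans h4
  have hL0 : 0 < L := by linarith
  have hu0 : 0 < u := by linarith
  have hv0 : 0 < v := by linarith
  rw [div_le_iff₀ hη] at huη hvη
  -- the precision
  set ε : ℝ := ε₀ / u ^ 2 with hεd
  have hεpos : 0 < ε := by positivity
  have hε1 : ε ≤ 1 := by
    rw [hεd, div_le_one (by positivity)]
    have := pow_le_pow_left₀ (Real.sqrt_nonneg ε₀) h6 2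
    rwa [Real.sq_sqrt hε.le] at this
  -- the size
  set q : ℝ := (1 / 2 - η) * (u / v) with hq
  have hq0 : 0 ≤ q := by
    have : 0 ≤ 1 / 2 - η := by linarith
    positivity
  set k : ℕ := ⌊q⌋₊ with hk
  have hkq : (k : ℝ) ≤ q := Nat.floor_le hq0
  have hqk : q < k + 1 := Nat.lt_floor_add_one _
  set A : Finset ℕ := Icc 1 ⌊L ^ 2⌋₊ with hA
  have hAc : (A.card : ℝ) = (⌊L ^ 2⌋₊ : ℝ) := by
    rw [hA, Nat.card_Icc, Nat.add_sub_cancel]
  have hAl : L ^ 2 - 1 < A.card := by
    rw [hAc]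
    exact Nat.sub_one_lt_floor _
  set S : ℝ := K * v with hS
  have hS1 : 1 ≤ S := by rw [hS]; nlinarith
  have hcond : (K * S / ε) ^ (k + 1 - 1) * L ≤ A.card := by
    rw [Nat.add_sub_cancel]
    have hbase : 1 ≤ K * S / ε := by
      rw [le_div_iff₀ hεpos]
      nlinarith
    have e1 : K * S / ε = (K ^ 2 / ε₀) * (v * u ^ 2) := by
      rw [hS, hεd]
      field_simp
    have hlog : Real.log (K * S / ε) ≤ (2 + 2 * η) * v := by
      rw [e1, Real.log_mul (by positivity) (by positivity), Real.log_mul (by positivity) (by positivity),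
        Real.log_pow, ← hv]
      push_cast
      linarith
    have h7 : (K * S / ε) ^ k ≤ L / 2 := by
      have h8 : Real.log ((K * S / ε) ^ k) ≤ Real.log (L / 2) := by
        rw [Real.log_pow, Real.log_div hL0.ne' (by norm_num), ← hu]
        have h9 : (k : ℝ) * Real.log (K * S / ε) ≤ q * ((2 + 2 * η) * v) :=
          mul_le_mul hkq hlog (Real.log_nonneg hbase) hq0
        have h10 : q * ((2 + 2 * η) * v) = (1 / 2 - η) * (2 + 2 * η) * u := by
          rw [hq]
          field_simp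
        have h11 : (1 / 2 - η) * (2 + 2 * η) * u ≤ (1 - η) * u := by
          apply mul_le_mul_of_nonneg_right _ hu0.le
          nlinarith
        have := Real.log_two_lt_d9
        nlinarith
      exact (Real.log_le_log_iff (by positivity) (by positivity)).1 h8
    calc (K * S / ε) ^ k * L ≤ L / 2 * L := mul_le_mul_of_nonneg_right h7 hL0.le
      _ ≤ L ^ 2 - 1 := by nlinarith
      _ ≤ A.card := hAl.le
  have hcount := h1 A (fun a ha => by
    rw [hA, mem_Icc] at ha
    refine ⟨ha.1, ?_⟩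
    exact le_trans (by exact_mod_cast ha.2) (Nat.floor_le (by positivity : (0 : ℝ) ≤ L ^ 2))) S hS1
    (Or.inr le_rfl) ε hεpos hε1 (k + 1) (by omega) hcond
  have hA0 : (0 : ℝ) < A.card := by nlinarith
  have hpos : (0 : ℝ) < ((cliques (GoodPair x ε) A (k + 1)).card : ℝ) :=
    lt_of_lt_of_le (by positivity) hcount
  obtain ⟨D, hDA, hDc, hD⟩ := exists_of_cliques x ε A (k + 1) (by exact_mod_cast hpos)
  refine ⟨D, fun a ha => ?_, ?_, hD⟩
  · have := hDA ha
    rw [hA, mem_Icc] at this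
    refine ⟨this.1, ?_⟩
    exact le_trans (by exact_mod_cast this.2) (Nat.floor_le (by positivity : (0 : ℝ) ≤ L ^ 2))
  · rw [hDc]
    push_cast
    exact hqk.le

lemma dense_aux (ε b n : ℝ) (hb : 0 < b) : ε ^ 2 / (4 * b) * n ^ 4 = (ε * n ^ 2 / 2) ^ 2 / b := by
  field_simp
  ring

/-- cliques in dense sets -/
theorem clique_dense : ∃ c : ℝ, 0 < c ∧ c ≤ 1 ∧ ∀ C : ℕ, ∀ᶠ x : ℝ in atTop, ∀ H : ℕ, 1 ≤ H →
    (H : ℝ) ≤ Real.log x ^ C → ∀ A : Finset ℕ, A ⊆ Icc 1 H → ∀ ε : ℝ, 0 < ε → ε ≤ 1 → ∀ m : ℕ, 1 ≤ m →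
      Real.log x ≤ (c * ε ^ 2 * (A.card / H)) ^ (4 ^ m) * H →
      (c * ε ^ 2 * (A.card / H)) ^ (4 ^ m) * (H : ℝ) ^ m ≤ ((cliques (GoodPair x ε) A m).card : ℝ) := by
  classical
  obtain ⟨B, hB, he⟩ := edges
  obtain ⟨C2, hC2, hsq⟩ := Sing_sq
  have hB0 : 0 < B := by linarith
  have hC20 : 0 < C2 := by linarith
  have hBC : 1 ≤ B ^ 2 * C2 := by
    have : 1 ≤ B ^ 2 := one_le_pow₀ hB
    nlinarith
  refine ⟨1 / (64 * (B ^ 2 * C2)), by positivity, by
    rw [div_le_one (by positivity)]; linarith, fun C => ?_⟩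
  set c : ℝ := 1 / (64 * (B ^ 2 * C2)) with hc
  have hc0 : 0 < c := by positivity
  have hc1 : c ≤ 1 / 64 := by
    rw [hc]
    apply one_div_le_one_div_of_le (by norm_num)
    linarith
  have hL : Tendsto Real.log atTop atTop := Real.tendsto_log_atTop
  filter_upwards [he C, hL.eventually_ge_atTop 3] with x h1 h3 H hH1 hHL A hA ε hε0 hε1 m hm hcond
  set L := Real.log x with hLd
  have hL0 : 0 < L := by linarith
  have hH0 : (0 : ℝ) < H := by exact_mod_cast hH1
  set κ : ℝ := ε ^ 2 / (4 * (B ^ 2 * C2)) with hκ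
  have hκ0 : 0 < κ := by positivity
  have hε2 : ε ^ 2 ≤ 1 := pow_le_one₀ hε0.le hε1
  have hκ1 : κ ≤ 1 := by
    rw [hκ, div_le_one (by positivity)]
    linarith
  obtain ⟨k, rfl⟩ : ∃ k, m = k + 1 := ⟨m - 1, by omega⟩
  set β : ℝ := (A.card : ℝ) / H with hβ
  have hβ0 : 0 ≤ β := by positivity
  have hβ1 : β ≤ 1 := by
    rw [hβ, div_le_one hH0]
    have := card_le_card hA
    rw [Nat.card_Icc, Nat.add_sub_cancel] at this
    exact_mod_cast this
  set θ : ℝ := c * ε ^ 2 * β with hθ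
  have hθ0 : 0 ≤ θ := by positivity
  have hθκ : θ ≤ κ / 2 * β := by
    rw [hθ]
    apply mul_le_mul_of_nonneg_right _ hβ0
    rw [hκ, hc]
    have e : ε ^ 2 / (4 * (B ^ 2 * C2)) / 2 = 8 * (1 / (64 * (B ^ 2 * C2)) * ε ^ 2) := by
      field_simp
      ring
    rw [e]
    have : 0 ≤ 1 / (64 * (B ^ 2 * C2)) * ε ^ 2 := by positivity
    linarith
  have hE1 : 1 ≤ 4 ^ (k + 1) := Nat.one_le_pow _ _ (by norm_num)
  have hθpos : 0 < θ := by
    rcases hθ0.eq_or_lt with h | h
    · rw [← h, zero_pow (by omega), zero_mul] at hcond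
      linarith
    · exact h
  have hθε : θ ≤ ε / 8 := by
    rw [hθ]
    calc c * ε ^ 2 * β ≤ c * ε ^ 2 * 1 := mul_le_mul_of_nonneg_left hβ1 (by positivity)
      _ = (c * ε) * ε := by ring
      _ ≤ (1 / 64 * 1) * ε := by
          apply mul_le_mul_of_nonneg_right _ hε0.le
          exact mul_le_mul hc1 hε1 hε0.le (by norm_num)
      _ ≤ ε / 8 := by linarith
  set E : ℕ → ℕ := fun j => 4 ^ (j + 1) - 1 with hE
  have hEk : 4 ^ (k + 1) = E k + 1 := by
    rw [hE]
    beta_reduce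
    omega
  rw [hEk] at hcond ⊢
  have hpowE : θ ^ E k ≤ (κ / 2 * β) ^ E k := pow_le_pow_left₀ hθ0 hθκ _
  have hmain := dense_cliques (GoodPair x ε) (GoodPair_symm x ε) κ (8 * L / ε) H hκ0 hκ1 hH0 E
    (by rw [hE]; norm_num) (by
      intro j
      rw [hE]
      beta_reduce
      have e : 4 ^ (j + 1 + 1) = 4 * 4 ^ (j + 1) := by ring
      have : 1 ≤ 4 ^ (j + 1) := Nat.one_le_pow _ _ (by norm_num)
      omega) (Icc 1 H) (by
      rw [Nat.card_Icc, Nat.add_sub_cancel]) (by
      intro A₀ hA₀ ht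
      rw [div_le_iff₀ hε0] at ht
      have h5 := h1 H hHL A₀ hA₀ ε hε0 hε1 (by linarith)
      set D := ∑ a ∈ A₀, ((nbr (GoodPair x ε) A₀ a).card : ℝ) with hD
      set W := ∑ a ∈ A₀, ∑ b ∈ nbr (GoodPair x ε) A₀ a, Sing ((a : ℤ) - b).natAbs with hW
      have hDe : D = ∑ p ∈ A₀.sigma (fun a => nbr (GoodPair x ε) A₀ a), (1 : ℝ) := by
        rw [hD, sum_sigma]
        simp
      have hWe : W = ∑ p ∈ A₀.sigma (fun a => nbr (GoodPair x ε) A₀ a), Sing ((p.1 : ℤ) - p.2).natAbs := by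
        rw [hW, sum_sigma]
      have hCS : W ^ 2 ≤ D * ∑ p ∈ A₀.sigma (fun a => nbr (GoodPair x ε) A₀ a),
          Sing ((p.1 : ℤ) - p.2).natAbs ^ 2 := by
        have := sum_mul_sq_le_sq_mul_sq (A₀.sigma (fun a => nbr (GoodPair x ε) A₀ a)) (fun _ => (1 : ℝ))
          (fun p => Sing ((p.1 : ℤ) - p.2).natAbs)
        simp only [one_mul, one_pow] at this
        rw [← hWe, ← hDe] at this
        exact this
      have hS2 : ∑ p ∈ A₀.sigma (fun a => nbr (GoodPair x ε) A₀ a), Sing ((p.1 : ℤ) - p.2).natAbs ^ 2 ≤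
          C2 * (H : ℝ) ^ 2 := by
        refine le_trans ?_ (hsq H)
        rw [sum_sigma]
        calc ∑ a ∈ A₀, ∑ b ∈ nbr (GoodPair x ε) A₀ a, Sing ((a : ℤ) - b).natAbs ^ 2
            ≤ ∑ a ∈ A₀, ∑ b ∈ Icc 1 H, (if a = b then 0 else Sing ((a : ℤ) - b).natAbs ^ 2) := by
              refine sum_le_sum fun a _ => ?_
              have e : ∑ b ∈ nbr (GoodPair x ε) A₀ a, Sing ((a : ℤ) - b).natAbs ^ 2 =
                  ∑ b ∈ nbr (GoodPair x ε) A₀ a, (if a = b then 0 else Sing ((a : ℤ) - b).natAbs ^ 2) := by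
                refine sum_congr rfl fun b hb => ?_
                unfold nbr at hb
                rw [mem_filter] at hb
                rw [if_neg hb.2.1]
              rw [e]
              apply sum_le_sum_of_subset_of_nonneg
              · exact (filter_subset _ _).trans hA₀
              · intro b _ _
                split_ifs <;> positivity
          _ ≤ ∑ a ∈ Icc 1 H, ∑ b ∈ Icc 1 H, (if a = b then 0 else Sing ((a : ℤ) - b).natAbs ^ 2) := by
              apply sum_le_sum_of_subset_of_nonneg hA₀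
              intro a _ _
              refine sum_nonneg fun b _ => ?_
              split_ifs <;> positivity
      have hD0 : 0 ≤ D := sum_nonneg fun _ _ => Nat.cast_nonneg _
      have h6 : (ε * (A₀.card : ℝ) ^ 2 / 2) ^ 2 ≤ B ^ 2 * (D * (C2 * (H : ℝ) ^ 2)) := by
        calc (ε * (A₀.card : ℝ) ^ 2 / 2) ^ 2 ≤ (B * W) ^ 2 :=
              pow_le_pow_left₀ (div_nonneg (mul_nonneg hε0.le (sq_nonneg _)) zero_le_two) h5 2
          _ = B ^ 2 * W ^ 2 := by ring
          _ ≤ B ^ 2 * (D * (C2 * (H : ℝ) ^ 2)) := by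
              apply mul_le_mul_of_nonneg_left _ (sq_nonneg B)
              exact hCS.trans (mul_le_mul_of_nonneg_left hS2 hD0)
      rw [div_le_iff₀ (pow_pos hH0 2), hκ, dense_aux ε (B ^ 2 * C2) A₀.card (by linarith),
        div_le_iff₀ (by linarith)]
      linarith) k A hA (by
      calc 8 * L / ε = L / (ε / 8) := by
            field_simp
        _ ≤ L / θ := div_le_div_of_nonneg_left hL0.le hθpos hθε
        _ ≤ θ ^ E k * H := by
            rw [div_le_iff₀ hθpos]
            refine hcond.trans (le_of_eq ?_)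
            ring
        _ ≤ (κ / 2 * β) ^ E k * H := mul_le_mul_of_nonneg_right hpowE hH0.le)
  refine le_trans ?_ hmain
  apply mul_le_mul_of_nonneg_right _ (by positivity)
  refine le_trans ?_ hpowE
  have hθ1 : θ ≤ 1 := by linarith
  exact pow_le_pow_of_le_one hθ0 hθ1 (by omega)

end Pool.Agent.T9h56.HL
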