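import Mathlib
import Pool.Agent.T9h56.HL.CliqueThm

/-! Joint lower bounds for several differences: Schur products. -/

set_option autoImplicit false

open Finset Filter Topology

namespace Pool.Agent.T9h56.HL

open Pool.Agent.H442R2.KF

/-- the quadratic form of the singular series -/
theorem Sing_form (κ : ℝ) (hκ : 0 < κ) (C : ℕ) : ∀ᶠ x : ℝ in atTop,
    ∀ H : ℕ, (H : ℝ) ≤ Real.log x ^ C → ∀ c : ℕ → ℝ,
      (∑ b ∈ Icc 1 H, c b) ^ 2 ≤ offd H c Sing + κ * Real.log x * ∑ b ∈ Icc 1 H, c b ^ 2 := by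
  obtain ⟨C0, hC0, hLL⟩ := H343.PhiSum.totient_upper
  obtain ⟨C2, hC2, hSR2⟩ := SR_sub
  have hL : Tendsto Real.log atTop atTop := Real.tendsto_log_atTop
  have h2 : ∀ᶠ L : ℝ in atTop, (12 * C + 4 : ℕ) * Real.log L + (C0 + 1) ≤ κ / 2 * L := by
    have h := (Real.isLittleO_log_id_atTop.bound
      (show (0 : ℝ) < κ / (4 * (12 * C + 4 : ℕ)) by positivity))
    filter_upwards [h, eventually_ge_atTop (max 1 (4 * (C0 + 1) / κ))] with L h3 h4
    have hL1 : 1 ≤ L := (le_max_left _ _).trans h4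
    have hL2 : 4 * (C0 + 1) / κ ≤ L := (le_max_right _ _).trans h4
    rw [div_le_iff₀ hκ] at hL2
    have h5 : ‖Real.log L‖ ≤ κ / (4 * (12 * C + 4 : ℕ)) * ‖L‖ := h3
    rw [Real.norm_of_nonneg (Real.log_nonneg hL1), Real.norm_of_nonneg (by linarith)] at h5
    have h6 : ((12 * C + 4 : ℕ) : ℝ) * Real.log L ≤
        (12 * C + 4 : ℕ) * (κ / (4 * (12 * C + 4 : ℕ)) * L) :=
      mul_le_mul_of_nonneg_left h5 (Nat.cast_nonneg _)
    have h7 : ((12 * C + 4 : ℕ) : ℝ) * (κ / (4 * (12 * C + 4 : ℕ)) * L) = κ / 4 * L := by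
      have : ((12 * C + 4 : ℕ) : ℝ) ≠ 0 := by positivity
      field_simp
    linarith
  filter_upwards [hL.eventually_ge_atTop (max 2 (C2 / (κ / 2))), hL.eventually h2]
    with x h3 h4 H hH c
  set L := Real.log x with hLd
  have hL2 : 2 ≤ L := (le_max_left _ _).trans h3
  have hL1 : 1 ≤ L := by linarith
  have hL0 : 0 < L := by linarith
  have hLC2 : C2 / (κ / 2) ≤ L := (le_max_right _ _).trans h3
  set R : ℕ := ⌈L ^ (12 * C + 4)⌉₊ with hR
  have hRl : L ^ (12 * C + 4) ≤ R := Nat.le_ceil _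
  have hpow1 : 1 ≤ L ^ (12 * C + 4) := one_le_pow₀ hL1
  have hRu : (R : ℝ) ≤ 2 * L ^ (12 * C + 4) := by
    have := (Nat.ceil_lt_add_one (show 0 ≤ L ^ (12 * C + 4) by positivity)).le
    linarith
  have hR0 : (0 : ℝ) < R := by linarith
  have hR1 : 1 ≤ R := by exact_mod_cast (by linarith : (1 : ℝ) ≤ R)
  have hlogR : Real.log R ≤ (12 * C + 4 : ℕ) * Real.log L + 1 := by
    have h5 := Real.log_le_log hR0 hRu
    rw [Real.log_mul (by norm_num) (by positivity), Real.log_pow] at h5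
    have := Real.log_two_lt_d9
    linarith
  have hLLR : H343.LL 0 R ≤ κ / 2 * L := by
    have := hLL R hR1
    linarith
  have hQ := QF_ge R H hR1 c
  rw [QF_split] at hQ
  set q : ℝ := ∑ b ∈ Icc 1 H, c b ^ 2 with hq
  have hq0 : 0 ≤ q := sum_nonneg fun _ _ => sq_nonneg _
  have hK0 : 0 ≤ κ / 2 * (L ^ C)⁻¹ := by positivity
  have htail := offd_sub_le H c (fun k => SR R k) Sing (κ / 2 * (L ^ C)⁻¹) hK0 (fun k hk1 hk2 => by
    refine (hSR2 R k hR1 hk1).trans ?_
    have hk3 : (k : ℝ) ≤ L ^ C := le_trans (by exact_mod_cast hk2) hH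
    have hR4 : (R : ℝ) ^ (-(1 / 4) : ℝ) ≤ (L ^ (3 * C + 1))⁻¹ := by
      calc (R : ℝ) ^ (-(1 / 4) : ℝ) ≤ (L ^ (12 * C + 4)) ^ (-(1 / 4) : ℝ) :=
            Real.rpow_le_rpow_of_nonpos (by positivity) hRl (by norm_num)
        _ = (L ^ (3 * C + 1))⁻¹ := by
            rw [← Real.rpow_natCast L (12 * C + 4), ← Real.rpow_mul hL0.le, ← Real.rpow_natCast,
              ← Real.rpow_neg hL0.le]
            congr 1
            push_cast
            ring
    calc C2 * (k : ℝ) ^ 2 * (R : ℝ) ^ (-(1 / 4) : ℝ) ≤ C2 * (L ^ C) ^ 2 * (L ^ (3 * C + 1))⁻¹ := by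
          gcongr
      _ = C2 / L * (L ^ C)⁻¹ := by
          rw [show 3 * C + 1 = C + C + C + 1 by ring, pow_add, pow_add, pow_add, pow_one]
          field_simp
      _ ≤ κ / 2 * (L ^ C)⁻¹ := by
          apply mul_le_mul_of_nonneg_right _ (by positivity)
          rw [div_le_iff₀ hL0]
          rw [div_le_iff₀ (by positivity)] at hLC2
          linarith)
  have hCS : (∑ b ∈ Icc 1 H, |c b|) ^ 2 ≤ H * q := by
    have := sq_sum_le_card_mul_sum_sq (s := Icc 1 H) (f := fun b => |c b|)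
    rw [Nat.card_Icc, Nat.add_sub_cancel] at this
    simp only [sq_abs] at this
    exact this
  have h5 := (abs_le.1 htail).2
  have h6 : (∑ b ∈ Icc 1 H, |c b|) ^ 2 * (κ / 2 * (L ^ C)⁻¹) ≤ κ / 2 * q := by
    calc (∑ b ∈ Icc 1 H, |c b|) ^ 2 * (κ / 2 * (L ^ C)⁻¹) ≤ (L ^ C * q) * (κ / 2 * (L ^ C)⁻¹) := by
          apply mul_le_mul_of_nonneg_right _ hK0
          exact hCS.trans (mul_le_mul_of_nonneg_right hH hq0)
      _ = κ / 2 * q := by
          field_simp
  have h7 : q * H343.LL 0 R ≤ q * (κ / 2 * L) := mul_le_mul_of_nonneg_left hLLR hq0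
  have h8 : κ / 2 * q ≤ κ / 2 * L * q := by
    calc κ / 2 * q = κ / 2 * 1 * q := by ring
      _ ≤ κ / 2 * L * q := by gcongr
  linarith

/-- the weights on the values of a list -/
noncomputable def push {n : ℕ} (φ : Fin n → ℕ) (c : Fin n → ℝ) (b : ℕ) : ℝ :=
  ∑ a, if φ a = b then c a else 0

lemma push_apply {n : ℕ} (φ : Fin n → ℕ) (hφ : Function.Injective φ) (c : Fin n → ℝ) (a : Fin n) :
    push φ c (φ a) = c a := by
  unfold push
  rw [sum_eq_single a]
  · rw [if_pos rfl]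
  · intro b _ hb
    rw [if_neg (fun h => hb (hφ h))]
  · intro h
    exact absurd (mem_univ a) h

lemma sum_push {n H : ℕ} (φ : Fin n → ℕ) (hH : ∀ a, φ a ∈ Icc 1 H) (c : Fin n → ℝ) (g : ℕ → ℝ) :
    ∑ b ∈ Icc 1 H, push φ c b * g b = ∑ a, c a * g (φ a) := by
  unfold push
  have h1 : ∀ b ∈ Icc 1 H, (∑ a, if φ a = b then c a else 0) * g b = ∑ a, if φ a = b then c a * g b else 0 := by
    intro b _
    rw [sum_mul]
    exact sum_congr rfl fun a _ => by split_ifs <;> ring
  rw [sum_congr rfl h1, sum_comm]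
  refine sum_congr rfl fun a _ => ?_
  rw [sum_ite_eq, if_pos (hH a)]

lemma sum_push_sq {n H : ℕ} (φ : Fin n → ℕ) (hφ : Function.Injective φ) (hH : ∀ a, φ a ∈ Icc 1 H)
    (c : Fin n → ℝ) : ∑ b ∈ Icc 1 H, push φ c b ^ 2 = ∑ a, c a ^ 2 := by
  have h1 := sum_push φ hH c (push φ c)
  simp only [← sq] at h1
  rw [h1]
  refine sum_congr rfl fun a _ => ?_
  rw [push_apply φ hφ, sq]

lemma offd_push {n H : ℕ} (φ : Fin n → ℕ) (hφ : Function.Injective φ) (hH : ∀ a, φ a ∈ Icc 1 H)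
    (c : Fin n → ℝ) (f : ℕ → ℝ) : offd H (push φ c) f =
      ∑ a, ∑ b, if a = b then 0 else c a * c b * f ((φ a : ℤ) - φ b).natAbs := by
  unfold offd
  have h1 : ∀ p ∈ Icc 1 H, ∑ q ∈ Icc 1 H, (if p = q then 0 else push φ c p * push φ c q * f ((p : ℤ) - q).natAbs) =
      push φ c p * ∑ b, c b * (if p = φ b then 0 else f ((p : ℤ) - φ b).natAbs) := by
    intro p _
    rw [← sum_push φ hH c (fun q => if p = q then 0 else f ((p : ℤ) - q).natAbs), mul_sum]
    refine sum_congr rfl fun q _ => ?_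
    split_ifs <;> ring
  rw [sum_congr rfl h1, sum_push φ hH c (fun p => ∑ b, c b * (if p = φ b then 0 else f ((p : ℤ) - φ b).natAbs))]
  refine sum_congr rfl fun a _ => ?_
  rw [mul_sum]
  refine sum_congr rfl fun b _ => ?_
  by_cases hab : a = b
  · rw [if_pos hab, if_pos (by rw [hab]), mul_zero, mul_zero]
  · rw [if_neg hab, if_neg (fun h => hab (hφ h))]
    ring

/-! ### Schur products -/

/-- a symmetric real kernel with nonnegative quadratic form -/
def PSD {n : ℕ} (M : Fin n → Fin n → ℝ) : Prop :=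
  (∀ a b, M a b = M b a) ∧ ∀ c : Fin n → ℝ, 0 ≤ ∑ a, ∑ b, c a * c b * M a b

lemma PSD_iff {n : ℕ} (M : Fin n → Fin n → ℝ) : PSD M ↔ (Matrix.of M).PosSemidef := by
  rw [Matrix.posSemidef_iff_dotProduct_mulVec]
  unfold PSD
  have e : ∀ c : Fin n → ℝ, star c ⬝ᵥ (Matrix.of M).mulVec c = ∑ a, ∑ b, c a * c b * M a b := by
    intro c
    simp only [dotProduct, Matrix.mulVec, Matrix.of_apply, star_trivial, mul_sum]
    refine sum_congr rfl fun a _ => sum_congr rfl fun b _ => ?_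
    ring
  constructor
  · rintro ⟨h1, h2⟩
    refine ⟨?_, fun c => ?_⟩
    · ext a b
      simp only [Matrix.conjTranspose_apply, Matrix.of_apply, star_trivial]
      exact h1 b a
    · rw [e]
      exact h2 c
  · rintro ⟨h1, h2⟩
    refine ⟨fun a b => ?_, fun c => ?_⟩
    · have := congrFun (congrFun h1 b) a
      simpa [Matrix.conjTranspose_apply] using this
    · rw [← e]
      exact h2 c

lemma PSD_mul {n : ℕ} {M N : Fin n → Fin n → ℝ} (hM : PSD M) (hN : PSD N) :
    PSD (fun a b => M a b * N a b) := by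
  rw [PSD_iff] at hM hN ⊢
  have := hM.hadamard hN
  have e : Matrix.of (fun a b => M a b * N a b) = (Matrix.of M).hadamard (Matrix.of N) := by
    ext a b
    simp [Matrix.hadamard_apply]
  rw [e]
  exact this

lemma PSD_add {n : ℕ} {M N : Fin n → Fin n → ℝ} (hM : PSD M) (hN : PSD N) :
    PSD (fun a b => M a b + N a b) := by
  refine ⟨fun a b => by
    change M a b + N a b = M b a + N b a
    rw [hM.1 a b, hN.1 a b], fun c => ?_⟩
  have : ∑ a, ∑ b, c a * c b * (M a b + N a b) =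
      ∑ a, ∑ b, c a * c b * M a b + ∑ a, ∑ b, c a * c b * N a b := by
    rw [← sum_add_distrib]
    refine sum_congr rfl fun a _ => ?_
    rw [← sum_add_distrib]
    exact sum_congr rfl fun b _ => by ring
  rw [this]
  exact add_nonneg (hM.2 c) (hN.2 c)

lemma PSD_prod {n k : ℕ} (A B : Fin k → Fin n → Fin n → ℝ) (hB : ∀ i, PSD (B i))
    (hAB : ∀ i, PSD (fun a b => A i a b - B i a b)) (s : Finset (Fin k)) :
    PSD (fun a b => ∏ i ∈ s, B i a b) ∧ PSD (fun a b => ∏ i ∈ s, A i a b - ∏ i ∈ s, B i a b) := by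
  classical
  induction s using Finset.induction_on with
  | empty =>
    simp only [prod_empty, sub_self]
    refine ⟨⟨fun _ _ => rfl, fun c => ?_⟩, ⟨fun _ _ => rfl, fun c => ?_⟩⟩
    · have : ∑ a, ∑ b, c a * c b * (1 : ℝ) = (∑ a, c a) ^ 2 := by
        rw [sq, sum_mul_sum]
        exact sum_congr rfl fun a _ => sum_congr rfl fun b _ => by ring
      rw [this]
      positivity
    · simp
  | insert i s hi ih =>
    obtain ⟨h1, h2⟩ := ih
    have hA : PSD (A i) := by
      have := PSD_add (hAB i) (hB i)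
      simpa using this
    constructor
    · have := PSD_mul (hB i) h1
      simpa [prod_insert hi] using this
    · have h3 := PSD_add (PSD_mul hA h2) (PSD_mul (hAB i) h1)
      have e : (fun a b => ∏ j ∈ insert i s, A j a b - ∏ j ∈ insert i s, B j a b) =
          fun a b => A i a b * (∏ j ∈ s, A j a b - ∏ j ∈ s, B j a b) +
            (A i a b - B i a b) * ∏ j ∈ s, B j a b := by
        funext a b
        rw [prod_insert hi, prod_insert hi]
        ring
      rw [e]
      exact h3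

/-! ### The joint inequality -/

/-- the off-diagonal form of a product -/
noncomputable def jform {k n : ℕ} (φ : Fin k → Fin n → ℕ) (c : Fin n → ℝ) (f : ℕ → ℝ) : ℝ :=
  ∑ a, ∑ b, if a = b then 0 else c a * c b * ∏ i, f ((φ i a : ℤ) - φ i b).natAbs

lemma kernel_form {n : ℕ} (c : Fin n → ℝ) (D : ℝ) (g : Fin n → Fin n → ℝ) :
    ∑ a, ∑ b, c a * c b * (if a = b then D else g a b) =
      (∑ a, ∑ b, if a = b then 0 else c a * c b * g a b) + D * ∑ a, c a ^ 2 := by
  rw [mul_sum, ← sum_add_distrib]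
  refine sum_congr rfl fun a _ => ?_
  have h1 : ∀ b, c a * c b * (if a = b then D else g a b) =
      (if a = b then 0 else c a * c b * g a b) + (if a = b then c a * c b * D else 0) := by
    intro b
    split_ifs <;> ring
  rw [sum_congr rfl fun b _ => h1 b, sum_add_distrib, sum_ite_eq, if_pos (mem_univ a)]
  ring

/-- **the joint inequality** -/
theorem joint (k : ℕ) (η : ℝ) (hη : 0 < η) (hη1 : η ≤ 1) (C : ℕ) : ∀ᶠ x : ℝ in atTop,
    ∀ (n : ℕ) (φ : Fin k → Fin n → ℕ), (∀ i, Function.Injective (φ i)) →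
      (∀ i a, 1 ≤ φ i a ∧ (φ i a : ℝ) ≤ Real.log x ^ C) →
      ((∀ c : Fin n → ℝ, (1 + (2 - η) / Real.log x) ^ k * jform φ c Sing -
          ((1 / 2 + η) * Real.log x) ^ k * ∑ a, c a ^ 2 ≤
        jform φ c (fun d => (pi2N ⌊x⌋₊ d : ℝ) * (Real.log x ^ 2 / x))) ∧
      (n : ℝ) ^ 2 - (η * Real.log x) ^ k * n ≤ jform φ (fun _ => 1) Sing) := by
  have hL : Tendsto Real.log atTop atTop := Real.tendsto_log_atTop
  filter_upwards [spectral (η / 2) (by positivity) (by linarith) C, Sing_form (η / 8) (by positivity) C,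
    hL.eventually_ge_atTop 4, eventually_gt_atTop (0 : ℝ)]
    with x h1 h2 h3 h4 n φ hφ hH
  set L := Real.log x with hLd
  have hL0 : 0 < L := by linarith
  set H : ℕ := ⌊L ^ C⌋₊ with hHd
  have hHL : (H : ℝ) ≤ L ^ C := Nat.floor_le (by positivity)
  have hmem : ∀ i a, φ i a ∈ Icc 1 H := fun i a => mem_Icc.2 ⟨(hH i a).1, Nat.le_floor (hH i a).2⟩
  set θ : ℝ := (2 - η) / L with hθ
  have hθ0 : 0 ≤ θ := div_nonneg (by linarith) hL0.le
  have hθ1 : θ ≤ 1 / 2 := by
    rw [hθ, div_le_iff₀ hL0]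
    linarith
  set θ' : ℝ := (2 - η / 2) / L with hθ'
  have hθθ' : θ ≤ θ' := div_le_div_of_nonneg_right (by linarith) hL0.le
  have hθ'1 : θ' ≤ 1 / 2 := by
    rw [hθ', div_le_iff₀ hL0]
    linarith
  set ℓ : ℝ := η / 8 * L with hℓ
  have hℓ0 : 0 < ℓ := by positivity
  -- the kernels
  set B : Fin k → Fin n → Fin n → ℝ := fun i a b =>
    if a = b then (1 + θ) * ℓ else (1 + θ) * Sing ((φ i a : ℤ) - φ i b).natAbs with hB
  set A : Fin k → Fin n → Fin n → ℝ := fun i a b =>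
    if a = b then (1 + θ) * ℓ + ((1 / 2 + η / 2) * L + ℓ) else
      (pi2N ⌊x⌋₊ ((φ i a : ℤ) - φ i b).natAbs : ℝ) * (L ^ 2 / x) with hA
  have hSform : ∀ i (c : Fin n → ℝ), (∑ a, c a) ^ 2 ≤
      (∑ a, ∑ b, if a = b then 0 else c a * c b * Sing ((φ i a : ℤ) - φ i b).natAbs) + ℓ * ∑ a, c a ^ 2 := by
    intro i c
    have h5 := h2 H hHL (push (φ i) c)
    rw [offd_push (φ i) (hφ i) (hmem i), sum_push_sq (φ i) (hφ i) (hmem i)] at h5
    have h6 := sum_push (φ i) (hmem i) c (fun _ => 1)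
    simp only [mul_one] at h6
    rw [h6] at h5
    exact h5
  have hsymm : ∀ i a b, ((φ i a : ℤ) - φ i b).natAbs = ((φ i b : ℤ) - φ i a).natAbs := fun i a b => by omega
  have hBf : ∀ i (c : Fin n → ℝ), ∑ a, ∑ b, c a * c b * B i a b = (1 + θ) *
      ((∑ a, ∑ b, if a = b then 0 else c a * c b * Sing ((φ i a : ℤ) - φ i b).natAbs) + ℓ * ∑ a, c a ^ 2) := by
    intro i c
    rw [hB]
    rw [kernel_form c ((1 + θ) * ℓ) (fun a b => (1 + θ) * Sing ((φ i a : ℤ) - φ i b).natAbs)]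
    have e1 : (∑ a, ∑ b, if a = b then 0 else c a * c b * ((1 + θ) * Sing ((φ i a : ℤ) - φ i b).natAbs)) =
        (1 + θ) * (∑ a, ∑ b, if a = b then 0 else c a * c b * Sing ((φ i a : ℤ) - φ i b).natAbs) := by
      rw [mul_sum]
      refine sum_congr rfl fun a _ => ?_
      rw [mul_sum]
      refine sum_congr rfl fun b _ => ?_
      split_ifs <;> ring
    rw [e1]
    ring
  have hBJ : ∀ i (c : Fin n → ℝ), (∑ a, c a) ^ 2 ≤ ∑ a, ∑ b, c a * c b * B i a b := by
    intro i c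
    rw [hBf]
    have h5 := hSform i c
    have h6 : 0 ≤ (∑ a, c a) ^ 2 := sq_nonneg _
    nlinarith
  have hBP : ∀ i, PSD (B i) := by
    intro i
    refine ⟨fun a b => ?_, fun c => (sq_nonneg _).trans (hBJ i c)⟩
    rw [hB]
    beta_reduce
    rw [hsymm i a b]
    by_cases hab : a = b
    · rw [if_pos hab, if_pos hab.symm]
    · rw [if_neg hab, if_neg (fun h => hab h.symm)]
  have hABP : ∀ i, PSD (fun a b => A i a b - B i a b) := by
    intro i
    refine ⟨fun a b => ?_, fun c => ?_⟩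
    · rw [hA, hB]
      beta_reduce
      rw [hsymm i a b]
      by_cases hab : a = b
      · rw [if_pos hab, if_pos hab, if_pos hab.symm, if_pos hab.symm]
      · rw [if_neg hab, if_neg hab, if_neg (fun h => hab h.symm), if_neg (fun h => hab h.symm)]
    · have h5 := h1 H hHL (push (φ i) c)
      rw [offd_push (φ i) (hφ i) (hmem i), offd_push (φ i) (hφ i) (hmem i),
        sum_push_sq (φ i) (hφ i) (hmem i)] at h5
      have h6 : ∀ a b, c a * c b * (A i a b - B i a b) = c a * c b * (if a = b then ((1 / 2 + η / 2) * L + ℓ) else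
          (pi2N ⌊x⌋₊ ((φ i a : ℤ) - φ i b).natAbs : ℝ) * (L ^ 2 / x) -
            (1 + θ) * Sing ((φ i a : ℤ) - φ i b).natAbs) := by
        intro a b
        rw [hA, hB]
        beta_reduce
        split_ifs <;> ring
      rw [sum_congr rfl fun a _ => sum_congr rfl fun b _ => h6 a b]
      rw [kernel_form]
      set SF := ∑ a, ∑ b, if a = b then 0 else c a * c b * Sing ((φ i a : ℤ) - φ i b).natAbs with hSF
      set PF := ∑ a, ∑ b, if a = b then 0 else c a * c b * (pi2N ⌊x⌋₊ ((φ i a : ℤ) - φ i b).natAbs : ℝ) with hPF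
      have h7 : (∑ a, ∑ b, if a = b then 0 else c a * c b *
          ((pi2N ⌊x⌋₊ ((φ i a : ℤ) - φ i b).natAbs : ℝ) * (L ^ 2 / x) -
            (1 + θ) * Sing ((φ i a : ℤ) - φ i b).natAbs)) = L ^ 2 / x * PF - (1 + θ) * SF := by
        rw [hSF, hPF, mul_sum, mul_sum, ← sum_sub_distrib]
        refine sum_congr rfl fun a _ => ?_
        rw [mul_sum, mul_sum, ← sum_sub_distrib]
        refine sum_congr rfl fun b _ => ?_
        split_ifs <;> ring
      rw [h7]
      set q := ∑ a, c a ^ 2 with hq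
      have hq0 : 0 ≤ q := sum_nonneg fun _ _ => sq_nonneg _
      have h8 : (1 + θ') * SF - (1 / 2 + η / 2) * L * q ≤ L ^ 2 / x * PF := by
        have h9 := mul_le_mul_of_nonneg_left h5 (show 0 ≤ L ^ 2 / x by positivity)
        have e : L ^ 2 / x * (x / L ^ 2 * ((1 + θ') * SF - (1 / 2 + η / 2) * L * q)) =
            (1 + θ') * SF - (1 / 2 + η / 2) * L * q := by
          field_simp
        rw [e] at h9
        exact h9
      have h9 : 0 ≤ SF + ℓ * q := (sq_nonneg _).trans (hSform i c)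
      have h10 : -(ℓ * q) ≤ (θ' - θ) * SF := by
        have h11 : 0 ≤ θ' - θ := by linarith
        have h12 : 0 ≤ (θ' - θ) * (SF + ℓ * q) := mul_nonneg h11 h9
        have h13 : 0 ≤ ℓ * q := by positivity
        nlinarith
      linarith
  obtain ⟨hP1, hP2⟩ := PSD_prod A B hBP hABP univ
  have hBd : ∀ i a b, a = b → B i a b = (1 + θ) * ℓ := fun i a b h => if_pos h
  have hBn : ∀ i a b, a ≠ b → B i a b = (1 + θ) * Sing ((φ i a : ℤ) - φ i b).natAbs :=
    fun i a b h => if_neg h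
  have hAd : ∀ i a b, a = b → A i a b = (1 + θ) * ℓ + ((1 / 2 + η / 2) * L + ℓ) :=
    fun i a b h => if_pos h
  have hAn : ∀ i a b, a ≠ b → A i a b = (pi2N ⌊x⌋₊ ((φ i a : ℤ) - φ i b).natAbs : ℝ) * (L ^ 2 / x) :=
    fun i a b h => if_neg h
  have hBf2 : ∀ a b, ∏ i, B i a b = if a = b then ((1 + θ) * ℓ) ^ k else
      (1 + θ) ^ k * ∏ i, Sing ((φ i a : ℤ) - φ i b).natAbs := by
    intro a b
    by_cases hab : a = b
    · rw [if_pos hab, prod_congr rfl (fun i _ => hBd i a b hab), prod_const, card_univ, Fintype.card_fin]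
    · rw [if_neg hab, prod_congr rfl (fun i _ => hBn i a b hab), prod_mul_distrib, prod_const, card_univ,
        Fintype.card_fin]
  have hAf2 : ∀ a b, ∏ i, A i a b = if a = b then ((1 + θ) * ℓ + ((1 / 2 + η / 2) * L + ℓ)) ^ k else
      ∏ i, ((pi2N ⌊x⌋₊ ((φ i a : ℤ) - φ i b).natAbs : ℝ) * (L ^ 2 / x)) := by
    intro a b
    by_cases hab : a = b
    · rw [if_pos hab, prod_congr rfl (fun i _ => hAd i a b hab), prod_const, card_univ, Fintype.card_fin]
    · rw [if_neg hab, prod_congr rfl (fun i _ => hAn i a b hab)]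
  constructor
  · intro c
    have h5 := hP2.2 c
    have h6 : ∀ a b, c a * c b * (∏ i, A i a b - ∏ i, B i a b) = c a * c b *
        (if a = b then (((1 + θ) * ℓ + ((1 / 2 + η / 2) * L + ℓ)) ^ k - ((1 + θ) * ℓ) ^ k) else
          ∏ i, ((pi2N ⌊x⌋₊ ((φ i a : ℤ) - φ i b).natAbs : ℝ) * (L ^ 2 / x)) -
            (1 + θ) ^ k * ∏ i, Sing ((φ i a : ℤ) - φ i b).natAbs) := by
      intro a b
      rw [hAf2, hBf2]
      split_ifs <;> ring
    rw [sum_congr rfl fun a _ => sum_congr rfl fun b _ => h6 a b, kernel_form] at h5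
    set q := ∑ a, c a ^ 2 with hq
    have hq0 : 0 ≤ q := sum_nonneg fun _ _ => sq_nonneg _
    have h7 : (∑ a, ∑ b, if a = b then 0 else c a * c b *
        (∏ i, ((pi2N ⌊x⌋₊ ((φ i a : ℤ) - φ i b).natAbs : ℝ) * (L ^ 2 / x)) -
            (1 + θ) ^ k * ∏ i, Sing ((φ i a : ℤ) - φ i b).natAbs)) =
        jform φ c (fun d => (pi2N ⌊x⌋₊ d : ℝ) * (L ^ 2 / x)) - (1 + θ) ^ k * jform φ c Sing := by
      unfold jform
      rw [mul_sum, ← sum_sub_distrib]
      refine sum_congr rfl fun a _ => ?_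
      rw [mul_sum, ← sum_sub_distrib]
      refine sum_congr rfl fun b _ => ?_
      split_ifs <;> ring
    rw [h7] at h5
    have h8 : ((1 + θ) * ℓ + ((1 / 2 + η / 2) * L + ℓ)) ^ k ≤ ((1 / 2 + η) * L) ^ k := by
      apply pow_le_pow_left₀ (by positivity)
      rw [hℓ]
      nlinarith
    have h9 : 0 ≤ ((1 + θ) * ℓ) ^ k := by positivity
    have h10 : (((1 + θ) * ℓ + ((1 / 2 + η / 2) * L + ℓ)) ^ k - ((1 + θ) * ℓ) ^ k) * q ≤
        ((1 / 2 + η) * L) ^ k * q := mul_le_mul_of_nonneg_right (by linarith) hq0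
    linarith
  · -- comparison with the constant kernel
    set B0 : Fin k → Fin n → Fin n → ℝ := fun i a b =>
      if a = b then ℓ else Sing ((φ i a : ℤ) - φ i b).natAbs with hB0
    have hJP : ∀ i, PSD (fun a b => B0 i a b - (fun _ _ _ => 1 : Fin k → Fin n → Fin n → ℝ) i a b) := by
      intro i
      refine ⟨fun a b => ?_, fun c => ?_⟩
      · change B0 i a b - 1 = B0 i b a - 1
        rw [hB0]
        beta_reduce
        rw [hsymm i a b]
        by_cases hab : a = b
        · rw [if_pos hab, if_pos hab.symm]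
        · rw [if_neg hab, if_neg (fun h => hab h.symm)]
      · have h5 := hSform i c
        have h6 : ∑ a, ∑ b, c a * c b * (B0 i a b - 1) = ∑ a, ∑ b, c a * c b * B0 i a b - (∑ a, c a) ^ 2 := by
          rw [sq, sum_mul_sum, ← sum_sub_distrib]
          refine sum_congr rfl fun a _ => ?_
          rw [← sum_sub_distrib]
          exact sum_congr rfl fun b _ => by ring
        change 0 ≤ ∑ a, ∑ b, c a * c b * (B0 i a b - 1)
        rw [h6, hB0, kernel_form c ℓ (fun a b => Sing ((φ i a : ℤ) - φ i b).natAbs)]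
        linarith
    have hJ1 : ∀ i, PSD ((fun _ _ _ => 1 : Fin k → Fin n → Fin n → ℝ) i) := by
      intro i
      refine ⟨fun _ _ => rfl, fun c => ?_⟩
      have : ∑ a, ∑ b, c a * c b * (1 : ℝ) = (∑ a, c a) ^ 2 := by
        rw [sq, sum_mul_sum]
        exact sum_congr rfl fun a _ => sum_congr rfl fun b _ => by ring
      change 0 ≤ ∑ a, ∑ b, c a * c b * (1 : ℝ)
      rw [this]
      positivity
    obtain ⟨_, hQ⟩ := PSD_prod B0 (fun _ _ _ => 1) hJ1 hJP univ
    have h5 := hQ.2 (fun _ => 1)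
    have hBd0 : ∀ i a b, a = b → B0 i a b = ℓ := fun i a b h => if_pos h
    have hBn0 : ∀ i a b, a ≠ b → B0 i a b = Sing ((φ i a : ℤ) - φ i b).natAbs := fun i a b h => if_neg h
    have h6 : ∀ a b, (1 : ℝ) * 1 * (∏ i, B0 i a b - ∏ _i : Fin k, (1 : ℝ)) =
        1 * 1 * (if a = b then (ℓ ^ k - 1) else (∏ i, Sing ((φ i a : ℤ) - φ i b).natAbs) - 1) := by
      intro a b
      rw [prod_const_one]
      by_cases hab : a = b
      · rw [if_pos hab, prod_congr rfl (fun i _ => hBd0 i a b hab), prod_const, card_univ, Fintype.card_fin]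
      · rw [if_neg hab, prod_congr rfl (fun i _ => hBn0 i a b hab)]
    rw [sum_congr rfl fun a _ => sum_congr rfl fun b _ => h6 a b,
      kernel_form (fun _ => (1 : ℝ)) (ℓ ^ k - 1) (fun a b => (∏ i, Sing ((φ i a : ℤ) - φ i b).natAbs) - 1)] at h5
    have h7 : (∑ a : Fin n, ∑ b : Fin n, if a = b then (0 : ℝ) else 1 * 1 *
        ((∏ i, Sing ((φ i a : ℤ) - φ i b).natAbs) - 1)) = jform φ (fun _ => 1) Sing - ((n : ℝ) ^ 2 - n) := by
      have h8 : (∑ a : Fin n, ∑ b : Fin n, if a = b then (0 : ℝ) else 1) = (n : ℝ) ^ 2 - n := by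
        have h9 : ∀ a : Fin n, (∑ b : Fin n, if a = b then (0 : ℝ) else 1) = n - 1 := by
          intro a
          have h10 : ∀ b : Fin n, (if a = b then (0 : ℝ) else 1) = 1 - (if a = b then 1 else 0) := by
            intro b
            split_ifs <;> ring
          rw [sum_congr rfl fun b _ => h10 b, sum_sub_distrib, sum_ite_eq, if_pos (mem_univ a)]
          simp
        rw [sum_congr rfl fun a _ => h9 a]
        simp only [sum_const, card_univ, Fintype.card_fin, nsmul_eq_mul]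
        ring
      rw [← h8]
      unfold jform
      rw [← sum_sub_distrib]
      refine sum_congr rfl fun a _ => ?_
      rw [← sum_sub_distrib]
      refine sum_congr rfl fun b _ => ?_
      split_ifs <;> ring
    rw [h7] at h5
    have h8 : (∑ _a : Fin n, (1 : ℝ) ^ 2) = n := by simp
    rw [h8] at h5
    have h9 : ℓ ^ k ≤ (η * L) ^ k := by
      apply pow_le_pow_left₀ hℓ0.le
      rw [hℓ]
      nlinarith
    have h10 : (0 : ℝ) ≤ n := Nat.cast_nonneg _
    have h11 : ℓ ^ k * n ≤ (η * L) ^ k * n := mul_le_mul_of_nonneg_right h9 h10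
    nlinarith

end Pool.Agent.T9h56.HL
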