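import Mathlib
import Pool.Agent.T9h56.HL.Joint

/-! Several differences at once: existence. -/

set_option autoImplicit false

open Finset Filter Topology

namespace Pool.Agent.T9h56.HL

lemma pi2N_le (X d : ℕ) : pi2N X d ≤ X := by
  unfold pi2N
  exact (card_filter_le _ _).trans (by rw [Nat.card_Icc]; omega)

/-- two indices with a large product -/
theorem joint_exists (k : ℕ) (hk : 1 ≤ k) (η : ℝ) (hη : 0 < η) (hη1 : η ≤ 1) (C : ℕ) : ∀ᶠ x : ℝ in atTop,
    ∀ (n : ℕ) (φ : Fin k → Fin n → ℕ), (∀ i, Function.Injective (φ i)) →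
      (∀ i a, 1 ≤ φ i a ∧ (φ i a : ℝ) ≤ Real.log x ^ C) →
      ∀ ε : ℝ, 0 < ε → ε ≤ 1 → ((1 / 2 + η) * Real.log x) ^ k ≤ ε * n →
        ∃ a b, a ≠ b ∧ (∀ i, Even ((φ i a : ℤ) - φ i b).natAbs) ∧
          (1 - ε) * ∏ i, (Sing ((φ i a : ℤ) - φ i b).natAbs * x / Real.log x ^ 2) ≤
            ∏ i, (pi2N ⌊x⌋₊ ((φ i a : ℤ) - φ i b).natAbs : ℝ) := by
  classical
  have hL : Tendsto Real.log atTop atTop := Real.tendsto_log_atTop
  filter_upwards [joint k (η / 4) (by positivity) (by linarith) C, hL.eventually_ge_atTop (8 / η),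
    log_pow_small (C + 2 * k) 1 1 one_pos one_pos, eventually_ge_atTop (1 : ℝ)]
    with x h1 h2 h3 h4 n φ hφ hH ε hε0 hε1 hn
  obtain ⟨h5, h6⟩ := h1 n φ hφ hH
  set L := Real.log x with hLd
  have hη8 : 8 ≤ η * L := by
    rw [div_le_iff₀ hη] at h2
    linarith
  have hL8 : 8 ≤ L := by nlinarith
  have hL0 : 0 < L := by linarith
  have hx0 : 0 < x := by linarith
  rw [Real.rpow_one, one_mul] at h3
  have hn0 : (0 : ℝ) ≤ n := Nat.cast_nonneg _
  have hnpos : (0 : ℝ) < n := by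
    rcases hn0.eq_or_lt with h | h
    · rw [← h, mul_zero] at hn
      have : 0 < ((1 / 2 + η) * L) ^ k := by positivity
      linarith
    · exact h
  -- the number of the indices
  have hnL : (n : ℝ) ≤ L ^ C := by
    have hmem : ∀ a, φ ⟨0, by omega⟩ a ∈ Icc 1 ⌊L ^ C⌋₊ := fun a =>
      mem_Icc.2 ⟨(hH _ a).1, Nat.le_floor (hH _ a).2⟩
    have h7 : n ≤ ⌊L ^ C⌋₊ := by
      have := card_le_card_of_injOn (s := (univ : Finset (Fin n))) (t := Icc 1 ⌊L ^ C⌋₊) (φ ⟨0, by omega⟩)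
        (fun a _ => hmem a) (fun a _ b _ h => hφ _ h)
      rw [card_univ, Fintype.card_fin, Nat.card_Icc, Nat.add_sub_cancel] at this
      exact this
    exact le_trans (by exact_mod_cast h7) (Nat.floor_le (by positivity))
  by_contra hcon
  push Not at hcon
  have hne : ∀ i a b, a ≠ b → 1 ≤ ((φ i a : ℤ) - φ i b).natAbs := fun i a b hab => by
    have : φ i a ≠ φ i b := fun h => hab (hφ i h)
    omega
  have hSn : ∀ i a b, a ≠ b → 0 ≤ Sing ((φ i a : ℤ) - φ i b).natAbs := fun i a b hab =>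
    Sing_nonneg _ (hne i a b hab)
  set T := jform φ (fun _ => 1) Sing with hT
  have hT0 : 0 ≤ T := by
    rw [hT]
    unfold jform
    refine sum_nonneg fun a _ => sum_nonneg fun b _ => ?_
    split_ifs with hab
    · exact le_rfl
    · rw [one_mul, one_mul]
      exact prod_nonneg fun i _ => hSn i a b hab
  set σ : ℝ := L ^ (2 * k) / x with hσ
  have hσ0 : 0 ≤ σ := by positivity
  -- the upper bound
  have hterm : ∀ a b, a ≠ b → ∏ i, ((pi2N ⌊x⌋₊ ((φ i a : ℤ) - φ i b).natAbs : ℝ) * (L ^ 2 / x)) ≤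
      (1 - ε) * ∏ i, Sing ((φ i a : ℤ) - φ i b).natAbs + σ := by
    intro a b hab
    have hPS : 0 ≤ ∏ i, Sing ((φ i a : ℤ) - φ i b).natAbs := prod_nonneg fun i _ => hSn i a b hab
    by_cases he : ∀ i, Even ((φ i a : ℤ) - φ i b).natAbs
    · have h7 := hcon a b hab he
      rw [prod_mul_distrib, prod_const, card_univ, Fintype.card_fin]
      have e1 : ∏ i, (Sing ((φ i a : ℤ) - φ i b).natAbs * x / L ^ 2) =
          (∏ i, Sing ((φ i a : ℤ) - φ i b).natAbs) * (x / L ^ 2) ^ k := by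
        have : ∀ i : Fin k, Sing ((φ i a : ℤ) - φ i b).natAbs * x / L ^ 2 =
            Sing ((φ i a : ℤ) - φ i b).natAbs * (x / L ^ 2) := fun i => by ring
        rw [prod_congr rfl fun i _ => this i, prod_mul_distrib, prod_const, card_univ, Fintype.card_fin]
      rw [e1] at h7
      have h8 : (x / L ^ 2) ^ k * (L ^ 2 / x) ^ k = 1 := by
        rw [← mul_pow]
        have : x / L ^ 2 * (L ^ 2 / x) = 1 := by field_simp
        rw [this, one_pow]
      have h9 := mul_le_mul_of_nonneg_right h7.le (show 0 ≤ (L ^ 2 / x) ^ k by positivity)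
      calc (∏ i, (pi2N ⌊x⌋₊ ((φ i a : ℤ) - φ i b).natAbs : ℝ)) * (L ^ 2 / x) ^ k
          ≤ (1 - ε) * ((∏ i, Sing ((φ i a : ℤ) - φ i b).natAbs) * (x / L ^ 2) ^ k) * (L ^ 2 / x) ^ k := h9
        _ = (1 - ε) * (∏ i, Sing ((φ i a : ℤ) - φ i b).natAbs) * ((x / L ^ 2) ^ k * (L ^ 2 / x) ^ k) := by ring
        _ = (1 - ε) * ∏ i, Sing ((φ i a : ℤ) - φ i b).natAbs := by rw [h8, mul_one]
        _ ≤ _ := by linarith
    · push Not at he
      obtain ⟨j, hj⟩ := he
      have h7 : ∏ i, ((pi2N ⌊x⌋₊ ((φ i a : ℤ) - φ i b).natAbs : ℝ) * (L ^ 2 / x)) ≤ σ := by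
        rw [← mul_prod_erase univ _ (mem_univ j)]
        have h8 : (pi2N ⌊x⌋₊ ((φ j a : ℤ) - φ j b).natAbs : ℝ) * (L ^ 2 / x) ≤ 1 * (L ^ 2 / x) := by
          apply mul_le_mul_of_nonneg_right _ (by positivity)
          exact_mod_cast pi2N_odd ⌊x⌋₊ _ hj
        have h9 : ∏ i ∈ univ.erase j, ((pi2N ⌊x⌋₊ ((φ i a : ℤ) - φ i b).natAbs : ℝ) * (L ^ 2 / x)) ≤
            ∏ _i ∈ (univ : Finset (Fin k)).erase j, L ^ 2 := by
          apply Finset.prod_le_prod
          · intro i _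
            positivity
          · intro i _
            have h10 : (pi2N ⌊x⌋₊ ((φ i a : ℤ) - φ i b).natAbs : ℝ) ≤ x :=
              le_trans (by exact_mod_cast pi2N_le _ _) (Nat.floor_le hx0.le)
            calc (pi2N ⌊x⌋₊ ((φ i a : ℤ) - φ i b).natAbs : ℝ) * (L ^ 2 / x) ≤ x * (L ^ 2 / x) :=
                  mul_le_mul_of_nonneg_right h10 (by positivity)
              _ = L ^ 2 := by field_simp
        rw [prod_const, card_erase_of_mem (mem_univ j), card_univ, Fintype.card_fin] at h9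
        calc _ ≤ (1 * (L ^ 2 / x)) * (L ^ 2) ^ (k - 1) := by
              apply mul_le_mul h8 h9 _ (by positivity)
              exact prod_nonneg fun i _ => by positivity
          _ = σ := by
              rw [hσ, pow_mul]
              obtain ⟨l, rfl⟩ : ∃ l, k = l + 1 := ⟨k - 1, by omega⟩
              rw [Nat.add_sub_cancel, pow_succ]
              ring
      have h8 : 0 ≤ (1 - ε) * ∏ i, Sing ((φ i a : ℤ) - φ i b).natAbs :=
        mul_nonneg (by linarith) hPS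
      linarith
  have hup : jform φ (fun _ => 1) (fun d => (pi2N ⌊x⌋₊ d : ℝ) * (L ^ 2 / x)) ≤ (1 - ε) * T + n ^ 2 * σ := by
    have e1 : (n : ℝ) ^ 2 * σ = ∑ _a : Fin n, ∑ _b : Fin n, σ := by
      simp only [sum_const, card_univ, Fintype.card_fin, nsmul_eq_mul]
      ring
    rw [e1, hT]
    unfold jform
    rw [mul_sum, ← sum_add_distrib]
    refine sum_le_sum fun a _ => ?_
    rw [mul_sum, ← sum_add_distrib]
    refine sum_le_sum fun b _ => ?_
    by_cases hab : a = b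
    · rw [if_pos hab, if_pos hab, mul_zero, zero_add]
      exact hσ0
    · rw [if_neg hab, if_neg hab, one_mul, one_mul, one_mul]
      exact hterm a b hab
  have hlow := h5 (fun _ => 1)
  have e2 : (∑ _a : Fin n, (1 : ℝ) ^ 2) = n := by simp
  rw [e2] at hlow
  have hθ : T ≤ (1 + (2 - η / 4) / L) ^ k * T := by
    have : 1 ≤ (1 + (2 - η / 4) / L) ^ k := by
      apply one_le_pow₀
      have : 0 ≤ (2 - η / 4) / L := div_nonneg (by linarith) hL0.le
      linarith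
    nlinarith
  have hns : (n : ℝ) * σ ≤ 1 := by
    rw [hσ, ← mul_div_assoc, div_le_one hx0]
    calc (n : ℝ) * L ^ (2 * k) ≤ L ^ C * L ^ (2 * k) := mul_le_mul_of_nonneg_right hnL (by positivity)
      _ = L ^ (C + 2 * k) := by rw [pow_add]
      _ ≤ x := h3
  set w : ℝ := (η / 4 * L) ^ k with hw
  have hw1 : 1 < w := by
    rw [hw]
    apply one_lt_pow₀ _ (by omega)
    linarith
  set v : ℝ := ((1 / 2 + η / 4) * L) ^ k with hv
  have hsum : v + w + w ≤ ((1 / 2 + η) * L) ^ k := by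
    have h7 : v + w ≤ ((1 / 2 + η / 4) * L + η / 4 * L) ^ k :=
      pow_add_pow_le (by positivity) (by positivity) (by omega)
    have h8 : ((1 / 2 + η / 4) * L + η / 4 * L) ^ k + w ≤ ((1 / 2 + η / 4) * L + η / 4 * L + η / 4 * L) ^ k :=
      pow_add_pow_le (by positivity) (by positivity) (by omega)
    have h9 : ((1 / 2 + η / 4) * L + η / 4 * L + η / 4 * L) ^ k ≤ ((1 / 2 + η) * L) ^ k := by
      apply pow_le_pow_left₀ (by positivity)
      nlinarith
    linarith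
  have hmain : ε * T ≤ v * n + n ^ 2 * σ := by linarith
  have h7 : ε * ((n : ℝ) ^ 2 - w * n) ≤ ε * T := mul_le_mul_of_nonneg_left h6 hε0.le
  have h8 : (n : ℝ) * (ε * n) ≤ n * (v + w + 1) := by
    have h9 : (n : ℝ) ^ 2 * σ ≤ n := by
      calc (n : ℝ) ^ 2 * σ = n * (n * σ) := by ring
        _ ≤ n * 1 := mul_le_mul_of_nonneg_left hns hn0
        _ = n := mul_one _
    have h10 : ε * (w * n) ≤ 1 * (w * n) := mul_le_mul_of_nonneg_right hε1 (by positivity)
    nlinarith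
  have h9 := le_of_mul_le_mul_left h8 hnpos
  linarith

/-- the first multiples of one difference -/
theorem multiples (k : ℕ) (hk : 1 ≤ k) (η : ℝ) (hη : 0 < η) (hη1 : η ≤ 1) : ∀ᶠ x : ℝ in atTop,
    ∀ ε : ℝ, 1 / Real.log x ≤ ε → ε ≤ 1 → ∃ d : ℕ, 0 < d ∧ Even d ∧
      (d : ℝ) ≤ ((1 / 2 + η) * Real.log x) ^ k / ε ∧
      (1 - ε) * ∏ i : Fin k, (Sing ((i + 1) * d) * x / Real.log x ^ 2) ≤
        ∏ i : Fin k, (pi2N ⌊x⌋₊ ((i + 1) * d) : ℝ) := by
  have hL : Tendsto Real.log atTop atTop := Real.tendsto_log_atTop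
  filter_upwards [joint_exists k hk η hη hη1 (2 * k + 3), hL.eventually_ge_atTop (2 * (k : ℝ) + 2)]
    with x h1 h2 ε hε hε1
  set L := Real.log x with hLd
  have hk0 : (1 : ℝ) ≤ k := by exact_mod_cast hk
  have hL4 : 4 ≤ L := by linarith
  have hL0 : 0 < L := by linarith
  have hε0 : 0 < ε := lt_of_lt_of_le (by positivity) hε
  set q : ℝ := ((1 / 2 + η) * L) ^ k / ε with hq
  have hq0 : 0 < q := by positivity
  set n : ℕ := ⌈q⌉₊ with hn
  have hqn : q ≤ n := Nat.le_ceil _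
  have hnq : (n : ℝ) < q + 1 := Nat.ceil_lt_add_one hq0.le
  have hqL : q ≤ L ^ (2 * k + 1) := by
    rw [hq, div_le_iff₀ hε0]
    have h3 : ((1 / 2 + η) * L) ^ k ≤ (L ^ 2) ^ k := by
      apply pow_le_pow_left₀ (by positivity)
      nlinarith
    have h4 : 1 ≤ L * ε := by
      rw [div_le_iff₀ hL0] at hε
      linarith
    calc ((1 / 2 + η) * L) ^ k ≤ (L ^ 2) ^ k * 1 := by rw [mul_one]; exact h3
      _ ≤ (L ^ 2) ^ k * (L * ε) := mul_le_mul_of_nonneg_left h4 (by positivity)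
      _ = L ^ (2 * k + 1) * ε := by rw [← pow_mul, pow_succ]; ring
  obtain ⟨a, b, hab, he, hle⟩ := h1 n (fun i a => ((i : ℕ) + 1) * ((a : ℕ) + 1)) (by
    intro i a b h
    have h3 : ((i : ℕ) + 1) * ((a : ℕ) + 1) = ((i : ℕ) + 1) * ((b : ℕ) + 1) := h
    have h4 := Nat.eq_of_mul_eq_mul_left (by omega) h3
    exact Fin.ext (by omega)) (by
    intro i a
    refine ⟨Nat.succ_le_of_lt (by positivity), ?_⟩
    have hi : ((i : ℕ) : ℝ) + 1 ≤ k := by exact_mod_cast i.2
    have ha : ((a : ℕ) : ℝ) + 1 ≤ n := by exact_mod_cast a.2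
    push_cast
    have hpow1 : 1 ≤ L ^ (2 * k + 1) := one_le_pow₀ (by linarith)
    calc (((i : ℕ) : ℝ) + 1) * (((a : ℕ) : ℝ) + 1) ≤ k * n :=
          mul_le_mul hi ha (by positivity) (by positivity)
      _ ≤ k * (L ^ (2 * k + 1) + L ^ (2 * k + 1)) := by
          apply mul_le_mul_of_nonneg_left _ (by positivity)
          linarith
      _ = (2 * k) * L ^ (2 * k + 1) := by ring
      _ ≤ L ^ 2 * L ^ (2 * k + 1) := by
          apply mul_le_mul_of_nonneg_right _ (by positivity)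
          nlinarith
      _ = L ^ (2 * k + 3) := by rw [← pow_add]; congr 1; ring) ε hε0 hε1 (by
    calc ((1 / 2 + η) * L) ^ k = ε * q := by
          rw [hq]
          field_simp
      _ ≤ ε * n := mul_le_mul_of_nonneg_left hqn hε0.le)
  have hdiff : ∀ i : Fin k, (((((i : ℕ) + 1) * ((a : ℕ) + 1) : ℕ) : ℤ) -
      ((((i : ℕ) + 1) * ((b : ℕ) + 1) : ℕ) : ℤ)).natAbs = ((i : ℕ) + 1) * ((a : ℤ) - (b : ℤ)).natAbs := by
    intro i
    push_cast
    have e : (((i : ℕ) : ℤ) + 1) * (((a : ℕ) : ℤ) + 1) - (((i : ℕ) : ℤ) + 1) * (((b : ℕ) : ℤ) + 1) =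
        (((i : ℕ) : ℤ) + 1) * (((a : ℕ) : ℤ) - ((b : ℕ) : ℤ)) := by ring
    rw [e, Int.natAbs_mul]
    congr 1
  refine ⟨((a : ℤ) - (b : ℤ)).natAbs, ?_, ?_, ?_, ?_⟩
  · have : (a : ℕ) ≠ b := fun h => hab (Fin.ext h)
    omega
  · have h3 := he ⟨0, by omega⟩
    rw [hdiff] at h3
    simpa using h3
  · have h3 : ((a : ℤ) - (b : ℤ)).natAbs ≤ n - 1 := by
      have := a.2
      have := b.2
      omega
    have hn1 : 1 ≤ n := by
      have := a.2
      omega
    have h4 : ((((a : ℤ) - (b : ℤ)).natAbs : ℕ) : ℝ) ≤ (n : ℝ) - 1 := by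
      have : ((((a : ℤ) - (b : ℤ)).natAbs : ℕ) : ℝ) ≤ ((n - 1 : ℕ) : ℝ) := by exact_mod_cast h3
      rwa [Nat.cast_sub hn1, Nat.cast_one] at this
    linarith
  · simp only [hdiff] at hle
    exact hle

end Pool.Agent.T9h56.HL
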