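import Mathlib
import Pool.Agent.T9h56.HL.CliqueThm

/-! Cliques in dense sets, with the exponents of a random graph. -/

set_option autoImplicit false

open Finset Filter Topology

namespace Pool.Agent.T9h56.HL

/-- the moments of the singular series -/
theorem Sing_mom (r : ℕ) (hr : 1 ≤ r) : ∃ C2 : ℝ, 1 ≤ C2 ∧ ∀ H : ℕ,
    ∑ a ∈ Icc 1 H, ∑ b ∈ Icc 1 H, (if a = b then 0 else Sing ((a : ℤ) - b).natAbs ^ r) ≤
      C2 * (H : ℝ) ^ 2 := by
  classical
  obtain ⟨C, hC, hm⟩ := Pool.Agent.TH891.SG.CT_mom 1 r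
  refine ⟨max 1 (8 * C), le_max_left _ _, fun H => ?_⟩
  rcases Nat.eq_zero_or_pos H with hH | hH
  · subst hH
    simp
  have hH1 : (1 : ℝ) ≤ H := by exact_mod_cast hH
  set U := Icc 1 H with hU
  -- the ordered pairs
  set P : Finset (ℕ × ℕ) := (U ×ˢ U).filter (fun p => p.1 < p.2) with hP
  have h1 : ∑ p ∈ P, Sing (p.2 - p.1) ^ r ≤ C * ((H : ℝ) + 1) ^ 2 := by
    have h2 : ∀ p ∈ P, Sing (p.2 - p.1) ^ r ≤ Pool.Agent.H387R2.Uni.CT {p.1, p.2} ^ r := by
      intro p hp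
      rw [hP, mem_filter] at hp
      have hlt := hp.2
      by_cases he : Even (p.2 - p.1)
      · have hd2 : 2 ≤ p.2 - p.1 := by
          obtain ⟨j, hj⟩ := he
          omega
        rw [Sing_even hd2 he, ← Pool.Agent.TH891.SG.CT_add {0, p.2 - p.1} p.1]
        have e : (({0, p.2 - p.1} : Finset ℕ).image (· + p.1)) = {p.1, p.2} := by
          rw [image_insert, image_singleton, zero_add, Nat.sub_add_cancel hlt.le]
        rw [e]
      · unfold Sing
        rw [if_neg he]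
        rw [zero_pow (by omega)]
        exact pow_nonneg (Pool.Agent.H387R2.Uni.CT_nonneg _) _
    have hinj : Set.InjOn (fun p : ℕ × ℕ => ({p.1, p.2} : Finset ℕ)) (P : Set (ℕ × ℕ)) := by
      intro p hp q hq h
      rw [mem_coe, hP, mem_filter] at hp hq
      have h3 : ({p.1, p.2} : Finset ℕ) = {q.1, q.2} := h
      have h4 : p.1 ∈ ({q.1, q.2} : Finset ℕ) := by rw [← h3]; simp
      have h5 : p.2 ∈ ({q.1, q.2} : Finset ℕ) := by rw [← h3]; simp
      rw [mem_insert, mem_singleton] at h4 h5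
      have h6 := hp.2
      have h7 := hq.2
      have e1 : p.1 = q.1 := by omega
      have e2 : p.2 = q.2 := by omega
      exact Prod.ext e1 e2
    calc ∑ p ∈ P, Sing (p.2 - p.1) ^ r ≤ ∑ p ∈ P, Pool.Agent.H387R2.Uni.CT {p.1, p.2} ^ r := sum_le_sum h2
      _ = ∑ T ∈ P.image (fun p : ℕ × ℕ => ({p.1, p.2} : Finset ℕ)), Pool.Agent.H387R2.Uni.CT T ^ r := by
          rw [sum_image hinj]
      _ ≤ ∑ T ∈ (range (H + 1)).powersetCard (1 + 1), Pool.Agent.H387R2.Uni.CT T ^ r := by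
          apply sum_le_sum_of_subset_of_nonneg
          · intro T hT
            rw [mem_image] at hT
            obtain ⟨p, hp, rfl⟩ := hT
            rw [hP, mem_filter, mem_product, hU, mem_Icc, mem_Icc] at hp
            rw [mem_powersetCard]
            constructor
            · intro t ht
              rw [mem_insert, mem_singleton] at ht
              rw [mem_range]
              omega
            · exact card_pair (by have := hp.2; omega)
          · intro T _ _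
            exact pow_nonneg (Pool.Agent.H387R2.Uni.CT_nonneg _) _
      _ ≤ C * (((H + 1 : ℕ) : ℝ)) ^ (1 + 1) := hm (H + 1)
      _ = C * ((H : ℝ) + 1) ^ 2 := by push_cast; ring
  have h2 : ∑ a ∈ U, ∑ b ∈ U, (if a = b then 0 else Sing ((a : ℤ) - b).natAbs ^ r) ≤
      2 * ∑ p ∈ P, Sing (p.2 - p.1) ^ r := by
    have h3 : ∑ p ∈ P, Sing (p.2 - p.1) ^ r = ∑ a ∈ U, ∑ b ∈ U, (if a < b then Sing (b - a) ^ r else 0) := by
      rw [hP, sum_filter, sum_product]
    have h4 : ∑ a ∈ U, ∑ b ∈ U, (if a < b then Sing (b - a) ^ r else 0) =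
        ∑ a ∈ U, ∑ b ∈ U, (if b < a then Sing (a - b) ^ r else 0) := by
      rw [sum_comm]
    rw [two_mul]
    nth_rewrite 2 [h3]
    rw [h3, h4, ← sum_add_distrib]
    apply le_of_eq
    have h5 : ∀ a ∈ U, ∑ b ∈ U, (if a = b then 0 else Sing ((a : ℤ) - b).natAbs ^ r) =
        ∑ b ∈ U, (if b < a then Sing (a - b) ^ r else 0) + ∑ b ∈ U, (if a < b then Sing (b - a) ^ r else 0) := by
      intro a _
      rw [← sum_add_distrib]
      refine sum_congr rfl fun b _ => ?_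
      rcases lt_trichotomy a b with h | h | h
      · rw [if_neg (by omega), if_neg (by omega), if_pos h, zero_add]
        have e : ((a : ℤ) - b).natAbs = b - a := by omega
        rw [e]
      · rw [if_pos h, if_neg (by omega), if_neg (by omega), add_zero]
      · rw [if_neg (by omega), if_pos h, if_neg (by omega), add_zero]
        have e : ((a : ℤ) - b).natAbs = a - b := by omega
        rw [e]
    rw [sum_congr rfl h5, sum_add_distrib, sum_add_distrib, h4]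
  calc _ ≤ 2 * ∑ p ∈ P, Sing (p.2 - p.1) ^ r := h2
    _ ≤ 2 * (C * ((H : ℝ) + 1) ^ 2) := by linarith
    _ ≤ 2 * (C * (2 * H) ^ 2) := by
        apply mul_le_mul_of_nonneg_left _ (by norm_num)
        apply mul_le_mul_of_nonneg_left _ hC.le
        exact pow_le_pow_left₀ (by positivity) (by linarith) 2
    _ = 8 * C * (H : ℝ) ^ 2 := by ring
    _ ≤ max 1 (8 * C) * (H : ℝ) ^ 2 := mul_le_mul_of_nonneg_right (le_max_right _ _) (by positivity)


/-- cliques in dense sets -/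
theorem clique_dense2 (m : ℕ) (hm : 1 ≤ m) (δ : ℝ) (hδ : 0 < δ) : ∃ c : ℝ, 0 < c ∧ ∀ C : ℕ,
    ∀ᶠ x : ℝ in atTop, ∀ H : ℕ, (H : ℝ) ≤ Real.log x ^ C → ∀ A : Finset ℕ, A ⊆ Icc 1 H →
      ∀ ε : ℝ, 0 < ε → ε ≤ 1 →
      Real.log x ≤ (c * ε ^ (1 + δ) * ((A.card : ℝ) / H) ^ δ) ^ (m - 1) * A.card →
      (c * ε ^ (1 + δ) * ((A.card : ℝ) / H) ^ δ) ^ (m.choose 2) * (A.card : ℝ) ^ m ≤
        ((cliques (GoodPair x ε) A m).card : ℝ) := by
  classical
  obtain ⟨k, rfl⟩ : ∃ k, m = k + 1 := ⟨m - 1, by omega⟩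
  obtain ⟨B, hB, he⟩ := edges
  obtain ⟨r, hr⟩ := exists_nat_ge ((1 + 8 * (k : ℝ)) / δ + 4 * k + 1)
  have hk0 : (0 : ℝ) ≤ k := Nat.cast_nonneg _
  have hq0 : 0 ≤ (1 + 8 * (k : ℝ)) / δ := by positivity
  have hr1 : (1 : ℝ) ≤ r := by linarith
  have hr0 : (0 : ℝ) < r := by linarith
  have hrn : 1 ≤ r := by exact_mod_cast hr1
  have hrk : 4 * (k : ℝ) / r ≤ 1 := by
    rw [div_le_one hr0]
    linarith
  have hrδ : (1 + 8 * (k : ℝ)) / r ≤ δ := by
    rw [div_le_iff₀ hr0]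
    have : (1 + 8 * (k : ℝ)) / δ ≤ r := by linarith
    rw [div_le_iff₀ hδ] at this
    linarith
  obtain ⟨Cr, hCr, hmom⟩ := Sing_mom (r + 1) (by omega)
  have hB0 : 0 < B := by linarith
  have hCr0 : 0 < Cr := by linarith
  set c₁ : ℝ := 1 / (8 * (B ^ 2 * Cr)) with hc₁
  have hBC : 1 ≤ B ^ 2 * Cr := by
    have : 1 ≤ B ^ 2 := one_le_pow₀ hB
    nlinarith
  have hc₁0 : 0 < c₁ := by positivity
  have hc₁1 : c₁ ≤ 1 / 8 := by
    rw [hc₁]
    apply one_div_le_one_div_of_le (by norm_num)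
    linarith
  refine ⟨c₁ ^ 2 / 8, by positivity, fun C => ?_⟩
  have hL : Tendsto Real.log atTop atTop := Real.tendsto_log_atTop
  filter_upwards [he C, hL.eventually_ge_atTop 3] with x h1 h3 H hHL A hA ε hε0 hε1 hcond
  set L := Real.log x with hLd
  have hL0 : 0 < L := by linarith
  rw [Nat.add_sub_cancel] at hcond
  -- small cases
  rcases Nat.eq_zero_or_pos k with hk | hk
  · subst hk
    have h4 : ((cliques (GoodPair x ε) A (0 + 1)).card : ℝ) = A.card := by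
      exact_mod_cast cliques_one (GoodPair x ε) A
    rw [h4]
    simp
  have hn0' : (0 : ℝ) ≤ A.card := Nat.cast_nonneg _
  rcases hn0'.eq_or_lt with hn | hn
  · rw [← hn, mul_zero] at hcond
    linarith
  set n : ℝ := (A.card : ℝ) with hnd
  have hnH : n ≤ H := by
    have := card_le_card hA
    rw [Nat.card_Icc, Nat.add_sub_cancel] at this
    rw [hnd]
    exact_mod_cast this
  have hH0 : (0 : ℝ) < H := by linarith
  obtain ⟨β, hβ⟩ : ∃ β : ℝ, β = n / H := ⟨_, rfl⟩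
  rw [← hβ] at hcond ⊢
  have hβ0 : 0 < β := by rw [hβ]; positivity
  have hβ1 : β ≤ 1 := by
    rw [hβ, div_le_one hH0]
    exact hnH
  have hβH : β * H = n := by rw [hβ]; exact div_mul_cancel₀ n hH0.ne'
  clear hβ
  -- the parameters
  set a : ℝ := 1 + 1 / r with ha
  have ha0 : 0 < a := by positivity
  set w : ℝ := c₁ * ε ^ a with hw
  have hεa : 0 < ε ^ a := Real.rpow_pos_of_pos hε0 a
  have hεa1 : ε ^ a ≤ 1 := Real.rpow_le_one hε0.le hε1 ha0.le
  have hw0 : 0 < w := by positivity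
  have hw1 : w ≤ 1 := by
    calc w ≤ 1 / 8 * 1 := mul_le_mul hc₁1 hεa1 hεa.le (by norm_num)
      _ ≤ 1 := by norm_num
  set y : ℝ := w ^ (k - 1) * β with hy
  have hy0 : 0 < y := by positivity
  have hy1 : y ≤ 1 := by
    calc y ≤ 1 * 1 := mul_le_mul (pow_le_one₀ hw0.le hw1) hβ1 hβ0.le (by norm_num)
      _ = 1 := by norm_num
  set s : ℝ := y ^ (4 / (r : ℝ)) with hs
  have hs0 : 0 < s := Real.rpow_pos_of_pos hy0 _
  have hs1 : s ≤ 1 := Real.rpow_le_one hy0.le hy1 (by positivity)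
  have hsr : s ^ r = y ^ 4 := by
    rw [hs, ← Real.rpow_natCast, ← Real.rpow_mul hy0.le, div_mul_cancel₀ _ hr0.ne']
    exact_mod_cast Real.rpow_natCast y 4
  have hεr : (ε ^ a) ^ r = ε ^ (r + 1) := by
    rw [← Real.rpow_natCast, ← Real.rpow_mul hε0.le, ← Real.rpow_natCast]
    congr 1
    rw [ha]
    push_cast
    field_simp
  set ρ : ℝ := w * s with hρ
  have hρ0 : 0 < ρ := by positivity
  have hρ1 : ρ ≤ 1 := by
    calc ρ ≤ 1 * 1 := mul_le_mul hw1 hs1 hs0.le (by norm_num)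
      _ = 1 := by norm_num
  -- the constant
  have hconst : (2 * c₁) ^ r * ((2 * B) ^ (r + 1) * Cr) ≤ 1 := by
    have e : (2 * c₁) ^ r * ((2 * B) ^ (r + 1) * Cr) = (4 * B * c₁) ^ r * (2 * B * Cr) := by
      rw [show (4 * B * c₁) = (2 * c₁) * (2 * B) by ring, mul_pow (2 * c₁) (2 * B), pow_succ (2 * B) r]
      generalize (2 * c₁) ^ r = p
      generalize (2 * B) ^ r = q
      ring
    rw [e]
    have e2 : 4 * B * c₁ = 1 / (2 * (B * Cr)) := by
      rw [hc₁]
      field_simp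
      ring
    have h5 : 1 ≤ 2 * B * Cr := by nlinarith
    have h6 : 4 * B * c₁ ≤ 1 := by
      rw [e2, div_le_one (by positivity)]
      linarith
    have h7 : (4 * B * c₁) ^ r ≤ (4 * B * c₁) ^ 1 := pow_le_pow_of_le_one (by positivity) h6 hrn
    calc (4 * B * c₁) ^ r * (2 * B * Cr) ≤ (4 * B * c₁) ^ 1 * (2 * B * Cr) :=
          mul_le_mul_of_nonneg_right h7 (by positivity)
      _ = 1 := by
          rw [pow_one, e2]
          field_simp
  -- comparison with the `ρ` of the statement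
  have hρ' : c₁ ^ 2 / 8 * ε ^ (1 + δ) * β ^ δ ≤ ρ := by
    have h4 : (c₁ * ε ^ (δ - 1 / r)) * β ^ δ ≤ s := by
      have hk1 : ((k - 1 : ℕ) : ℝ) ≤ k := by exact_mod_cast Nat.sub_le k 1
      have hk1' : (0 : ℝ) ≤ ((k - 1 : ℕ) : ℝ) := Nat.cast_nonneg _
      have e1 : s = c₁ ^ (((k - 1 : ℕ) : ℝ) * (4 / r)) * ε ^ (a * (((k - 1 : ℕ) : ℝ) * (4 / r))) * β ^ (4 / (r : ℝ)) := by
        rw [hs, hy, Real.mul_rpow (by positivity) hβ0.le, ← Real.rpow_natCast w, ← Real.rpow_mul hw0.le, hw,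
          Real.mul_rpow hc₁0.le hεa.le, ← Real.rpow_mul hε0.le]
      rw [e1]
      have h5 : ((k - 1 : ℕ) : ℝ) * (4 / r) ≤ 1 := by
        calc ((k - 1 : ℕ) : ℝ) * (4 / r) ≤ k * (4 / r) := mul_le_mul_of_nonneg_right hk1 (by positivity)
          _ = 4 * k / r := by ring
          _ ≤ 1 := hrk
      have h6 : c₁ ≤ c₁ ^ (((k - 1 : ℕ) : ℝ) * (4 / r)) := by
        calc c₁ = c₁ ^ (1 : ℝ) := (Real.rpow_one _).symm
          _ ≤ _ := Real.rpow_le_rpow_of_exponent_ge hc₁0 (by linarith) h5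
      have h7 : ε ^ (δ - 1 / r) ≤ ε ^ (a * (((k - 1 : ℕ) : ℝ) * (4 / r))) := by
        apply Real.rpow_le_rpow_of_exponent_ge hε0 hε1
        have ha2 : a ≤ 2 := by
          rw [ha]
          have : 1 / (r : ℝ) ≤ 1 := by
            rw [div_le_one hr0]
            exact hr1
          linarith
        have h8 : a * (((k - 1 : ℕ) : ℝ) * (4 / r)) ≤ 2 * (k * (4 / r)) := by
          apply mul_le_mul ha2 _ (by positivity) (by norm_num)
          exact mul_le_mul_of_nonneg_right hk1 (by positivity)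
        have h9 : 2 * (k * (4 / r)) + 1 / r = (1 + 8 * (k : ℝ)) / r := by ring
        linarith
      have h8 : β ^ δ ≤ β ^ (4 / (r : ℝ)) := by
        apply Real.rpow_le_rpow_of_exponent_ge hβ0 hβ1
        refine le_trans ?_ hrδ
        apply div_le_div_of_nonneg_right _ hr0.le
        have : (1 : ℝ) ≤ k := by exact_mod_cast hk
        linarith
      apply mul_le_mul _ h8 (Real.rpow_nonneg hβ0.le _) (by positivity)
      exact mul_le_mul h6 h7 (Real.rpow_nonneg hε0.le _) (by positivity)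
    have e2 : ε ^ (1 + δ) = ε ^ a * ε ^ (δ - 1 / r) := by
      rw [← Real.rpow_add hε0]
      congr 1
      rw [ha]
      ring
    have h5 : 0 ≤ ε ^ (δ - 1 / r) := Real.rpow_nonneg hε0.le _
    have h6 : 0 ≤ β ^ δ := Real.rpow_nonneg hβ0.le _
    calc c₁ ^ 2 / 8 * ε ^ (1 + δ) * β ^ δ = (1 / 8) * (w * ((c₁ * ε ^ (δ - 1 / r)) * β ^ δ)) := by
          rw [e2, hw]
          ring
      _ ≤ 1 * (w * ((c₁ * ε ^ (δ - 1 / r)) * β ^ δ)) :=
          mul_le_mul_of_nonneg_right (by norm_num) (by positivity)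
      _ = w * ((c₁ * ε ^ (δ - 1 / r)) * β ^ δ) := one_mul _
      _ ≤ w * s := mul_le_mul_of_nonneg_left h4 hw0.le
  have hρ'' : 8 * (c₁ ^ 2 / 8 * ε ^ (1 + δ) * β ^ δ) ≤ ε := by
    have h5 : ε ^ (1 + δ) ≤ ε := by
      calc ε ^ (1 + δ) ≤ ε ^ (1 : ℝ) := Real.rpow_le_rpow_of_exponent_ge hε0 hε1 (by linarith)
        _ = ε := Real.rpow_one _
    have h6 : β ^ δ ≤ 1 := Real.rpow_le_one hβ0.le hβ1 hδ.le
    have h7 : 0 ≤ ε ^ (1 + δ) := Real.rpow_nonneg hε0.le _
    have h8 : 0 ≤ β ^ δ := Real.rpow_nonneg hβ0.le _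
    have h9 : c₁ ^ 2 ≤ 1 := pow_le_one₀ hc₁0.le (by linarith)
    calc 8 * (c₁ ^ 2 / 8 * ε ^ (1 + δ) * β ^ δ) = c₁ ^ 2 * (ε ^ (1 + δ) * β ^ δ) := by ring
      _ ≤ 1 * (ε ^ (1 + δ) * β ^ δ) := mul_le_mul_of_nonneg_right h9 (by positivity)
      _ ≤ 1 * (ε * 1) := by
          apply mul_le_mul_of_nonneg_left _ zero_le_one
          exact mul_le_mul h5 h6 h8 hε0.le
      _ = ε := by ring
  obtain ⟨ρ', hρ'd⟩ : ∃ ρ' : ℝ, ρ' = c₁ ^ 2 / 8 * ε ^ (1 + δ) * β ^ δ := ⟨_, rfl⟩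
  rw [← hρ'd] at hcond hρ' hρ'' ⊢
  have hρ'0 : 0 ≤ ρ' := by
    rw [hρ'd]
    have h7 : 0 ≤ ε ^ (1 + δ) := Real.rpow_nonneg hε0.le _
    have h8 : 0 ≤ β ^ δ := Real.rpow_nonneg hβ0.le _
    positivity
  have hmain := many_cliques (GoodPair x ε) (GoodPair_symm x ε) ρ (max (8 * L / ε) (y ^ 2 * H)) hρ0 hρ1 A (by
    intro A₀ hA₀ ht
    have ht1 : 8 * L / ε ≤ A₀.card := (le_max_left _ _).trans ht
    have ht2 : y ^ 2 * H ≤ A₀.card := (le_max_right _ _).trans ht
    rw [div_le_iff₀ hε0] at ht1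
    have h5 := h1 H hHL A₀ (hA₀.trans hA) ε hε0 hε1 (by linarith)
    set D := ∑ a ∈ A₀, ((nbr (GoodPair x ε) A₀ a).card : ℝ) with hD
    set W := ∑ a ∈ A₀, ∑ b ∈ nbr (GoodPair x ε) A₀ a, Sing ((a : ℤ) - b).natAbs with hW
    obtain ⟨l, hl⟩ : ∃ l : ℝ, l = (A₀.card : ℝ) := ⟨_, rfl⟩
    rw [← hl] at h5 ht2 ⊢
    have hl0 : 0 ≤ l := by rw [hl]; exact Nat.cast_nonneg _
    set Q := A₀.sigma (fun a => nbr (GoodPair x ε) A₀ a) with hQ
    have hDe : D = (Q.card : ℝ) := by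
      rw [hD, hQ, card_sigma]
      push_cast
      rfl
    have hWe : W = ∑ p ∈ Q, Sing ((p.1 : ℤ) - p.2).natAbs := by
      rw [hW, hQ, sum_sigma]
    have hQ1 : ∀ p ∈ Q, p.1 ≠ p.2 := by
      intro p hp
      rw [hQ, mem_sigma] at hp
      have := hp.2
      unfold nbr at this
      rw [mem_filter] at this
      exact this.2.1
    have hW0 : 0 ≤ W := by
      rw [hWe]
      exact sum_nonneg fun p hp => Sing_nonneg _ (by have := hQ1 p hp; omega)
    have hHo : W ^ (r + 1) ≤ D ^ r * ∑ p ∈ Q, Sing ((p.1 : ℤ) - p.2).natAbs ^ (r + 1) := by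
      rw [hWe, hDe]
      exact pow_sum_le_card_mul_sum_pow (fun p hp => Sing_nonneg _ (by have := hQ1 p hp; omega)) r
    have hSr : ∑ p ∈ Q, Sing ((p.1 : ℤ) - p.2).natAbs ^ (r + 1) ≤ Cr * (H : ℝ) ^ 2 := by
      refine le_trans ?_ (hmom H)
      have hterm : ∀ a ∈ Icc 1 H, ∀ b ∈ Icc 1 H,
          (0 : ℝ) ≤ (if a = b then 0 else Sing ((a : ℤ) - b).natAbs ^ (r + 1)) := by
        intro a _ b _
        split_ifs with hab
        · exact le_rfl
        · exact pow_nonneg (Sing_nonneg _ (by omega)) _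
      rw [hQ, sum_sigma]
      calc ∑ a ∈ A₀, ∑ b ∈ nbr (GoodPair x ε) A₀ a, Sing ((a : ℤ) - b).natAbs ^ (r + 1)
          ≤ ∑ a ∈ A₀, ∑ b ∈ Icc 1 H, (if a = b then 0 else Sing ((a : ℤ) - b).natAbs ^ (r + 1)) := by
            refine sum_le_sum fun a haA => ?_
            have e : ∑ b ∈ nbr (GoodPair x ε) A₀ a, Sing ((a : ℤ) - b).natAbs ^ (r + 1) =
                ∑ b ∈ nbr (GoodPair x ε) A₀ a, (if a = b then 0 else Sing ((a : ℤ) - b).natAbs ^ (r + 1)) := by
              refine sum_congr rfl fun b hb => ?_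
              unfold nbr at hb
              rw [mem_filter] at hb
              rw [if_neg hb.2.1]
            rw [e]
            apply sum_le_sum_of_subset_of_nonneg
            · exact (filter_subset _ _).trans (hA₀.trans hA)
            · intro b hb _
              exact hterm a (hA (hA₀ haA)) b hb
        _ ≤ ∑ a ∈ Icc 1 H, ∑ b ∈ Icc 1 H, (if a = b then 0 else Sing ((a : ℤ) - b).natAbs ^ (r + 1)) := by
            apply sum_le_sum_of_subset_of_nonneg (hA₀.trans hA)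
            intro a ha _
            exact sum_nonneg fun b hb => hterm a ha b hb
    have hD0 : 0 ≤ D := sum_nonneg fun _ _ => Nat.cast_nonneg _
    clear_value D W
    have h6 : ε ^ (r + 1) * l ^ (2 * r + 2) ≤ (2 * B) ^ (r + 1) * (D ^ r * (Cr * (H : ℝ) ^ 2)) := by
      have h7 : ε * l ^ 2 ≤ 2 * B * W := by linarith
      calc ε ^ (r + 1) * l ^ (2 * r + 2) = (ε * l ^ 2) ^ (r + 1) := by
            rw [mul_pow, ← pow_mul]
            ring_nf
        _ ≤ (2 * B * W) ^ (r + 1) := pow_le_pow_left₀ (mul_nonneg hε0.le (sq_nonneg _)) h7 _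
        _ = (2 * B) ^ (r + 1) * W ^ (r + 1) := mul_pow _ _ _
        _ ≤ (2 * B) ^ (r + 1) * (D ^ r * (Cr * (H : ℝ) ^ 2)) := by
            apply mul_le_mul_of_nonneg_left _ (pow_nonneg (by linarith) _)
            exact hHo.trans (mul_le_mul_of_nonneg_left hSr (pow_nonneg hD0 _))
    have h7 : (2 * ρ * l ^ 2) ^ r ≤ D ^ r := by
      have hpos : 0 < (2 * B) ^ (r + 1) * Cr * (H : ℝ) ^ 2 := by positivity
      have h8 : (2 * ρ * l ^ 2) ^ r * ((2 * B) ^ (r + 1) * Cr * (H : ℝ) ^ 2) ≤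
          D ^ r * ((2 * B) ^ (r + 1) * Cr * (H : ℝ) ^ 2) := by
        have e1 : (2 * ρ * l ^ 2) ^ r * ((2 * B) ^ (r + 1) * Cr * (H : ℝ) ^ 2) =
            ((2 * c₁) ^ r * ((2 * B) ^ (r + 1) * Cr)) * (ε ^ (r + 1) * l ^ (2 * r) * (y ^ 2 * H) ^ 2) := by
          calc (2 * ρ * l ^ 2) ^ r * ((2 * B) ^ (r + 1) * Cr * (H : ℝ) ^ 2)
              = (2 * c₁) ^ r * (ε ^ a) ^ r * s ^ r * (l ^ 2) ^ r * ((2 * B) ^ (r + 1) * Cr * (H : ℝ) ^ 2) := by
                rw [hρ, hw, show 2 * (c₁ * ε ^ a * s) * l ^ 2 = (2 * c₁) * ε ^ a * s * l ^ 2 by ring,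
                  mul_pow, mul_pow, mul_pow]
            _ = (2 * c₁) ^ r * ε ^ (r + 1) * y ^ 4 * l ^ (2 * r) * ((2 * B) ^ (r + 1) * Cr * (H : ℝ) ^ 2) := by
                rw [hεr, hsr, ← pow_mul]
            _ = _ := by ring
        rw [e1]
        have h9 : (y ^ 2 * H) ^ 2 ≤ l ^ 2 := pow_le_pow_left₀ (by positivity) ht2 2
        calc ((2 * c₁) ^ r * ((2 * B) ^ (r + 1) * Cr)) * (ε ^ (r + 1) * l ^ (2 * r) * (y ^ 2 * H) ^ 2)
            ≤ 1 * (ε ^ (r + 1) * l ^ (2 * r) * (y ^ 2 * H) ^ 2) :=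
              mul_le_mul_of_nonneg_right hconst (by positivity)
          _ ≤ 1 * (ε ^ (r + 1) * l ^ (2 * r) * l ^ 2) := by
              apply mul_le_mul_of_nonneg_left _ zero_le_one
              exact mul_le_mul_of_nonneg_left h9 (by positivity)
          _ = ε ^ (r + 1) * l ^ (2 * r + 2) := by ring
          _ ≤ _ := h6
          _ = _ := by ring
      exact le_of_mul_le_mul_right h8 hpos
    exact le_of_pow_le_pow_left₀ (by omega) hD0 h7) k A (Subset.refl _) (by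
    right
    have h5 : ρ' ^ (k - 1) ≤ ρ ^ (k - 1) := pow_le_pow_left₀ hρ'0 hρ' _
    apply max_le
    · rw [div_le_iff₀ hε0]
      have e : ρ' ^ k = ρ' ^ (k - 1) * ρ' := by
        rw [← pow_succ]
        congr 1
        omega
      calc 8 * L ≤ 8 * (ρ' ^ k * n) := by linarith
        _ = ρ' ^ (k - 1) * n * (8 * ρ') := by rw [e]; ring
        _ ≤ ρ' ^ (k - 1) * n * ε := mul_le_mul_of_nonneg_left hρ'' (by positivity)
        _ ≤ ρ ^ (k - 1) * n * ε := by
            apply mul_le_mul_of_nonneg_right _ hε0.le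
            exact mul_le_mul_of_nonneg_right h5 hn.le
    · have h6 : y ≤ s ^ (k - 1) := by
        rw [hs, ← Real.rpow_natCast, ← Real.rpow_mul hy0.le]
        calc y = y ^ (1 : ℝ) := (Real.rpow_one y).symm
          _ ≤ _ := by
              apply Real.rpow_le_rpow_of_exponent_ge hy0 hy1
              have hk1 : ((k - 1 : ℕ) : ℝ) ≤ k := by exact_mod_cast Nat.sub_le k 1
              calc 4 / (r : ℝ) * ((k - 1 : ℕ) : ℝ) ≤ 4 / (r : ℝ) * k :=
                    mul_le_mul_of_nonneg_left hk1 (by positivity)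
                _ = 4 * k / r := by ring
                _ ≤ 1 := hrk
      calc y ^ 2 * H = (w ^ (k - 1) * y) * (β * H) := by rw [hy]; ring
        _ ≤ (w ^ (k - 1) * s ^ (k - 1)) * (β * H) := by
            apply mul_le_mul_of_nonneg_right _ (by positivity)
            exact mul_le_mul_of_nonneg_left h6 (by positivity)
        _ = ρ ^ (k - 1) * n := by rw [hβH, hρ, ← mul_pow])
  refine le_trans ?_ hmain
  have e1 : (k + 1).choose 2 = k * (k + 1) / 2 := by
    rw [Nat.choose_two_right, Nat.add_sub_cancel, mul_comm]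
  rw [e1]
  apply mul_le_mul_of_nonneg_right _ (by positivity)
  exact pow_le_pow_left₀ hρ'0 hρ' _

end Pool.Agent.T9h56.HL
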